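import Mathlib

/-!
# AP: decomposition of the primes, 1: bilinear sums, decoupling

`f` is an arbitrary function supported in `[1, N]`. `Hyp P f N B`: all bilinear sums with coefficients of modulus at
most `1`, the first with support in `P`, are at most `B`.
-/

set_option autoImplicit false

open Finset

namespace Pool.Agent.Helper25.AP

/-- bilinear sums with the first variable in `P`, for a finite family: at most `B` for each, and an error `B'` for the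
largest number of representations. -/
def Hyp (P : ℕ → Prop) (f : ℕ → ℝ) (N : ℕ) (B B' : ℝ) : Prop :=
  ∀ (ι : Type) (Q : Finset ι) (β α : ι → ℕ → ℝ) (A : ℝ), (∀ q l, |β q l| ≤ 1) → (∀ q ∈ Q, ∀ l, β q l ≠ 0 → P l) →
    (∀ q m, |α q m| ≤ 1) →
    (∀ n ∈ Icc 1 N, ∑ q ∈ Q, ∑ x ∈ n.divisorsAntidiagonal, |β q x.1| * |α q x.2| ≤ A) →
    |∑ q ∈ Q, ∑ l ∈ Icc 1 N, ∑ m ∈ Icc 1 N, β q l * α q m * f (l * m)| ≤ (Q.card : ℝ) * B + A * B'

lemma Hyp.nonneg' {P : ℕ → Prop} {f : ℕ → ℝ} {N : ℕ} {B B' : ℝ} (h : Hyp P f N B B') : 0 ≤ B' := by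
  have := h ℕ ∅ (fun _ _ => 0) (fun _ _ => 0) 1 (by simp) (by simp) (by simp) (by simp)
  simp at this
  linarith

lemma Hyp.nonneg {P : ℕ → Prop} {f : ℕ → ℝ} {N : ℕ} {B B' : ℝ} (h : Hyp P f N B B') : 0 ≤ B := by
  have := h ℕ {0} (fun _ _ => 0) (fun _ _ => 0) 0 (by simp) (by simp) (by simp) (by simp)
  simp at this
  linarith

/-- coefficients bounded by `c`. -/
lemma Hyp.scale {P : ℕ → Prop} {f : ℕ → ℝ} {N : ℕ} {B B' : ℝ} (h : Hyp P f N B B') {ι : Type} (Q : Finset ι)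
    {β α : ι → ℕ → ℝ} {A c : ℝ} (hc : 0 < c) (hβ : ∀ q l, |β q l| ≤ 1) (hP : ∀ q ∈ Q, ∀ l, β q l ≠ 0 → P l)
    (hα : ∀ q, ∀ m ∈ Icc 1 N, |α q m| ≤ c)
    (hA : ∀ n ∈ Icc 1 N, ∑ q ∈ Q, ∑ x ∈ n.divisorsAntidiagonal, |β q x.1| * |α q x.2| ≤ A) :
    |∑ q ∈ Q, ∑ l ∈ Icc 1 N, ∑ m ∈ Icc 1 N, β q l * α q m * f (l * m)| ≤ (Q.card : ℝ) * (c * B) + A * B' := by
  have h1 := h ι Q β (fun q m => if m ∈ Icc 1 N then α q m / c else 0) (A / c) hβ hP (by
    intro q m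
    split_ifs with hm
    · rw [abs_div, abs_of_pos hc, div_le_one hc]
      exact hα q m hm
    · simp) (by
    intro n hn
    rw [le_div_iff₀ hc]
    refine le_trans (le_of_eq ?_) (hA n hn)
    rw [sum_mul]
    refine sum_congr rfl fun q _ => ?_
    rw [sum_mul]
    refine sum_congr rfl fun x hx => ?_
    have hx2 : x.2 ∈ Icc 1 N := by
      rw [Nat.mem_divisorsAntidiagonal] at hx
      rw [mem_Icc] at hn ⊢
      have h3 : x.1 ≠ 0 := by rintro h; rw [h] at hx; simp at hx; omega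
      have h4 : x.2 ≠ 0 := by rintro h; rw [h] at hx; simp at hx; omega
      have h6 : x.2 ≤ n := by rw [← hx.1]; exact Nat.le_mul_of_pos_left _ (Nat.pos_of_ne_zero h3)
      omega
    rw [if_pos hx2, abs_div, abs_of_pos hc]
    field_simp)
  have h2 : ∑ q ∈ Q, ∑ l ∈ Icc 1 N, ∑ m ∈ Icc 1 N, β q l * α q m * f (l * m) =
      c * ∑ q ∈ Q, ∑ l ∈ Icc 1 N, ∑ m ∈ Icc 1 N, β q l * (if m ∈ Icc 1 N then α q m / c else 0) * f (l * m) := by
    rw [mul_sum]
    refine sum_congr rfl fun q _ => ?_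
    rw [mul_sum]
    refine sum_congr rfl fun l _ => ?_
    rw [mul_sum]
    refine sum_congr rfl fun m hm => ?_
    rw [if_pos hm]
    field_simp
  rw [h2, abs_mul, abs_of_pos hc]
  calc c * _ ≤ c * ((Q.card : ℝ) * B + A / c * B') := mul_le_mul_of_nonneg_left h1 hc.le
    _ = (Q.card : ℝ) * (c * B) + A * B' := by field_simp

/-- convolution: `n = d m`. -/
lemma conv {f : ℕ → ℝ} {N : ℕ} (hf : ∀ n, N < n → f n = 0) (g : ℕ → ℕ → ℝ) :
    ∑ d ∈ Icc 1 N, ∑ m ∈ Icc 1 N, g d m * f (d * m) =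
      ∑ n ∈ Icc 1 N, (∑ x ∈ n.divisorsAntidiagonal, g x.1 x.2) * f n := by
  rw [← sum_product' (Icc 1 N) (Icc 1 N) (fun d m => g d m * f (d * m))]
  have h1 : ∑ x ∈ Icc 1 N ×ˢ Icc 1 N, g x.1 x.2 * f (x.1 * x.2) =
      ∑ x ∈ (Icc 1 N ×ˢ Icc 1 N).filter (fun x => x.1 * x.2 ≤ N), g x.1 x.2 * f (x.1 * x.2) := by
    symm
    apply sum_subset (filter_subset _ _)
    intro x hx hx'
    rw [mem_filter, not_and] at hx'
    have := hx' hx
    rw [hf _ (by omega), mul_zero]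
  rw [h1]
  have h2 : ∀ n ∈ Icc 1 N, (∑ x ∈ n.divisorsAntidiagonal, g x.1 x.2) * f n =
      ∑ x ∈ ((Icc 1 N ×ˢ Icc 1 N).filter (fun x => x.1 * x.2 ≤ N)).filter (fun x => x.1 * x.2 = n), g x.1 x.2 * f (x.1 * x.2) := by
    intro n hn
    rw [mem_Icc] at hn
    rw [sum_mul]
    apply sum_congr_of_eq_on_inter
    · intro x hx hx'
      exfalso
      apply hx'
      rw [Nat.mem_divisorsAntidiagonal] at hx
      rw [mem_filter, mem_filter, mem_product, mem_Icc, mem_Icc]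
      have h3 : x.1 ≠ 0 := by rintro h; rw [h] at hx; simp at hx; omega
      have h4 : x.2 ≠ 0 := by rintro h; rw [h] at hx; simp at hx; omega
      have h5 : x.1 ≤ n := by rw [← hx.1]; exact Nat.le_mul_of_pos_right _ (Nat.pos_of_ne_zero h4)
      have h6 : x.2 ≤ n := by rw [← hx.1]; exact Nat.le_mul_of_pos_left _ (Nat.pos_of_ne_zero h3)
      refine ⟨⟨⟨⟨by omega, by omega⟩, by omega, by omega⟩, by omega⟩, hx.1⟩
    · intro x hx hx'
      exfalso
      apply hx'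
      rw [mem_filter] at hx
      rw [Nat.mem_divisorsAntidiagonal]
      exact ⟨hx.2, by omega⟩
    · intro x hx _
      rw [Nat.mem_divisorsAntidiagonal] at hx
      rw [hx.1]
  rw [sum_congr rfl h2]
  rw [sum_fiberwise_of_maps_to]
  intro x hx
  rw [mem_filter, mem_product, mem_Icc, mem_Icc] at hx
  rw [mem_Icc]
  refine ⟨?_, hx.2⟩
  nlinarith [hx.1.1.1, hx.1.2.1]

end Pool.Agent.Helper25.AP
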