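import Pool.Agent.Helper25.AP.D1

/-!
# AP: decomposition of the primes, 2: the identity for numbers without small primes
-/

set_option autoImplicit false

open Finset
open scoped Classical

namespace Pool.Agent.Helper25.AP

/-- `1` if all primes of `n` are greater than `w`. -/
noncomputable def rho (w n : ℕ) : ℝ := if ∀ p, p.Prime → p ∣ n → w < p then 1 else 0

/-- squarefree with all primes at most `w`. -/
def Sm (w d : ℕ) : Prop := Squarefree d ∧ ∀ p, p.Prime → p ∣ d → p ≤ w

/-- `1` if `m` has no prime in `(q, w]`. -/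
noncomputable def nop (q w m : ℕ) : ℝ := if ∀ p, p.Prime → p ∣ m → q < p → w < p then 1 else 0

/-- least initial products greater than `D`, with largest prime `q`. -/
def XQ (w D q x : ℕ) : Prop := Sm w x ∧ q ∣ x ∧ (∀ p, p.Prime → p ∣ x → p ≤ q) ∧ D < x ∧ x / q ≤ D

/-- first coefficients. -/
noncomputable def md (w D d : ℕ) : ℝ := if Sm w d ∧ d ≤ D then (ArithmeticFunction.moebius d : ℝ) else 0

/-- second coefficients. -/
noncomputable def mx (w D q x : ℕ) : ℝ := if XQ w D q x then (ArithmeticFunction.moebius x : ℝ) else 0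

lemma abs_mu_le (n : ℕ) : |(ArithmeticFunction.moebius n : ℝ)| ≤ 1 := by
  have := ArithmeticFunction.abs_moebius_le_one (n := n)
  exact_mod_cast this

lemma abs_md_le (w D d : ℕ) : |md w D d| ≤ 1 := by
  unfold md
  split_ifs
  · exact abs_mu_le d
  · simp

lemma abs_mx_le (w D q x : ℕ) : |mx w D q x| ≤ 1 := by
  unfold mx
  split_ifs
  · exact abs_mu_le x
  · simp

lemma rho_nonneg (w n : ℕ) : 0 ≤ rho w n := by unfold rho; split_ifs <;> norm_num
lemma rho_le_one (w n : ℕ) : rho w n ≤ 1 := by unfold rho; split_ifs <;> norm_num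
lemma nop_nonneg (q w n : ℕ) : 0 ≤ nop q w n := by unfold nop; split_ifs <;> norm_num
lemma nop_le_one (q w n : ℕ) : nop q w n ≤ 1 := by unfold nop; split_ifs <;> norm_num

lemma mx_ne {w D q x : ℕ} (hw : q ≤ w) (h : mx w D q x ≠ 0) : Sm w x ∧ D < x ∧ x ≤ D * w := by
  unfold mx at h
  split_ifs at h with hx
  · refine ⟨hx.1, hx.2.2.2.1, ?_⟩
    have h1 := Nat.div_mul_cancel hx.2.1
    calc x = x / q * q := h1.symm
      _ ≤ D * w := Nat.mul_le_mul hx.2.2.2.2 hw
  · exact absurd rfl h

/-- the identity. -/
theorem rough_id {w D n : ℕ} (hn : n ≠ 0) (hD : 1 ≤ D) :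
    rho w n = ∑ x ∈ n.divisorsAntidiagonal, md w D x.1 +
      ∑ q ∈ (Icc 1 w).filter Nat.Prime, ∑ x ∈ n.divisorsAntidiagonal, mx w D q x.1 * nop q w x.2 := by
  by_cases hS : ∀ p, p.Prime → p ∣ n → w < p
  · have h1 : rho w n = 1 := by unfold rho; rw [if_pos hS]
    have h2 : ∑ q ∈ (Icc 1 w).filter Nat.Prime, ∑ x ∈ n.divisorsAntidiagonal, mx w D q x.1 * nop q w x.2 = 0 := by
      apply sum_eq_zero
      intro q hq
      rw [mem_filter, mem_Icc] at hq
      apply sum_eq_zero
      intro x hx
      rw [Nat.mem_divisorsAntidiagonal] at hx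
      unfold mx
      rw [if_neg, zero_mul]
      intro hX
      have h3 : q ∣ n := hX.2.1.trans ⟨x.2, hx.1.symm⟩
      have := hS q hq.2 h3
      omega
    have h3 : ∑ x ∈ n.divisorsAntidiagonal, md w D x.1 = 1 := by
      rw [sum_eq_single (1, n)]
      · unfold md
        rw [if_pos]
        · simp
        · refine ⟨⟨squarefree_one, ?_⟩, hD⟩
          intro p hp h
          have := hp.one_lt
          have := Nat.le_of_dvd one_pos h
          omega
      · intro x hx hx'
        rw [Nat.mem_divisorsAntidiagonal] at hx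
        unfold md
        rw [if_neg]
        intro hh
        apply hx'
        have h4 : x.1 = 1 := by
          by_contra h5
          obtain ⟨p, hp, hpx⟩ := Nat.exists_prime_and_dvd h5
          have h6 := hS p hp (hpx.trans ⟨x.2, hx.1.symm⟩)
          have h7 := hh.1.2 p hp hpx
          omega
        rw [h4, one_mul] at hx
        exact Prod.ext h4 hx.1
      · intro hh
        exfalso
        apply hh
        rw [Nat.mem_divisorsAntidiagonal]
        exact ⟨by simp, hn⟩
    rw [h1, h2, h3, add_zero]
  · have h1 : rho w n = 0 := by unfold rho; rw [if_neg hS]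
    set S := n.primeFactors.filter (fun p => p ≤ w) with hSd
    have hmem : ∀ p, p ∈ S ↔ p.Prime ∧ p ∣ n ∧ p ≤ w := by
      intro p
      rw [hSd, mem_filter, Nat.mem_primeFactors]
      tauto
    have hne : S.Nonempty := by
      push Not at hS
      obtain ⟨p, hp, h2, h3⟩ := hS
      exact ⟨p, (hmem p).mpr ⟨hp, h2, h3⟩⟩
    set M := S.max' hne with hM
    have hMS : M ∈ S := S.max'_mem hne
    have hMmax : ∀ p ∈ S, p ≤ M := fun p hp => S.le_max' p hp
    obtain ⟨hMp, hMn, hMw⟩ := (hmem M).mp hMS
    have h2 : ∑ q ∈ (Icc 1 w).filter Nat.Prime, ∑ x ∈ n.divisorsAntidiagonal, mx w D q x.1 * nop q w x.2 =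
        ∑ x ∈ n.divisorsAntidiagonal, mx w D M x.1 := by
      rw [sum_eq_single M]
      · refine sum_congr rfl fun x hx => ?_
        rw [Nat.mem_divisorsAntidiagonal] at hx
        have : nop M w x.2 = 1 := by
          unfold nop
          rw [if_pos]
          intro p hp hpx hMlt
          by_contra h3
          have := hMmax p ((hmem p).mpr ⟨hp, hpx.trans ⟨x.1, by rw [mul_comm]; exact hx.1.symm⟩, by omega⟩)
          omega
        rw [this, mul_one]
      · intro q hq hqM
        rw [mem_filter, mem_Icc] at hq
        apply sum_eq_zero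
        intro x hx
        rw [Nat.mem_divisorsAntidiagonal] at hx
        unfold mx
        split_ifs with hX
        · have h3 : q ∣ n := hX.2.1.trans ⟨x.2, hx.1.symm⟩
          have h4 := hMmax q ((hmem q).mpr ⟨hq.2, h3, by omega⟩)
          have h5 : q < M := lt_of_le_of_ne h4 hqM
          have h6 : M ∣ x.2 := by
            rw [← hx.1] at hMn
            rcases (Nat.Prime.dvd_mul hMp).mp hMn with h | h
            · have := hX.2.2.1 M hMp h
              omega
            · exact h
          have : nop q w x.2 = 0 := by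
            unfold nop
            rw [if_neg]
            intro hh
            have := hh M hMp h6 h5
            omega
          rw [this, mul_zero]
        · rw [zero_mul]
      · intro hh
        exfalso
        apply hh
        rw [mem_filter, mem_Icc]
        exact ⟨⟨hMp.one_lt.le, hMw⟩, hMp⟩
    rw [h1, h2, ← sum_add_distrib, Nat.sum_divisorsAntidiagonal (f := fun d _ => md w D d + mx w D M d)]
    symm
    -- involution on the divisors
    have hM0 : 0 < M := hMp.pos
    have key : ∀ d ∈ n.divisors, md w D d + mx w D M d =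
        if Sm w d ∧ (d ≤ D ∨ (M ∣ d ∧ d / M ≤ D)) then (ArithmeticFunction.moebius d : ℝ) else 0 := by
      intro d hd
      rw [Nat.mem_divisors] at hd
      unfold md mx XQ
      by_cases hs : Sm w d
      · have hall : ∀ p, p.Prime → p ∣ d → p ≤ M := fun p hp hpd =>
          hMmax p ((hmem p).mpr ⟨hp, hpd.trans hd.1, hs.2 p hp hpd⟩)
        by_cases h3 : d ≤ D
        · have h4 : ¬ D < d := by omega
          simp [hs, h3, h4]
        · have h4 : D < d := by omega
          by_cases h5 : M ∣ d ∧ d / M ≤ D
          · rw [if_neg (by tauto), if_pos (by tauto), if_pos (by tauto), zero_add]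
          · rw [if_neg (by tauto), if_neg (by tauto), if_neg (by tauto), zero_add]
      · simp [hs]
    rw [sum_congr rfl key]
    have hgmem : ∀ d ∈ n.divisors, Sm w d → (if M ∣ d then d / M else M * d) ∈ n.divisors := by
      intro d hd hs
      rw [Nat.mem_divisors] at hd ⊢
      refine ⟨?_, hn⟩
      split_ifs with h
      · exact (Nat.div_dvd_of_dvd h).trans hd.1
      · exact Nat.Coprime.mul_dvd_of_dvd_of_dvd ((Nat.Prime.coprime_iff_not_dvd hMp).mpr h) hMn hd.1
    have hsm : ∀ d ∈ n.divisors, Sm w d → Sm w (if M ∣ d then d / M else M * d) := by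
      intro d hd hs
      rw [Nat.mem_divisors] at hd
      split_ifs with h
      · exact ⟨hs.1.squarefree_of_dvd (Nat.div_dvd_of_dvd h), fun p hp hpd => hs.2 p hp (hpd.trans (Nat.div_dvd_of_dvd h))⟩
      · refine ⟨(Nat.squarefree_mul ((Nat.Prime.coprime_iff_not_dvd hMp).mpr h)).mpr ⟨hMp.squarefree, hs.1⟩, ?_⟩
        intro p hp hpd
        rcases (Nat.Prime.dvd_mul hp).mp hpd with h3 | h3
        · rw [(Nat.prime_dvd_prime_iff_eq hp hMp).mp h3]; exact hMw
        · exact hs.2 p hp h3
    rw [← sum_filter]
    apply sum_involution (fun d _ => if M ∣ d then d / M else M * d)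
    · intro d hd
      rw [mem_filter] at hd
      obtain ⟨hd, hs, hc⟩ := hd
      split_ifs with h
      · obtain ⟨e, rfl⟩ := h
        rw [Nat.mul_div_cancel_left e hM0]
        have hcop : M.Coprime e := by
          rw [Nat.Prime.coprime_iff_not_dvd hMp]
          rintro ⟨e', rfl⟩
          have := hs.1 M ⟨e', by ring⟩
          exact hMp.one_lt.ne' (Nat.isUnit_iff.mp this)
        rw [ArithmeticFunction.isMultiplicative_moebius.map_mul_of_coprime hcop,
          ArithmeticFunction.moebius_apply_prime hMp]
        push_cast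
        ring
      · have hcop : M.Coprime d := (Nat.Prime.coprime_iff_not_dvd hMp).mpr h
        rw [ArithmeticFunction.isMultiplicative_moebius.map_mul_of_coprime hcop,
          ArithmeticFunction.moebius_apply_prime hMp]
        push_cast
        ring
    · intro d hd _ heq
      rw [mem_filter, Nat.mem_divisors] at hd
      have hd0 : 0 < d := Nat.pos_of_dvd_of_pos hd.1.1 (Nat.pos_of_ne_zero hn)
      have hM1 := hMp.one_lt
      split_ifs at heq with h
      · have := Nat.div_lt_self hd0 hM1
        omega
      · nlinarith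
    · intro d hd
      rw [mem_filter] at hd ⊢
      obtain ⟨hd, hs, hc⟩ := hd
      refine ⟨hgmem d hd hs, hsm d hd hs, ?_⟩
      by_cases h : M ∣ d
      · rw [if_pos h]
        left
        rcases hc with hc | hc
        · exact (Nat.div_le_self _ _).trans hc
        · exact hc.2
      · rw [if_neg h]
        right
        refine ⟨dvd_mul_right _ _, ?_⟩
        rw [Nat.mul_div_cancel_left d hM0]
        rcases hc with hc | hc
        · exact hc
        · exact absurd hc.1 h
    · intro d hd
      rw [mem_filter, Nat.mem_divisors] at hd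
      obtain ⟨hd, hs, hc⟩ := hd
      by_cases h : M ∣ d
      · obtain ⟨e, rfl⟩ := h
        have hnd : ¬ M ∣ e := by
          rintro ⟨e', rfl⟩
          have := hs.1 M ⟨e', by ring⟩
          exact hMp.one_lt.ne' (Nat.isUnit_iff.mp this)
        simp only [dvd_mul_right, if_true, Nat.mul_div_cancel_left e hM0]
        rw [if_neg hnd]
      · simp only [h, if_false, dvd_mul_right, if_true, Nat.mul_div_cancel_left d hM0]

end Pool.Agent.Helper25.AP
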