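import Pool.Agent.Helper25.AP.D2

/-!
# AP: decomposition of the primes, 3: sums over rough numbers, trilinear sums
-/

set_option autoImplicit false

open Finset
open scoped Classical

namespace Pool.Agent.Helper25.AP

/-- number of divisors is at most `Dd` up to `N`. -/
def DB (N : ℕ) (Dd : ℝ) : Prop := ∀ n ∈ Icc 1 N, ((n.divisors.card : ℕ) : ℝ) ≤ Dd

lemma DB.one_le {N : ℕ} {Dd : ℝ} (h : DB N Dd) (hN : 1 ≤ N) : 1 ≤ Dd := by
  have := h 1 (by rw [mem_Icc]; omega)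
  simpa using this

/-- size of a convolution. -/
lemma abs_conv_le {N : ℕ} {Dd : ℝ} (h : DB N Dd) {u v : ℕ → ℝ} {A : ℝ} (hA : 0 ≤ A)
    (hu : ∀ n, |u n| ≤ 1) (hv : ∀ n, |v n| ≤ A) {n : ℕ} (hn : n ∈ Icc 1 N) :
    |∑ x ∈ n.divisorsAntidiagonal, u x.1 * v x.2| ≤ Dd * A := by
  refine (abs_sum_le_sum_abs _ _).trans ?_
  have h1 : ∀ x ∈ n.divisorsAntidiagonal, |u x.1 * v x.2| ≤ A := by
    intro x _
    rw [abs_mul]
    calc |u x.1| * |v x.2| ≤ 1 * A := mul_le_mul (hu _) (hv _) (abs_nonneg _) zero_le_one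
      _ = A := one_mul A
  refine (sum_le_sum h1).trans ?_
  rw [sum_const, nsmul_eq_mul]
  have h2 : n.divisorsAntidiagonal.card = n.divisors.card := by
    rw [← Nat.map_div_right_divisors]
    simp
  rw [h2]
  exact mul_le_mul_of_nonneg_right (h n hn) hA

/-- convolution in the last two variables. -/
lemma conv' {f : ℕ → ℝ} {N : ℕ} (hf : ∀ n, N < n → f n = 0) {l : ℕ} (hl : 1 ≤ l) (g : ℕ → ℕ → ℝ) :
    ∑ m ∈ Icc 1 N, ∑ a ∈ Icc 1 N, g m a * f (l * m * a) =
      ∑ n ∈ Icc 1 N, (∑ x ∈ n.divisorsAntidiagonal, g x.1 x.2) * f (l * n) := by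
  have h := conv (f := fun n => f (l * n)) (N := N) (by
    intro n hn
    apply hf
    nlinarith) g
  rw [← h]
  refine sum_congr rfl fun m _ => sum_congr rfl fun a _ => ?_
  rw [mul_assoc]

/-- associativity of the convolution. -/
lemma assoc3 (f g h : ℕ → ℝ) (n : ℕ) :
    ∑ x ∈ n.divisorsAntidiagonal, f x.1 * ∑ y ∈ x.2.divisorsAntidiagonal, g y.1 * h y.2 =
      ∑ x ∈ n.divisorsAntidiagonal, (∑ y ∈ x.1.divisorsAntidiagonal, f y.1 * g y.2) * h x.2 := by
  let F : ArithmeticFunction ℝ := ⟨fun n => if n = 0 then 0 else f n, by simp⟩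
  let G : ArithmeticFunction ℝ := ⟨fun n => if n = 0 then 0 else g n, by simp⟩
  let H : ArithmeticFunction ℝ := ⟨fun n => if n = 0 then 0 else h n, by simp⟩
  have hx : ∀ m : ℕ, ∀ x ∈ m.divisorsAntidiagonal, x.1 ≠ 0 ∧ x.2 ≠ 0 := by
    intro m x hx
    rw [Nat.mem_divisorsAntidiagonal] at hx
    constructor
    · rintro h
      rw [h, zero_mul] at hx
      exact hx.2 hx.1.symm
    · rintro h
      rw [h, mul_zero] at hx
      exact hx.2 hx.1.symm
  have hF : ∀ n, n ≠ 0 → F n = f n := fun n hn => by simp [F, hn]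
  have hG : ∀ n, n ≠ 0 → G n = g n := fun n hn => by simp [G, hn]
  have hH : ∀ n, n ≠ 0 → H n = h n := fun n hn => by simp [H, hn]
  have e := congrArg (fun K : ArithmeticFunction ℝ => K n) (mul_assoc F G H)
  simp only [ArithmeticFunction.mul_apply] at e
  have e1 : ∑ x ∈ n.divisorsAntidiagonal, F x.1 * ∑ y ∈ x.2.divisorsAntidiagonal, G y.1 * H y.2 =
      ∑ x ∈ n.divisorsAntidiagonal, f x.1 * ∑ y ∈ x.2.divisorsAntidiagonal, g y.1 * h y.2 := by
    refine sum_congr rfl fun x hx1 => ?_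
    rw [hF _ (hx n x hx1).1]
    congr 1
    refine sum_congr rfl fun y hy => ?_
    rw [hG _ (hx _ y hy).1, hH _ (hx _ y hy).2]
  have e2 : ∑ x ∈ n.divisorsAntidiagonal, (∑ y ∈ x.1.divisorsAntidiagonal, F y.1 * G y.2) * H x.2 =
      ∑ x ∈ n.divisorsAntidiagonal, (∑ y ∈ x.1.divisorsAntidiagonal, f y.1 * g y.2) * h x.2 := by
    refine sum_congr rfl fun x hx1 => ?_
    rw [hH _ (hx n x hx1).2]
    congr 1
    refine sum_congr rfl fun y hy => ?_
    rw [hF _ (hx _ y hy).1, hG _ (hx _ y hy).2]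
  rw [← e1, ← e2, e]

lemma card_anti (n : ℕ) : n.divisorsAntidiagonal.card = n.divisors.card := by
  rw [← Nat.map_div_right_divisors]
  simp

/-- trilinear sums. -/
theorem tri_scale {P : ℕ → Prop} {f : ℕ → ℝ} {N : ℕ} {B B' : ℝ} (h : Hyp P f N B B') (hf : ∀ n, N < n → f n = 0)
    {Dd : ℝ} (hD : DB N Dd) {ι : Type} (Q : Finset ι) {β u : ι → ℕ → ℝ} {v : ℕ → ℝ} {A A1 : ℝ} (hA : 0 < A)
    (hβ : ∀ q l, |β q l| ≤ 1) (hP : ∀ q ∈ Q, ∀ l, β q l ≠ 0 → P l) (hu : ∀ q n, |u q n| ≤ 1) (hv : ∀ n, |v n| ≤ A)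
    (hN : 1 ≤ N)
    (hQ : ∀ b ∈ Icc 1 N, ∑ q ∈ Q, ∑ x ∈ b.divisorsAntidiagonal, |β q x.1| * |u q x.2| ≤ A1) :
    |∑ q ∈ Q, ∑ l ∈ Icc 1 N, ∑ m ∈ Icc 1 N, ∑ a ∈ Icc 1 N, β q l * (u q m * v a) * f (l * m * a)| ≤
      (Q.card : ℝ) * (Dd * A * B) + Dd * (A * A1) * B' := by
  have h1 : ∑ q ∈ Q, ∑ l ∈ Icc 1 N, ∑ m ∈ Icc 1 N, ∑ a ∈ Icc 1 N, β q l * (u q m * v a) * f (l * m * a) =
      ∑ q ∈ Q, ∑ l ∈ Icc 1 N, ∑ n ∈ Icc 1 N, β q l * (∑ x ∈ n.divisorsAntidiagonal, u q x.1 * v x.2) * f (l * n) := by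
    refine sum_congr rfl fun q _ => sum_congr rfl fun l hl => ?_
    rw [mem_Icc] at hl
    rw [conv' hf hl.1 (fun m a => β q l * (u q m * v a))]
    refine sum_congr rfl fun n _ => ?_
    rw [← mul_sum]
  rw [h1]
  have hD1 := hD.one_le hN
  have hA1 : 0 ≤ A1 := by
    refine le_trans ?_ (hQ 1 (by rw [mem_Icc]; omega))
    exact sum_nonneg fun _ _ => sum_nonneg fun _ _ => by positivity
  apply h.scale Q (by positivity) hβ hP
  · intro q m hm
    exact abs_conv_le hD hA.le (hu q) hv hm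
  · intro n hn
    have e1 : ∀ q ∈ Q, ∑ x ∈ n.divisorsAntidiagonal, |β q x.1| * |∑ y ∈ x.2.divisorsAntidiagonal, u q y.1 * v y.2| ≤
        ∑ x ∈ n.divisorsAntidiagonal, (∑ y ∈ x.1.divisorsAntidiagonal, |β q y.1| * |u q y.2|) * |v x.2| := by
      intro q _
      rw [← assoc3 (fun l => |β q l|) (fun m => |u q m|) (fun a => |v a|) n]
      refine sum_le_sum fun x _ => ?_
      apply mul_le_mul_of_nonneg_left _ (abs_nonneg _)
      refine (abs_sum_le_sum_abs _ _).trans (sum_le_sum fun y _ => ?_)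
      rw [abs_mul]
    refine (sum_le_sum e1).trans ?_
    rw [sum_comm]
    have e2 : ∀ x ∈ n.divisorsAntidiagonal,
        ∑ q ∈ Q, (∑ y ∈ x.1.divisorsAntidiagonal, |β q y.1| * |u q y.2|) * |v x.2| ≤ A * A1 := by
      intro x hx
      have hx1 : x.1 ∈ Icc 1 N := by
        rw [Nat.mem_divisorsAntidiagonal] at hx
        rw [mem_Icc] at hn ⊢
        have h3 : x.1 ≠ 0 := by rintro h; rw [h] at hx; simp at hx; omega
        have h4 : x.2 ≠ 0 := by rintro h; rw [h] at hx; simp at hx; omega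
        have h6 : x.1 ≤ n := by rw [← hx.1]; exact Nat.le_mul_of_pos_right _ (Nat.pos_of_ne_zero h4)
        omega
      rw [← sum_mul, mul_comm A]
      exact mul_le_mul (hQ x.1 hx1) (hv x.2) (abs_nonneg _) hA1
    refine (sum_le_sum e2).trans ?_
    rw [sum_const, nsmul_eq_mul, card_anti]
    exact mul_le_mul_of_nonneg_right (hD n hn) (by positivity)

/-- the sum over rough numbers, with an outer variable. -/
theorem sum_rho {f : ℕ → ℝ} {N : ℕ} (hf : ∀ n, N < n → f n = 0) {w D : ℕ} (hD : 1 ≤ D) {b : ℕ} (hb : 1 ≤ b) :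
    ∑ n ∈ Icc 1 N, rho w n * f (n * b) = ∑ d ∈ Icc 1 N, ∑ m ∈ Icc 1 N, md w D d * f (d * m * b) +
      ∑ q ∈ (Icc 1 w).filter Nat.Prime, ∑ x ∈ Icc 1 N, ∑ m ∈ Icc 1 N, mx w D q x * nop q w m * f (x * m * b) := by
  have hf' : ∀ n, N < n → (fun n => f (n * b)) n = 0 := by
    intro n hn
    apply hf
    nlinarith
  have h1 := conv hf' (fun d _ => md w D d)
  have h2 : ∀ q, ∑ x ∈ Icc 1 N, ∑ m ∈ Icc 1 N, mx w D q x * nop q w m * f (x * m * b) =
      ∑ n ∈ Icc 1 N, (∑ x ∈ n.divisorsAntidiagonal, mx w D q x.1 * nop q w x.2) * f (n * b) :=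
    fun q => conv hf' (fun x m => mx w D q x * nop q w m)
  rw [h1, sum_congr rfl (fun q _ => h2 q), sum_comm, ← sum_add_distrib]
  refine sum_congr rfl fun n hn => ?_
  rw [mem_Icc] at hn
  rw [rough_id (w := w) (D := D) (n := n) (by omega) hD, add_mul]
  congr 1
  rw [sum_mul]

/-- number of large squares dividing `n`. -/
def sq (w n : ℕ) : ℕ := ((Ioc w n).filter (fun l => l ^ 2 ∣ n)).card

lemma sq_mono {w a n : ℕ} (h : a ∣ n) (hn : n ≠ 0) : sq w a ≤ sq w n := by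
  unfold sq
  apply card_le_card
  intro l hl
  rw [mem_filter, mem_Ioc] at hl ⊢
  exact ⟨⟨hl.1.1, hl.1.2.trans (Nat.le_of_dvd (Nat.pos_of_ne_zero hn) h)⟩, hl.2.trans h⟩

lemma sum_sq {w N : ℕ} (hw : 1 ≤ w) : ∑ n ∈ Icc 1 N, (sq w n : ℝ) ≤ N / w := by
  have h1 : ∀ n ∈ Icc 1 N, (sq w n : ℝ) = ∑ l ∈ Ioc w N, if l ^ 2 ∣ n then (1 : ℝ) else 0 := by
    intro n hn
    rw [mem_Icc] at hn
    unfold sq
    rw [card_eq_sum_ones, Nat.cast_sum, sum_filter]
    push_cast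
    apply sum_subset
    · intro l hl
      rw [mem_Ioc] at hl ⊢
      omega
    · intro l hl hl'
      rw [mem_Ioc] at hl
      rw [mem_Ioc] at hl'
      rw [if_neg]
      intro h
      have h2 := Nat.le_of_dvd (by omega) h
      have h3 : l ≤ l ^ 2 := Nat.le_self_pow (by norm_num) l
      omega
  rw [sum_congr rfl h1, sum_comm]
  have h2 : ∀ l ∈ Ioc w N, ∑ n ∈ Icc 1 N, (if l ^ 2 ∣ n then (1 : ℝ) else 0) ≤ N * ((l : ℝ) ^ 2)⁻¹ := by
    intro l hl
    rw [mem_Ioc] at hl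
    have hl0 : 0 < l := by omega
    rw [← sum_filter, sum_const, nsmul_eq_mul, mul_one]
    have h3 : ((Icc 1 N).filter (fun n => l ^ 2 ∣ n)).card = N / l ^ 2 := by
      have h4 := Nat.Ioc_filter_dvd_card_eq_div N (l ^ 2)
      rw [← h4]
      congr 1
    rw [h3, ← div_eq_mul_inv]
    have := @Nat.cast_div_le ℝ _ _ _ N (l ^ 2)
    push_cast at this
    exact this
  refine (sum_le_sum h2).trans ?_
  rw [← mul_sum]
  by_cases hwN : w ≤ N
  · have h3 := sum_Ioc_inv_sq_le_sub (α := ℝ) (k := w) (n := N) (by omega) hwN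
    have h4 : (0 : ℝ) ≤ (N : ℝ)⁻¹ := by positivity
    rw [div_eq_mul_inv]
    apply mul_le_mul_of_nonneg_left _ (by positivity)
    linarith
  · rw [Ioc_eq_empty (by omega), sum_empty, mul_zero]
    positivity

/-- pairs with a large square. -/
lemma sum_pair_sq {f : ℕ → ℝ} {N : ℕ} (hf : ∀ n, N < n → f n = 0) {F : ℝ} (hF : ∀ n, |f n| ≤ F)
    {Dd : ℝ} (hD : DB N Dd) {w : ℕ} (hw : 1 ≤ w) :
    ∑ a ∈ Icc 1 N, ∑ b ∈ Icc 1 N, (sq w a : ℝ) * |f (a * b)| ≤ F * Dd * (N / w) := by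
  have hF0 : 0 ≤ F := (abs_nonneg _).trans (hF 0)
  have h1 := conv (f := fun n => |f n|) (N := N) (by
    intro n hn
    simp [hf n hn]) (fun a _ => (sq w a : ℝ))
  rw [h1]
  have h2 : ∀ n ∈ Icc 1 N, (∑ x ∈ n.divisorsAntidiagonal, (sq w x.1 : ℝ)) * |f n| ≤ F * Dd * (sq w n : ℝ) := by
    intro n hn
    have h3 : ∀ x ∈ n.divisorsAntidiagonal, (sq w x.1 : ℝ) ≤ (sq w n : ℝ) := by
      intro x hx
      rw [Nat.mem_divisorsAntidiagonal] at hx
      exact_mod_cast sq_mono ⟨x.2, hx.1.symm⟩ hx.2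
    have h4 : ∑ x ∈ n.divisorsAntidiagonal, (sq w x.1 : ℝ) ≤ Dd * (sq w n : ℝ) := by
      refine (sum_le_sum h3).trans ?_
      rw [sum_const, nsmul_eq_mul]
      have h5 : n.divisorsAntidiagonal.card = n.divisors.card := by
        rw [← Nat.map_div_right_divisors]
        simp
      rw [h5]
      exact mul_le_mul_of_nonneg_right (hD n hn) (Nat.cast_nonneg _)
    have h6 : (0 : ℝ) ≤ ∑ x ∈ n.divisorsAntidiagonal, (sq w x.1 : ℝ) := sum_nonneg fun _ _ => Nat.cast_nonneg _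
    calc (∑ x ∈ n.divisorsAntidiagonal, (sq w x.1 : ℝ)) * |f n| ≤ (Dd * (sq w n : ℝ)) * F :=
          mul_le_mul h4 (hF n) (abs_nonneg _) (h6.trans h4)
      _ = F * Dd * (sq w n : ℝ) := by ring
  refine (sum_le_sum h2).trans ?_
  rw [← mul_sum]
  by_cases hN : 1 ≤ N
  · have hD1 := hD.one_le hN
    exact mul_le_mul_of_nonneg_left (sum_sq hw) (by positivity)
  · have : N = 0 := by omega
    subst this
    simp

/-- primes in `(w, z]` dividing `n`. -/
noncomputable def Pz (w z n : ℕ) : Finset ℕ := (Ioc w z).filter (fun l => l.Prime ∧ l ∣ n)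

/-- their number. -/
noncomputable def om (w z n : ℕ) : ℕ := (Pz w z n).card

/-- `rho` if there is a prime in `(w, z]`. -/
noncomputable def cc (w z n : ℕ) : ℝ := if om w z n = 0 then 0 else rho w n

/-- first coefficient. -/
noncomputable def pz (w z l : ℕ) : ℝ := if l.Prime ∧ w < l ∧ l ≤ z then 1 else 0

/-- second coefficient. -/
noncomputable def al (w z m : ℕ) : ℝ := rho w m / (1 + om w z m)

lemma al_nonneg (w z m : ℕ) : 0 ≤ al w z m := div_nonneg (rho_nonneg w m) (by positivity)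

lemma al_le_one (w z m : ℕ) : al w z m ≤ 1 := by
  unfold al
  rw [div_le_one (by positivity)]
  have := rho_le_one w m
  have : (0 : ℝ) ≤ om w z m := Nat.cast_nonneg _
  linarith

lemma abs_al_le (w z m : ℕ) : |al w z m| ≤ 1 := by
  rw [abs_of_nonneg (al_nonneg w z m)]
  exact al_le_one w z m

lemma abs_pz_le (w z l : ℕ) : |pz w z l| ≤ 1 := by
  unfold pz
  split_ifs <;> simp

lemma abs_rho_le (w n : ℕ) : |rho w n| ≤ 1 := by
  rw [abs_of_nonneg (rho_nonneg w n)]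
  exact rho_le_one w n

lemma abs_nop_le (q w n : ℕ) : |nop q w n| ≤ 1 := by
  rw [abs_of_nonneg (nop_nonneg q w n)]
  exact nop_le_one q w n

lemma rho_mul {w l m : ℕ} (hl : l.Prime) (hw : w < l) : rho w (l * m) = rho w m := by
  unfold rho
  by_cases h : ∀ p, p.Prime → p ∣ m → w < p
  · rw [if_pos h, if_pos]
    intro p hp hpd
    rcases (Nat.Prime.dvd_mul hp).mp hpd with h1 | h1
    · rw [(Nat.prime_dvd_prime_iff_eq hp hl).mp h1]; exact hw
    · exact h p hp h1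
  · rw [if_neg h, if_neg]
    intro h2
    exact h fun p hp hpd => h2 p hp (hpd.mul_left l)

lemma om_mul {w z l m : ℕ} (hl : l.Prime) (hw : w < l) (hz : l ≤ z) (h : ¬ l ∣ m) :
    om w z (l * m) = 1 + om w z m := by
  unfold om
  have h1 : Pz w z (l * m) = insert l (Pz w z m) := by
    ext p
    unfold Pz
    rw [mem_insert, mem_filter, mem_filter, mem_Ioc]
    constructor
    · rintro ⟨h1, hp, hpd⟩
      rcases (Nat.Prime.dvd_mul hp).mp hpd with h2 | h2
      · left; exact (Nat.prime_dvd_prime_iff_eq hp hl).mp h2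
      · right; exact ⟨h1, hp, h2⟩
    · rintro (rfl | ⟨h1, hp, hpd⟩)
      · exact ⟨⟨hw, hz⟩, hl, dvd_mul_right _ _⟩
      · exact ⟨h1, hp, hpd.mul_left l⟩
  rw [h1, card_insert_of_notMem, add_comm]
  unfold Pz
  rw [mem_filter]
  tauto

/-- the numbers with a prime in `(w, z]` as a convolution, up to square factors. -/
theorem cc_conv {w z n : ℕ} (hn : n ≠ 0) :
    |cc w z n - ∑ x ∈ n.divisorsAntidiagonal, pz w z x.1 * al w z x.2| ≤ (sq w n : ℝ) := by
  have h1 : ∑ x ∈ n.divisorsAntidiagonal, pz w z x.1 * al w z x.2 = ∑ l ∈ Pz w z n, al w z (n / l) := by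
    rw [Nat.sum_divisorsAntidiagonal (f := fun l m => pz w z l * al w z m)]
    symm
    apply sum_subset_zero_on_sdiff
    · intro l hl
      unfold Pz at hl
      rw [mem_filter] at hl
      rw [Nat.mem_divisors]
      exact ⟨hl.2.2, hn⟩
    · intro l hl
      rw [mem_sdiff, Nat.mem_divisors] at hl
      unfold pz
      rw [if_neg, zero_mul]
      intro h
      apply hl.2
      unfold Pz
      rw [mem_filter, mem_Ioc]
      exact ⟨h.2, h.1, hl.1.1⟩
    · intro l hl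
      unfold Pz at hl
      rw [mem_filter, mem_Ioc] at hl
      unfold pz
      rw [if_pos ⟨hl.2.1, hl.1⟩, one_mul]
  have h2 : cc w z n = ∑ l ∈ Pz w z n, rho w n / (om w z n : ℝ) := by
    rw [sum_const, nsmul_eq_mul]
    unfold cc
    change _ = (om w z n : ℝ) * _
    split_ifs with h
    · rw [h]; simp
    · have : (om w z n : ℝ) ≠ 0 := by exact_mod_cast h
      field_simp
  rw [h1, h2, ← sum_sub_distrib]
  refine (abs_sum_le_sum_abs _ _).trans ?_
  have h3 : ∀ l ∈ Pz w z n, |rho w n / (om w z n : ℝ) - al w z (n / l)| ≤ if l ^ 2 ∣ n then (1 : ℝ) else 0 := by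
    intro l hl
    have hcard : 1 ≤ om w z n := by
      unfold om
      exact card_pos.mpr ⟨l, hl⟩
    unfold Pz at hl
    rw [mem_filter, mem_Ioc] at hl
    obtain ⟨m, rfl⟩ := hl.2.2
    rw [Nat.mul_div_cancel_left m hl.2.1.pos]
    split_ifs with h
    · have h4 : 0 ≤ rho w (l * m) / (om w z (l * m) : ℝ) := div_nonneg (rho_nonneg _ _) (Nat.cast_nonneg _)
      have h5 : rho w (l * m) / (om w z (l * m) : ℝ) ≤ 1 := by
        have h6 : (1 : ℝ) ≤ om w z (l * m) := by exact_mod_cast hcard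
        rw [div_le_one (by linarith)]
        exact (rho_le_one _ _).trans h6
      rw [abs_le]
      constructor <;> linarith [al_nonneg w z m, al_le_one w z m]
    · have h4 : ¬ l ∣ m := by
        rintro ⟨m', rfl⟩
        exact h ⟨m', by ring⟩
      rw [om_mul hl.2.1 hl.1.1 hl.1.2 h4, rho_mul hl.2.1 hl.1.1]
      unfold al
      push_cast
      simp
  refine (sum_le_sum h3).trans ?_
  rw [← sum_filter, sum_const, nsmul_eq_mul, mul_one]
  unfold sq
  gcongr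
  intro l hl
  unfold Pz at hl
  rw [mem_filter, mem_Ioc] at hl
  exact mem_Ioc.mpr ⟨hl.1.1, Nat.le_of_dvd (Nat.pos_of_ne_zero hn) hl.2.2⟩

end Pool.Agent.Helper25.AP
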