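import Pool.Agent.Helper25.AP.D3

/-!
# AP: decomposition of the primes, 4: trilinear sums with a condition on a product
-/

set_option autoImplicit false

open Finset
open scoped Classical

namespace Pool.Agent.Helper25.AP

/-- `1` if `y1 < b < y2`. -/
noncomputable def win (y1 y2 : ℝ) (b : ℝ) : ℝ := if y1 < b ∧ b < y2 then 1 else 0

lemma win_nonneg (y1 y2 b : ℝ) : 0 ≤ win y1 y2 b := by unfold win; split_ifs <;> norm_num
lemma win_le_one (y1 y2 b : ℝ) : win y1 y2 b ≤ 1 := by unfold win; split_ifs <;> norm_num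

/-- class of `l`. -/
noncomputable def cls (K l : ℕ) : ℕ := ⌊(K : ℝ) * Real.log l⌋₊

lemma cls_le {K l : ℕ} (hK : 1 ≤ K) (hl : 1 ≤ l) : Real.exp ((cls K l : ℝ) / K) ≤ l := by
  have hK' : (0 : ℝ) < K := by exact_mod_cast hK
  have hl' : (0 : ℝ) < l := by exact_mod_cast hl
  have h1 : (cls K l : ℝ) ≤ (K : ℝ) * Real.log l := by
    unfold cls
    apply Nat.floor_le
    have : 0 ≤ Real.log l := Real.log_nonneg (by exact_mod_cast hl)
    positivity
  rw [← Real.le_log_iff_exp_le hl', div_le_iff₀ hK']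
  linarith

lemma lt_cls {K l : ℕ} (hK : 1 ≤ K) (hl : 1 ≤ l) :
    (l : ℝ) < Real.exp ((cls K l : ℝ) / K) * Real.exp (1 / K) := by
  have hK' : (0 : ℝ) < K := by exact_mod_cast hK
  have hl' : (0 : ℝ) < l := by exact_mod_cast hl
  have h1 : (K : ℝ) * Real.log l < (cls K l : ℝ) + 1 := by
    unfold cls
    exact Nat.lt_floor_add_one _
  rw [← Real.exp_add, ← Real.log_lt_iff_lt_exp hl', ← add_div, lt_div_iff₀ hK']
  linarith

/-- the error of the classes. -/
lemma win_sub_le {K l m : ℕ} (hK : 1 ≤ K) (hl : 1 ≤ l) {y1 y2 : ℝ} :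
    |win y1 y2 ((l : ℝ) * m) - win y1 y2 (Real.exp ((cls K l : ℝ) / K) * m)| ≤
      (if y1 ≤ (l : ℝ) * m ∧ (l : ℝ) * m ≤ y1 * Real.exp (1 / K) then 1 else 0) +
      (if y2 ≤ (l : ℝ) * m ∧ (l : ℝ) * m ≤ y2 * Real.exp (1 / K) then 1 else 0) := by
  have h1 := cls_le hK hl
  have h2 := lt_cls hK hl
  set L := Real.exp ((cls K l : ℝ) / K) with hL
  set E := Real.exp (1 / (K : ℝ)) with hE
  have hE0 : 0 < E := Real.exp_pos _
  have hm : (0 : ℝ) ≤ m := Nat.cast_nonneg m
  have h3 : L * m ≤ l * m := mul_le_mul_of_nonneg_right h1 hm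
  have h4 : (l : ℝ) * m ≤ L * m * E := by nlinarith
  unfold win
  by_cases a1 : y1 < (l : ℝ) * m
  · by_cases a2 : y1 < L * m
    · by_cases b1 : (l : ℝ) * m < y2
      · have b2 : L * m < y2 := by linarith
        rw [if_pos ⟨a1, b1⟩, if_pos ⟨a2, b2⟩, sub_self, abs_zero]
        positivity
      · by_cases b2 : L * m < y2
        · rw [if_neg (by tauto), if_pos ⟨a2, b2⟩]
          have c1 : y2 ≤ (l : ℝ) * m ∧ (l : ℝ) * m ≤ y2 * E := by
            refine ⟨by linarith, h4.trans ?_⟩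
            exact mul_le_mul_of_nonneg_right b2.le hE0.le
          rw [if_pos c1]
          norm_num
          positivity
        · rw [if_neg (by tauto), if_neg (by tauto), sub_self, abs_zero]
          positivity
    · have c1 : y1 ≤ (l : ℝ) * m ∧ (l : ℝ) * m ≤ y1 * E := by
        refine ⟨a1.le, h4.trans ?_⟩
        exact mul_le_mul_of_nonneg_right (not_lt.mp a2) hE0.le
      rw [if_pos c1, if_neg (c := y1 < L * m ∧ L * m < y2) (by tauto), sub_zero]
      split_ifs <;> norm_num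
  · have a2 : ¬ y1 < L * m := by
      intro h
      linarith
    rw [if_neg (by tauto), if_neg (by tauto), sub_self, abs_zero]
    positivity

/-- numbers near `y`. -/
lemma near_sum {N K : ℕ} (hK : 1 ≤ K) {y : ℝ} (hy : (K : ℝ) ≤ y ∨ y ≤ 0) :
    ∑ b ∈ Icc 1 N, (if y ≤ (b : ℝ) ∧ (b : ℝ) ≤ y * Real.exp (1 / K) then (1 : ℝ) / b else 0) ≤ 3 / K := by
  have hK' : (1 : ℝ) ≤ K := by exact_mod_cast hK
  rcases hy with hy | hy
  · have hy0 : 0 < y := by linarith
    have h1 : ∀ b ∈ Icc 1 N, (if y ≤ (b : ℝ) ∧ (b : ℝ) ≤ y * Real.exp (1 / K) then (1 : ℝ) / b else 0) ≤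
        (if y ≤ (b : ℝ) ∧ (b : ℝ) ≤ y * Real.exp (1 / K) then 1 / y else 0) := by
      intro b _
      split_ifs with h
      · exact one_div_le_one_div_of_le hy0 h.1
      · exact le_refl _
    refine (sum_le_sum h1).trans ?_
    rw [← sum_filter, sum_const, nsmul_eq_mul]
    have h2 : (((Icc 1 N).filter (fun b : ℕ => y ≤ (b : ℝ) ∧ (b : ℝ) ≤ y * Real.exp (1 / K))).card : ℝ) ≤
        y * Real.exp (1 / K) - y + 1 := by
      have h3 : (Icc 1 N).filter (fun b : ℕ => y ≤ (b : ℝ) ∧ (b : ℝ) ≤ y * Real.exp (1 / K)) ⊆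
          Icc ⌈y⌉₊ ⌊y * Real.exp (1 / K)⌋₊ := by
        intro b hb
        rw [mem_filter] at hb
        rw [mem_Icc]
        exact ⟨Nat.ceil_le.mpr hb.2.1, Nat.le_floor hb.2.2⟩
      have h4 : ((Icc ⌈y⌉₊ ⌊y * Real.exp (1 / K)⌋₊).card : ℝ) ≤ y * Real.exp (1 / K) - y + 1 := by
        rw [Nat.card_Icc]
        have h5 : (⌊y * Real.exp (1 / K)⌋₊ : ℝ) ≤ y * Real.exp (1 / K) := Nat.floor_le (by positivity)
        have h6 : y ≤ (⌈y⌉₊ : ℝ) := Nat.le_ceil y
        have h7 : y ≤ y * Real.exp (1 / K) := by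
          have : 1 ≤ Real.exp (1 / (K : ℝ)) := Real.one_le_exp (by positivity)
          nlinarith
        rcases Nat.le_total ⌈y⌉₊ (⌊y * Real.exp (1 / K)⌋₊ + 1) with h8 | h8
        · rw [Nat.cast_sub h8]
          push_cast
          linarith
        · rw [Nat.sub_eq_zero_of_le h8]
          push_cast
          linarith
      refine le_trans ?_ h4
      exact_mod_cast card_le_card h3
    have h5 : Real.exp (1 / (K : ℝ)) ≤ 1 + 2 / K := by
      have h6 : |(1 : ℝ) / K| ≤ 1 := by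
        rw [abs_of_nonneg (by positivity), div_le_one (by linarith)]
        exact hK'
      have h7 := Real.abs_exp_sub_one_le h6
      rw [abs_of_nonneg (show (0 : ℝ) ≤ 1 / K by positivity)] at h7
      have := (abs_le.mp h7).2
      have e : (2 : ℝ) * (1 / K) = 2 / K := by ring
      linarith
    calc (((Icc 1 N).filter (fun b : ℕ => y ≤ (b : ℝ) ∧ (b : ℝ) ≤ y * Real.exp (1 / K))).card : ℝ) * (1 / y)
        ≤ (y * Real.exp (1 / K) - y + 1) * (1 / y) := mul_le_mul_of_nonneg_right h2 (by positivity)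
      _ = (Real.exp (1 / K) - 1) + 1 / y := by field_simp
      _ ≤ 2 / K + 1 / K := by
          have : 1 / y ≤ 1 / (K : ℝ) := one_div_le_one_div_of_le (by linarith) hy
          linarith
      _ = 3 / K := by ring
  · have h1 : ∑ b ∈ Icc 1 N, (if y ≤ (b : ℝ) ∧ (b : ℝ) ≤ y * Real.exp (1 / K) then (1 : ℝ) / b else 0) = 0 := by
      apply sum_eq_zero
      intro b hb
      rw [mem_Icc] at hb
      rw [if_neg]
      rintro ⟨_, h⟩
      have h2 : (1 : ℝ) ≤ b := by exact_mod_cast hb.1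
      have h3 : y * Real.exp (1 / K) ≤ 0 := mul_nonpos_of_nonpos_of_nonneg hy (Real.exp_pos _).le
      linarith
    rw [h1]
    positivity

/-- multiples of `b`. -/
lemma sum_mult {f : ℕ → ℝ} {N : ℕ} (hf : ∀ n, N < n → f n = 0) {F : ℝ} (hF : ∀ n, |f n| ≤ F) {b : ℕ} (hb : 1 ≤ b) :
    ∑ a ∈ Icc 1 N, |f (b * a)| ≤ F * N * (1 / b) := by
  have hF0 : 0 ≤ F := (abs_nonneg _).trans (hF 0)
  have hb' : (0 : ℝ) < b := by exact_mod_cast hb
  have h1 : ∀ a ∈ Icc 1 N, |f (b * a)| ≤ if b * a ≤ N then F else 0 := by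
    intro a _
    split_ifs with h
    · exact hF _
    · rw [hf _ (by omega), abs_zero]
  refine (sum_le_sum h1).trans ?_
  rw [← sum_filter, sum_const, nsmul_eq_mul]
  have h2 : ((Icc 1 N).filter (fun a => b * a ≤ N)).card ≤ N / b := by
    have h3 : (Icc 1 N).filter (fun a => b * a ≤ N) ⊆ Icc 1 (N / b) := by
      intro a ha
      rw [mem_filter, mem_Icc] at ha
      rw [mem_Icc]
      refine ⟨ha.1.1, ?_⟩
      rw [Nat.le_div_iff_mul_le (by omega), mul_comm]
      exact ha.2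
    have := card_le_card h3
    rwa [Nat.card_Icc, Nat.add_sub_cancel] at this
  have h4 : (((Icc 1 N).filter (fun a => b * a ≤ N)).card : ℝ) ≤ N / b := by
    refine le_trans (by exact_mod_cast h2) (Nat.cast_div_le)
  calc (((Icc 1 N).filter (fun a => b * a ≤ N)).card : ℝ) * F ≤ (N / b) * F := mul_le_mul_of_nonneg_right h4 hF0
    _ = F * N * (1 / b) := by ring

/-- **Trilinear sums with a condition on the product of the first two variables.** -/
theorem tri_win {P : ℕ → Prop} {f : ℕ → ℝ} {N : ℕ} {B B' : ℝ} (h : Hyp P f N B B') (hf : ∀ n, N < n → f n = 0)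
    {F : ℝ} (hF : ∀ n, |f n| ≤ F) {Dd : ℝ} (hD : DB N Dd) (hN : 1 ≤ N) {K : ℕ} (hK : 1 ≤ K) {y1 y2 : ℝ}
    (hy1 : (K : ℝ) ≤ y1 ∨ y1 ≤ 0) (hy2 : (K : ℝ) ≤ y2 ∨ y2 ≤ 0) (Q : Finset ℕ) {β u : ℕ → ℕ → ℝ} {v : ℕ → ℝ}
    {A : ℝ} (hA : 0 < A) (hβ : ∀ q l, |β q l| ≤ 1) (hP : ∀ q ∈ Q, ∀ l, β q l ≠ 0 → P l)
    (hu : ∀ q n, |u q n| ≤ 1) (hv : ∀ n, |v n| ≤ A)
    (hQ : ∀ b ∈ Icc 1 N, ∑ q ∈ Q, ∑ x ∈ b.divisorsAntidiagonal, |β q x.1| * |u q x.2| ≤ Dd) :
    |∑ q ∈ Q, ∑ l ∈ Icc 1 N, ∑ m ∈ Icc 1 N, ∑ a ∈ Icc 1 N,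
        β q l * (u q m * v a) * win y1 y2 ((l : ℝ) * m) * f (l * m * a)| ≤
      (Q.card : ℝ) * ((K * Real.log N + 1) * (Dd * A * B)) + Dd * (A * Dd) * B' + 6 * (F * A * Dd * N) / K := by
  have hK' : (1 : ℝ) ≤ K := by exact_mod_cast hK
  have hF0 : 0 ≤ F := (abs_nonneg _).trans (hF 0)
  have hD1 := hD.one_le hN
  have hB0 := h.nonneg
  have hlogN : 0 ≤ Real.log N := Real.log_nonneg (by exact_mod_cast hN)
  -- main part
  set J := Finset.range (⌊(K : ℝ) * Real.log N⌋₊ + 1) with hJ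
  have main : |∑ q ∈ Q, ∑ l ∈ Icc 1 N, ∑ m ∈ Icc 1 N, ∑ a ∈ Icc 1 N,
      β q l * (u q m * v a) * win y1 y2 (Real.exp ((cls K l : ℝ) / K) * m) * f (l * m * a)| ≤
      (Q.card : ℝ) * ((K * Real.log N + 1) * (Dd * A * B)) + Dd * (A * Dd) * B' := by
    have e1 : ∑ q ∈ Q, ∑ l ∈ Icc 1 N, ∑ m ∈ Icc 1 N, ∑ a ∈ Icc 1 N,
        β q l * (u q m * v a) * win y1 y2 (Real.exp ((cls K l : ℝ) / K) * m) * f (l * m * a) =
        ∑ i ∈ Q ×ˢ J, ∑ l ∈ Icc 1 N, ∑ m ∈ Icc 1 N, ∑ a ∈ Icc 1 N,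
          (if cls K l = i.2 then β i.1 l else 0) *
            ((u i.1 m * win y1 y2 (Real.exp ((i.2 : ℝ) / K) * m)) * v a) * f (l * m * a) := by
      rw [sum_product]
      refine sum_congr rfl fun q _ => ?_
      symm
      rw [sum_comm]
      refine sum_congr rfl fun l hl => ?_
      rw [mem_Icc] at hl
      rw [sum_eq_single (cls K l)]
      · refine sum_congr rfl fun m _ => sum_congr rfl fun a _ => ?_
        rw [if_pos rfl]
        ring
      · intro j _ hj
        apply sum_eq_zero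
        intro m _
        apply sum_eq_zero
        intro a _
        rw [if_neg (fun h => hj h.symm)]
        ring
      · intro hh
        exfalso
        apply hh
        rw [hJ, mem_range]
        apply Nat.lt_succ_of_le
        unfold cls
        apply Nat.floor_le_floor
        apply mul_le_mul_of_nonneg_left _ (by linarith)
        apply Real.log_le_log (by exact_mod_cast hl.1)
        exact_mod_cast hl.2
    rw [e1]
    have e2 := tri_scale h hf hD (Q ×ˢ J) (β := fun i l => if cls K l = i.2 then β i.1 l else 0)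
        (u := fun i m => u i.1 m * win y1 y2 (Real.exp ((i.2 : ℝ) / K) * m)) (v := v) (A1 := Dd) hA (by
          intro i l
          split_ifs
          · exact hβ i.1 l
          · simp) (by
          intro i hi l hl
          rw [mem_product] at hi
          split_ifs at hl with h4
          · exact hP i.1 hi.1 l hl
          · exact absurd rfl hl) (by
          intro i n
          rw [abs_mul, abs_of_nonneg (win_nonneg _ _ _)]
          exact mul_le_one₀ (hu i.1 n) (win_nonneg _ _ _) (win_le_one _ _ _)) hv hN (by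
          intro b hb
          refine le_trans ?_ (hQ b hb)
          rw [sum_product]
          refine sum_le_sum fun q _ => ?_
          rw [sum_comm]
          refine sum_le_sum fun x _ => ?_
          have h5 : ∀ j ∈ J, |if cls K x.1 = j then β q x.1 else 0| *
              |u q x.2 * win y1 y2 (Real.exp ((j : ℝ) / K) * x.2)| ≤
              if cls K x.1 = j then |β q x.1| * |u q x.2| else 0 := by
            intro j _
            split_ifs
            · rw [abs_mul, abs_of_nonneg (win_nonneg _ _ _)]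
              apply mul_le_mul_of_nonneg_left _ (abs_nonneg _)
              exact mul_le_of_le_one_right (abs_nonneg _) (win_le_one _ _ _)
            · simp
          refine (sum_le_sum h5).trans ?_
          rw [sum_ite_eq]
          split_ifs
          · exact le_rfl
          · positivity)
    refine e2.trans ?_
    apply add_le_add_left
    rw [card_product, hJ, card_range]
    push_cast
    rw [mul_assoc]
    apply mul_le_mul_of_nonneg_left _ (Nat.cast_nonneg _)
    apply mul_le_mul_of_nonneg_right _ (by positivity)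
    have := Nat.floor_le (show 0 ≤ (K : ℝ) * Real.log N by positivity)
    linarith
  -- the error
  set nr : ℕ → ℝ := fun b => (if y1 ≤ (b : ℝ) ∧ (b : ℝ) ≤ y1 * Real.exp (1 / K) then (1 : ℝ) else 0) +
      (if y2 ≤ (b : ℝ) ∧ (b : ℝ) ≤ y2 * Real.exp (1 / K) then 1 else 0) with hnr
  have hnr0 : ∀ b, 0 ≤ nr b := by
    intro b
    rw [hnr]
    positivity
  set E : ℕ → ℝ := fun b => nr b * ∑ a ∈ Icc 1 N, A * |f (b * a)| with hE
  have hE0 : ∀ b, 0 ≤ E b := fun b => mul_nonneg (hnr0 b) (sum_nonneg fun _ _ => by positivity)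
  have hEN : ∀ b, N < b → E b = 0 := by
    intro b hb
    rw [hE]
    dsimp only
    rw [sum_eq_zero, mul_zero]
    intro a ha
    rw [mem_Icc] at ha
    rw [hf _ (by nlinarith)]
    simp
  have err : ∑ q ∈ Q, ∑ l ∈ Icc 1 N, ∑ m ∈ Icc 1 N, ∑ a ∈ Icc 1 N,
      |β q l * (u q m * v a) * (win y1 y2 ((l : ℝ) * m) - win y1 y2 (Real.exp ((cls K l : ℝ) / K) * m)) *
        f (l * m * a)| ≤ 6 * (F * A * Dd * N) / K := by
    have e1 : ∀ q ∈ Q, ∑ l ∈ Icc 1 N, ∑ m ∈ Icc 1 N, ∑ a ∈ Icc 1 N,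
      |β q l * (u q m * v a) * (win y1 y2 ((l : ℝ) * m) - win y1 y2 (Real.exp ((cls K l : ℝ) / K) * m)) *
        f (l * m * a)| ≤ ∑ b ∈ Icc 1 N, (∑ x ∈ b.divisorsAntidiagonal, |β q x.1| * |u q x.2|) * E b := by
      intro q _
      rw [← conv hEN (fun l m => |β q l| * |u q m|)]
      refine sum_le_sum fun l hl => sum_le_sum fun m _ => ?_
      rw [mem_Icc] at hl
      rw [hE]
      dsimp only
      rw [mul_sum, mul_sum]
      refine sum_le_sum fun a _ => ?_
      rw [abs_mul, abs_mul, abs_mul, abs_mul]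
      have h1 := win_sub_le (K := K) (l := l) (m := m) hK hl.1 (y1 := y1) (y2 := y2)
      have h2 : |win y1 y2 ((l : ℝ) * m) - win y1 y2 (Real.exp ((cls K l : ℝ) / K) * m)| ≤ nr (l * m) := by
        rw [hnr]
        push_cast
        exact h1
      calc |β q l| * (|u q m| * |v a|) *
            |win y1 y2 ((l : ℝ) * m) - win y1 y2 (Real.exp ((cls K l : ℝ) / K) * m)| * |f (l * m * a)|
          ≤ |β q l| * (|u q m| * A) * nr (l * m) * |f (l * m * a)| := by
            gcongr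
            exact hv a
        _ = |β q l| * |u q m| * (nr (l * m) * (A * |f (l * m * a)|)) := by ring
    refine (sum_le_sum e1).trans ?_
    rw [sum_comm]
    have e2 : ∀ b ∈ Icc 1 N, ∑ q ∈ Q, (∑ x ∈ b.divisorsAntidiagonal, |β q x.1| * |u q x.2|) * E b ≤
        F * A * Dd * N * ((if y1 ≤ (b : ℝ) ∧ (b : ℝ) ≤ y1 * Real.exp (1 / K) then (1 : ℝ) / b else 0) +
          (if y2 ≤ (b : ℝ) ∧ (b : ℝ) ≤ y2 * Real.exp (1 / K) then (1 : ℝ) / b else 0)) := by
      intro b hb
      rw [← sum_mul]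
      have hb1 : 1 ≤ b := (mem_Icc.mp hb).1
      have h3 : E b ≤ nr b * (A * (F * N * (1 / b))) := by
        rw [hE]
        dsimp only
        rw [← mul_sum]
        exact mul_le_mul_of_nonneg_left (mul_le_mul_of_nonneg_left (sum_mult hf hF hb1) hA.le) (hnr0 b)
      have h4 : nr b * (1 / b) = (if y1 ≤ (b : ℝ) ∧ (b : ℝ) ≤ y1 * Real.exp (1 / K) then (1 : ℝ) / b else 0) +
          (if y2 ≤ (b : ℝ) ∧ (b : ℝ) ≤ y2 * Real.exp (1 / K) then (1 : ℝ) / b else 0) := by
        rw [hnr]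
        dsimp only
        split_ifs <;> ring
      rw [← h4]
      calc (∑ q ∈ Q, ∑ x ∈ b.divisorsAntidiagonal, |β q x.1| * |u q x.2|) * E b
          ≤ Dd * (nr b * (A * (F * N * (1 / b)))) := mul_le_mul (hQ b hb) h3 (hE0 b) (by linarith)
        _ = F * A * Dd * N * (nr b * (1 / b)) := by ring
    refine (sum_le_sum e2).trans ?_
    rw [← mul_sum, sum_add_distrib]
    have h5 := near_sum (N := N) hK hy1
    have h6 := near_sum (N := N) hK hy2
    calc F * A * Dd * N * (_ + _) ≤ F * A * Dd * N * (3 / K + 3 / K) :=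
          mul_le_mul_of_nonneg_left (add_le_add h5 h6) (by positivity)
      _ = 6 * (F * A * Dd * N) / K := by ring
  -- together
  have split : ∑ q ∈ Q, ∑ l ∈ Icc 1 N, ∑ m ∈ Icc 1 N, ∑ a ∈ Icc 1 N,
        β q l * (u q m * v a) * win y1 y2 ((l : ℝ) * m) * f (l * m * a) =
      ∑ q ∈ Q, ∑ l ∈ Icc 1 N, ∑ m ∈ Icc 1 N, ∑ a ∈ Icc 1 N,
        β q l * (u q m * v a) * win y1 y2 (Real.exp ((cls K l : ℝ) / K) * m) * f (l * m * a) +
      ∑ q ∈ Q, ∑ l ∈ Icc 1 N, ∑ m ∈ Icc 1 N, ∑ a ∈ Icc 1 N,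
        β q l * (u q m * v a) * (win y1 y2 ((l : ℝ) * m) - win y1 y2 (Real.exp ((cls K l : ℝ) / K) * m)) *
          f (l * m * a) := by
    simp only [← sum_add_distrib]
    refine sum_congr rfl fun q _ => sum_congr rfl fun l _ => sum_congr rfl fun m _ => sum_congr rfl fun a _ => ?_
    ring
  rw [split]
  refine (abs_add_le _ _).trans (add_le_add main ?_)
  · refine le_trans ?_ err
    refine (abs_sum_le_sum_abs _ _).trans (sum_le_sum fun q _ => ?_)
    refine (abs_sum_le_sum_abs _ _).trans (sum_le_sum fun l _ => ?_)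
    refine (abs_sum_le_sum_abs _ _).trans (sum_le_sum fun m _ => ?_)
    exact abs_sum_le_sum_abs _ _

end Pool.Agent.Helper25.AP
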