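import Pool.Agent.Helper25.AP.D4

/-!
# AP: decomposition of the primes, 5: the pointwise identity
-/

set_option autoImplicit false

open Finset
open scoped Classical

namespace Pool.Agent.Helper25.AP

/-- primes. -/
noncomputable def pr (n : ℕ) : ℝ := if n.Prime then 1 else 0

/-- squares of primes. -/
noncomputable def ps (n : ℕ) : ℝ := if ∃ p, p.Prime ∧ n = p * p then 1 else 0

/-- the primes in `(z1, Z1)`. -/
noncomputable def pw (z1 Z1 n : ℕ) : ℝ := if n.Prime ∧ z1 < n ∧ n < Z1 then 1 else 0

/-- the primes greater than `z1`. -/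
noncomputable def pg (z1 n : ℕ) : ℝ := if n.Prime ∧ z1 < n then 1 else 0

lemma abs_pr_le (n : ℕ) : |pr n| ≤ 1 := by unfold pr; split_ifs <;> simp
lemma abs_pw_le (z1 Z1 n : ℕ) : |pw z1 Z1 n| ≤ 1 := by unfold pw; split_ifs <;> simp
lemma abs_pg_le (z1 n : ℕ) : |pg z1 n| ≤ 1 := by unfold pg; split_ifs <;> simp

/-- the conditions on the parameters. -/
structure Par (N0 N1 w z z1 Z1 : ℕ) : Prop where
  hw : 1 ≤ w
  hwz : w ≤ z
  hzz : z ≤ z1
  h1 : z1 * z1 < N0
  h2 : z * Z1 ≤ N0
  h3 : N1 ≤ z1 * Z1
  h4 : Z1 ≤ z * z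
  h5 : N1 < z * z * z

/-- two prime factors. -/
lemma antidiag_two {p r : ℕ} (hp : p.Prime) (hr : r.Prime) {u v : ℕ → ℝ} (hu : ∀ n, ¬ n.Prime → u n = 0)
    (hv : ∀ n, ¬ n.Prime → v n = 0) :
    ∑ x ∈ (p * r).divisorsAntidiagonal, u x.1 * v x.2 = u p * v r + (if p = r then 0 else u r * v p) := by
  have hpr : p * r ≠ 0 := Nat.mul_ne_zero hp.ne_zero hr.ne_zero
  have key : ∀ x ∈ (p * r).divisorsAntidiagonal, x ≠ (p, r) → x ≠ (r, p) → u x.1 * v x.2 = 0 := by
    intro x hx h1 h2
    rw [Nat.mem_divisorsAntidiagonal] at hx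
    by_cases hx1 : x.1.Prime
    · by_cases hx2 : x.2.Prime
      · exfalso
        have h3 : x.1 ∣ p * r := ⟨x.2, hx.1.symm⟩
        rcases (Nat.Prime.dvd_mul hx1).mp h3 with h4 | h4
        · have h5 : x.1 = p := (Nat.prime_dvd_prime_iff_eq hx1 hp).mp h4
          apply h1
          have h6 := hx.1
          rw [h5] at h6
          exact Prod.ext h5 (Nat.eq_of_mul_eq_mul_left hp.pos h6)
        · have h5 : x.1 = r := (Nat.prime_dvd_prime_iff_eq hx1 hr).mp h4
          apply h2
          have h6 := hx.1
          rw [h5, mul_comm p r] at h6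
          exact Prod.ext h5 (Nat.eq_of_mul_eq_mul_left hr.pos h6)
      · rw [hv _ hx2, mul_zero]
    · rw [hu _ hx1, zero_mul]
  have m1 : (p, r) ∈ (p * r).divisorsAntidiagonal := by
    rw [Nat.mem_divisorsAntidiagonal]; exact ⟨rfl, hpr⟩
  have m2 : (r, p) ∈ (p * r).divisorsAntidiagonal := by
    rw [Nat.mem_divisorsAntidiagonal]; exact ⟨mul_comm _ _, hpr⟩
  by_cases h : p = r
  · subst h
    rw [if_pos rfl, add_zero, sum_eq_single (p, p)]
    · intro x hx hx'
      exact key x hx hx' hx'
    · intro hh
      exact absurd m1 hh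
  · rw [if_neg h]
    have hne : (p, r) ≠ (r, p) := by
      intro hh
      exact h (congrArg Prod.fst hh)
    rw [← sum_subset (s₁ := {(p, r), (r, p)})]
    · rw [sum_pair hne]
    · intro x hx
      rw [mem_insert, mem_singleton] at hx
      rcases hx with rfl | rfl
      · exact m1
      · exact m2
    · intro x hx hx'
      rw [mem_insert, mem_singleton, not_or] at hx'
      exact key x hx hx'.1 hx'.2

/-- a number with no representation. -/
lemma antidiag_none {n : ℕ} {u v : ℕ → ℝ}
    (h : ∀ a b, a * b = n → n ≠ 0 → u a ≠ 0 → v b ≠ 0 → False) :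
    ∑ x ∈ n.divisorsAntidiagonal, u x.1 * v x.2 = 0 := by
  apply sum_eq_zero
  intro x hx
  rw [Nat.mem_divisorsAntidiagonal] at hx
  by_contra h1
  exact h x.1 x.2 hx.1 hx.2 (left_ne_zero_of_mul h1) (right_ne_zero_of_mul h1)

/-- `rho - cc` is the indicator of the numbers without primes up to `z`. -/
lemma rho_sub_cc {w z n : ℕ} (hwz : w ≤ z) :
    rho w n - cc w z n = if ∀ p, p.Prime → p ∣ n → z < p then 1 else 0 := by
  split_ifs with h
  · have h1 : om w z n = 0 := by
      unfold om
      rw [card_eq_zero, eq_empty_iff_forall_notMem]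
      intro l hl
      unfold Pz at hl
      rw [mem_filter, mem_Ioc] at hl
      have := h l hl.2.1 hl.2.2
      omega
    unfold cc rho
    rw [if_pos h1, if_pos, sub_zero]
    intro p hp hpd
    have := h p hp hpd
    omega
  · push Not at h
    obtain ⟨p, hp, hpd, hpz⟩ := h
    by_cases h1 : w < p
    · have h2 : om w z n ≠ 0 := by
        unfold om
        rw [card_ne_zero]
        refine ⟨p, ?_⟩
        unfold Pz
        rw [mem_filter, mem_Ioc]
        exact ⟨⟨h1, hpz⟩, hp, hpd⟩
      unfold cc
      rw [if_neg h2, sub_self]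
    · have h2 : rho w n = 0 := by
        unfold rho
        rw [if_neg]
        intro h3
        exact h1 (h3 p hp hpd)
      unfold cc
      rw [h2]
      split_ifs <;> simp

/-- primes between `z` and `z ^ 2`. -/
lemma pr_eq {w z n : ℕ} (hwz : w ≤ z) (h1 : z < n) (h2 : n < z * z) (hw : 1 ≤ w) :
    pr n = rho w n - cc w z n := by
  rw [rho_sub_cc hwz]
  unfold pr
  by_cases hn : n.Prime
  · rw [if_pos hn, if_pos]
    intro p hp hpd
    rw [(Nat.prime_dvd_prime_iff_eq hp hn).mp hpd]
    exact h1
  · rw [if_neg hn, if_neg]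
    intro h
    have hn1 : n ≠ 1 := by omega
    set p := n.minFac with hpdef
    have hp : p.Prime := Nat.minFac_prime hn1
    have h3 : p ^ 2 ≤ n := Nat.minFac_sq_le_self (by omega) hn
    have h4 := h p hp (Nat.minFac_dvd n)
    nlinarith

/-- **the pointwise identity.** -/
theorem point {N0 N1 w z z1 Z1 : ℕ} (hp : Par N0 N1 w z z1 Z1) {n : ℕ} (h0 : N0 ≤ n) (h1 : n ≤ N1) :
    pr n = rho w n - cc w z n - (1 / 2) * ∑ x ∈ n.divisorsAntidiagonal, pr x.1 * pw z1 Z1 x.2 - (1 / 2) * ps n -
      ∑ x ∈ n.divisorsAntidiagonal, pz z z1 x.1 * pg z1 x.2 +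
      (1 / 2) * ∑ x ∈ n.divisorsAntidiagonal, pz z z1 x.1 * pw z1 Z1 x.2 := by
  obtain ⟨hw, hwz, hzz, a1, a2, a3, a4, a5⟩ := hp
  have hz1 : 1 ≤ z := by omega
  have hzn : z < n := by nlinarith
  have upr : ∀ n, ¬ n.Prime → pr n = 0 := fun n hn => by unfold pr; rw [if_neg hn]
  have upw : ∀ n, ¬ n.Prime → pw z1 Z1 n = 0 := fun n hn => by unfold pw; rw [if_neg (by tauto)]
  have upg : ∀ n, ¬ n.Prime → pg z1 n = 0 := fun n hn => by unfold pg; rw [if_neg (by tauto)]
  have upz : ∀ n, ¬ n.Prime → pz z z1 n = 0 := fun n hn => by unfold pz; rw [if_neg (by tauto)]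
  have prp : ∀ n, pr n ≠ 0 → n.Prime := fun n h => by by_contra h2; exact h (upr n h2)
  have pwp : ∀ n, pw z1 Z1 n ≠ 0 → n.Prime ∧ z1 < n ∧ n < Z1 := fun n h => by
    unfold pw at h; by_contra h2; rw [if_neg h2] at h; exact h rfl
  have pgp : ∀ n, pg z1 n ≠ 0 → n.Prime ∧ z1 < n := fun n h => by
    unfold pg at h; by_contra h2; rw [if_neg h2] at h; exact h rfl
  have pzp : ∀ n, pz z z1 n ≠ 0 → n.Prime ∧ z < n ∧ n ≤ z1 := fun n h => by
    unfold pz at h; by_contra h2; rw [if_neg h2] at h; exact h rfl
  rw [rho_sub_cc hwz]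
  by_cases hA : ∀ p, p.Prime → p ∣ n → z < p
  · rw [if_pos hA]
    by_cases hn : n.Prime
    · -- n prime
      have e0 : ∀ a b, a * b = n → a.Prime → b.Prime → False := by
        intro a b hab ha hb
        rw [← hab] at hn
        exact Nat.not_prime_mul ha.one_lt.ne' hb.one_lt.ne' hn
      rw [antidiag_none (fun a b hab _ ha hb => e0 a b hab (prp a ha) (pwp b hb).1),
        antidiag_none (fun a b hab _ ha hb => e0 a b hab (pzp a ha).1 (pgp b hb).1),
        antidiag_none (fun a b hab _ ha hb => e0 a b hab (pzp a ha).1 (pwp b hb).1)]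
      have e1 : ps n = 0 := by
        unfold ps
        rw [if_neg]
        rintro ⟨p, hp, hpp⟩
        exact e0 p p hpp.symm hp hp
      rw [e1]
      unfold pr
      rw [if_pos hn]
      norm_num
    · -- n = p r
      have hn1 : n ≠ 1 := by omega
      obtain ⟨p, r, hp, hr, hpr, hpn, hle⟩ : ∃ p r, p.Prime ∧ r.Prime ∧ p * r = n ∧ z < p ∧ p ≤ r := by
        set p := n.minFac with hpdef
        have hp : p.Prime := Nat.minFac_prime hn1
        have hpd : p ∣ n := Nat.minFac_dvd n
        obtain ⟨m, hm⟩ := hpd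
        have hzp := hA p hp ⟨m, hm⟩
        have hm1 : m ≠ 1 := by
          rintro rfl
          rw [mul_one] at hm
          rw [hm] at hn
          exact hn hp
        have hm0 : m ≠ 0 := by
          rintro rfl
          omega
        have hmp : m.Prime := by
          by_contra hmp
          set s := m.minFac with hs
          have hsp : s.Prime := Nat.minFac_prime hm1
          have h3 : s ^ 2 ≤ m := Nat.minFac_sq_le_self (by omega) hmp
          have h4 := hA s hsp ((Nat.minFac_dvd m).trans ⟨p, by rw [hm]; ring⟩)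
          have h5 : z * z < s ^ 2 := by nlinarith
          have h6 : z * (z * z) < p * m := by
            apply Nat.mul_lt_mul_of_lt_of_le hzp (by omega)
            omega
          have h7 : z * z * z = z * (z * z) := by ring
          omega
        refine ⟨p, m, hp, hmp, hm.symm, hzp, ?_⟩
        exact Nat.minFac_le_of_dvd hmp.two_le ⟨p, by rw [hm]; ring⟩
      have hrz : z < r := lt_of_lt_of_le hpn hle
      have hr1 : z1 < r := by
        by_contra h
        push Not at h
        have : p * r ≤ z1 * z1 := Nat.mul_le_mul (hle.trans h) h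
        omega
      have hprn : ¬ (p * r).Prime := Nat.not_prime_mul hp.one_lt.ne' hr.one_lt.ne'
      rw [← hpr, antidiag_two hp hr upr upw, antidiag_two hp hr upz upg, antidiag_two hp hr upz upw]
      have e1 : pr (p * r) = 0 := upr _ hprn
      have e2 : ps (p * r) = if p = r then 1 else 0 := by
        unfold ps
        by_cases h : p = r
        · rw [if_pos h, if_pos ⟨p, hp, by rw [h]⟩]
        · rw [if_neg h, if_neg]
          rintro ⟨s, hs, hss⟩
          have h5 : s ∣ p * r := ⟨s, hss⟩
          rcases (Nat.Prime.dvd_mul hs).mp h5 with h6 | h6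
          · have h7 := (Nat.prime_dvd_prime_iff_eq hs hp).mp h6
            rw [h7] at hss
            exact h (Nat.eq_of_mul_eq_mul_left hp.pos hss).symm
          · have h7 := (Nat.prime_dvd_prime_iff_eq hs hr).mp h6
            rw [h7] at hss
            exact h (Nat.eq_of_mul_eq_mul_right hr.pos hss)
      have e3 : pz z z1 r = 0 := by
        unfold pz
        rw [if_neg]
        rintro ⟨_, _, h⟩
        omega
      have e4 : pr p = 1 := by unfold pr; rw [if_pos hp]
      have e5 : pr r = 1 := by unfold pr; rw [if_pos hr]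
      have e6 : pg z1 r = 1 := by unfold pg; rw [if_pos ⟨hr, hr1⟩]
      rw [e1, e2, e3, e4, e5, e6]
      by_cases hpz1 : z1 < p
      · have hrZ : r < Z1 := by
          by_contra h
          push Not at h
          have h8 : z1 * Z1 < p * r := by
            calc z1 * Z1 ≤ z1 * r := Nat.mul_le_mul_left _ h
              _ < p * r := Nat.mul_lt_mul_of_pos_right hpz1 hr.pos
          omega
        have hpZ : p < Z1 := lt_of_le_of_lt hle hrZ
        have f1 : pw z1 Z1 r = 1 := by unfold pw; rw [if_pos ⟨hr, hr1, hrZ⟩]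
        have f2 : pw z1 Z1 p = 1 := by unfold pw; rw [if_pos ⟨hp, hpz1, hpZ⟩]
        have f3 : pz z z1 p = 0 := by
          unfold pz
          rw [if_neg]
          rintro ⟨_, _, h⟩
          omega
        rw [f1, f2, f3]
        by_cases h : p = r
        · rw [if_pos h, if_pos h, if_pos h]
          norm_num
        · rw [if_neg h, if_neg h, if_neg h]
          norm_num
      · have hne : p ≠ r := by
          rintro rfl
          exact hpz1 hr1
        have f2 : pw z1 Z1 p = 0 := by
          unfold pw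
          rw [if_neg]
          rintro ⟨_, h, _⟩
          exact hpz1 h
        have f3 : pz z z1 p = 1 := by
          unfold pz
          rw [if_pos ⟨hp, hpn, by omega⟩]
        rw [f2, f3]
        simp [hne]
  · rw [if_neg hA]
    push Not at hA
    obtain ⟨p, hp, hpd, hpz⟩ := hA
    have e0 : ∀ a b, a * b = n → a.Prime → b.Prime → z < a → z < b → False := by
      intro a b hab ha hb hza hzb
      rw [← hab] at hpd
      rcases (Nat.Prime.dvd_mul hp).mp hpd with h6 | h6
      · have := (Nat.prime_dvd_prime_iff_eq hp ha).mp h6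
        omega
      · have := (Nat.prime_dvd_prime_iff_eq hp hb).mp h6
        omega
    have hn : ¬ n.Prime := by
      intro h
      have := (Nat.prime_dvd_prime_iff_eq hp h).mp hpd
      omega
    have e2 : ps n = 0 := by
      unfold ps
      rw [if_neg]
      rintro ⟨s, hs, hss⟩
      have h3 : z1 < s := by
        by_contra h
        push Not at h
        have : s * s ≤ z1 * z1 := Nat.mul_le_mul h h
        omega
      exact e0 s s hss.symm hs hs (by omega) (by omega)
    rw [antidiag_none (n := n) (u := pr) (v := pw z1 Z1), antidiag_none (n := n) (u := pz z z1) (v := pg z1),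
      antidiag_none (n := n) (u := pz z z1) (v := pw z1 Z1), e2, upr n hn]
    · norm_num
    · intro a b hab _ ha hb
      exact e0 a b hab (pzp a ha).1 (pwp b hb).1 (pzp a ha).2.1 (by have := (pwp b hb).2.1; omega)
    · intro a b hab _ ha hb
      exact e0 a b hab (pzp a ha).1 (pgp b hb).1 (pzp a ha).2.1 (by have := (pgp b hb).2; omega)
    · intro a b hab _ ha hb
      obtain ⟨hb1, hb2, hb3⟩ := pwp b hb
      refine e0 a b hab (prp a ha) hb1 ?_ (by omega)
      by_contra h
      push Not at h
      have : a * b < z * Z1 := by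
        calc a * b ≤ z * b := Nat.mul_le_mul_right _ h
          _ < z * Z1 := Nat.mul_lt_mul_of_pos_left hb3 (by omega)
      omega

end Pool.Agent.Helper25.AP
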