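import Pool.Agent.Helper25.AP.D5

/-!
# AP: decomposition of the primes, 6: the theorem
-/

set_option autoImplicit false

open Finset
open scoped Classical

namespace Pool.Agent.Helper25.AP

/-- convolution for the first of two variables. -/
lemma conv_fst {f : ℕ → ℝ} {N : ℕ} (hf : ∀ n, N < n → f n = 0) {b : ℕ} (hb : 1 ≤ b) (g : ℕ → ℕ → ℝ) (χ : ℕ → ℝ) :
    ∑ l ∈ Icc 1 N, ∑ m ∈ Icc 1 N, g l m * (χ (l * m) * f (l * m * b)) =
      ∑ n ∈ Icc 1 N, (∑ x ∈ n.divisorsAntidiagonal, g x.1 x.2) * (χ n * f (n * b)) := by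
  exact conv (f := fun n => χ n * f (n * b)) (N := N) (by
    intro n hn
    rw [hf _ (by nlinarith), mul_zero]) g

/-- the sum over rough numbers with a factor. -/
theorem sum_rho' {f : ℕ → ℝ} {N : ℕ} (hf : ∀ n, N < n → f n = 0) {w D : ℕ} (hD : 1 ≤ D) {b : ℕ} (hb : 1 ≤ b)
    (χ : ℕ → ℝ) :
    ∑ n ∈ Icc 1 N, rho w n * (χ n * f (n * b)) =
      ∑ d ∈ Icc 1 N, ∑ m ∈ Icc 1 N, md w D d * (χ (d * m) * f (d * m * b)) +
      ∑ q ∈ (Icc 1 w).filter Nat.Prime, ∑ x ∈ Icc 1 N, ∑ m ∈ Icc 1 N,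
        mx w D q x * nop q w m * (χ (x * m) * f (x * m * b)) := by
  have h := sum_rho (f := fun n => χ n * f (n * b)) (N := N) (by
    intro n hn
    rw [hf _ (by nlinarith), mul_zero]) (w := w) (D := D) hD (b := 1) le_rfl
  simpa using h

/-- bound of the multiplicity in the second coefficients. -/
lemma mx_mult {N : ℕ} {Dd : ℝ} (hD : DB N Dd) {w D b : ℕ} (hb : b ∈ Icc 1 N) :
    ∑ q ∈ (Icc 1 w).filter Nat.Prime, ∑ x ∈ b.divisorsAntidiagonal, |mx w D q x.1| * |nop q w x.2| ≤ Dd := by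
  rw [sum_comm]
  have h1 : ∀ x ∈ b.divisorsAntidiagonal,
      ∑ q ∈ (Icc 1 w).filter Nat.Prime, |mx w D q x.1| * |nop q w x.2| ≤ 1 := by
    intro x _
    by_cases hq : ∃ q ∈ (Icc 1 w).filter Nat.Prime, mx w D q x.1 ≠ 0
    · obtain ⟨q, hq, hqx⟩ := hq
      rw [sum_eq_single q]
      · exact mul_le_one₀ (abs_mx_le w D q x.1) (abs_nonneg _) (abs_nop_le q w x.2)
      · intro q' hq' hne
        have : mx w D q' x.1 = 0 := by
          by_contra h
          unfold mx at h hqx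
          split_ifs at h with h3
          · split_ifs at hqx with h4
            · rw [mem_filter] at hq hq'
              have h5 := h3.2.2.1 q hq.2 h4.2.1
              have h6 := h4.2.2.1 q' hq'.2 h3.2.1
              omega
            · exact hqx rfl
          · exact h rfl
        rw [this]
        simp
      · intro h
        exact absurd hq h
    · push Not at hq
      rw [sum_eq_zero]
      · norm_num
      · intro q hq'
        rw [hq q hq']
        simp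
  refine (sum_le_sum h1).trans ?_
  rw [sum_const, nsmul_eq_mul, mul_one]
  have h2 : b.divisorsAntidiagonal.card = b.divisors.card := by
    rw [← Nat.map_div_right_divisors]
    simp
  rw [h2]
  exact hD b hb

/-- the number of primes up to `w`. -/
lemma card_q (w : ℕ) : (((Icc 1 w).filter Nat.Prime).card : ℝ) ≤ w := by
  have h := card_le_card (filter_subset Nat.Prime (Icc 1 w))
  rw [Nat.card_Icc, Nat.add_sub_cancel] at h
  exact_mod_cast h

lemma mx_P {w D q x : ℕ} (hq : q ∈ (Icc 1 w).filter Nat.Prime) (h : mx w D q x ≠ 0) :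
    Sm w x ∧ D < x ∧ x ≤ D * w := by
  rw [mem_filter, mem_Icc] at hq
  exact mx_ne hq.1.2 h

section main

variable {f : ℕ → ℝ} {N0 N w z z1 Z1 D K : ℕ} {F Dd B1 B1' B2 B2' B3 B4 : ℝ}

/-- the hypotheses of the theorem. -/
structure Inp (f : ℕ → ℝ) (N0 N w z z1 Z1 D K : ℕ) (F Dd B1 B1' B2 B2' B3 B4 : ℝ) : Prop where
  par : Par N0 N w z z1 Z1
  f0 : ∀ n, n < N0 → f n = 0
  f1 : ∀ n, N < n → f n = 0
  hN : 1 ≤ N
  hF : ∀ n, |f n| ≤ F
  hDd : DB N Dd
  hD : 1 ≤ D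
  hK : 1 ≤ K
  hKz : K ≤ z1
  hKZ : K ≤ Z1
  H1 : Hyp (fun l => l.Prime ∧ w < l ∧ l ≤ z1) f N B1 B1'
  H2 : Hyp (fun x => Sm w x ∧ D < x ∧ x ≤ D * w) f N B2 B2'
  H3 : |∑ d ∈ Icc 1 N, md w D d * ∑ m ∈ Icc 1 N, f (d * m)| ≤ B3
  H4 : |∑ d ∈ Icc 1 N, md w D d * ∑ d' ∈ Icc 1 N, md w D d' *
    ∑ b ∈ (Icc 1 N).filter (fun b => z1 < d * b ∧ d * b < Z1), ∑ a ∈ Icc 1 N, f (d' * a * (d * b))| ≤ B4

lemma Inp.F0 (h : Inp f N0 N w z z1 Z1 D K F Dd B1 B1' B2 B2' B3 B4) : 0 ≤ F := (abs_nonneg _).trans (h.hF 0)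

lemma Inp.B30 (h : Inp f N0 N w z z1 Z1 D K F Dd B1 B1' B2 B2' B3 B4) : 0 ≤ B3 := (abs_nonneg _).trans h.H3

lemma Inp.B40 (h : Inp f N0 N w z z1 Z1 D K F Dd B1 B1' B2 B2' B3 B4) : 0 ≤ B4 := (abs_nonneg _).trans h.H4

/-- rough numbers. -/
lemma Inp.T0 (h : Inp f N0 N w z z1 Z1 D K F Dd B1 B1' B2 B2' B3 B4) :
    |∑ n ∈ Icc 1 N, rho w n * f n| ≤ B3 + (w * B2 + Dd * B2') := by
  have e := sum_rho h.f1 (w := w) (D := D) h.hD (b := 1) le_rfl
  simp only [mul_one] at e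
  rw [e]
  refine (abs_add_le _ _).trans (add_le_add ?_ ?_)
  · have e1 : ∑ d ∈ Icc 1 N, ∑ m ∈ Icc 1 N, md w D d * f (d * m) =
        ∑ d ∈ Icc 1 N, md w D d * ∑ m ∈ Icc 1 N, f (d * m) := by
      refine sum_congr rfl fun d _ => ?_
      rw [mul_sum]
    rw [e1]
    exact h.H3
  · refine (h.H2 ℕ _ (mx w D) (fun q => nop q w) Dd (abs_mx_le w D) (fun q hq x hx => mx_P hq hx)
      (fun q => abs_nop_le q w) (fun b hb => mx_mult h.hDd hb)).trans ?_
    exact add_le_add (mul_le_mul_of_nonneg_right (card_q w) h.H2.nonneg) le_rfl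

/-- multiplicity of one pair. -/
lemma one_mult {N : ℕ} {Dd : ℝ} (hD : DB N Dd) {u v : ℕ → ℝ} (hu : ∀ n, |u n| ≤ 1) (hv : ∀ n, |v n| ≤ 1) {b : ℕ}
    (hb : b ∈ Icc 1 N) :
    ∑ _q ∈ ({0} : Finset ℕ), ∑ x ∈ b.divisorsAntidiagonal, |u x.1| * |v x.2| ≤ Dd := by
  rw [sum_singleton]
  have h1 : ∀ x ∈ b.divisorsAntidiagonal, |u x.1| * |v x.2| ≤ 1 := fun x _ =>
    mul_le_one₀ (hu x.1) (abs_nonneg _) (hv x.2)
  refine (sum_le_sum h1).trans ?_
  rw [sum_const, nsmul_eq_mul, mul_one, card_anti]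
  exact hD b hb

lemma pz_P {w z z1 l : ℕ} (hz : z ≤ z1) (h : pz w z l ≠ 0) : l.Prime ∧ w < l ∧ l ≤ z1 := by
  unfold pz at h
  split_ifs at h with h1
  · exact ⟨h1.1, h1.2.1, h1.2.2.trans hz⟩
  · exact absurd rfl h

lemma pz_P' {w z z1 l : ℕ} (hz : w ≤ z) (h : pz z z1 l ≠ 0) : l.Prime ∧ w < l ∧ l ≤ z1 := by
  unfold pz at h
  split_ifs at h with h1
  · exact ⟨h1.1, lt_of_le_of_lt hz h1.2.1, h1.2.2⟩
  · exact absurd rfl h

/-- numbers with a prime in `(w, z]`. -/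
lemma Inp.T1 (h : Inp f N0 N w z z1 Z1 D K F Dd B1 B1' B2 B2' B3 B4) :
    |∑ n ∈ Icc 1 N, cc w z n * f n| ≤ B1 + Dd * B1' + F * (N / w) := by
  have e : ∑ n ∈ Icc 1 N, cc w z n * f n =
      ∑ n ∈ Icc 1 N, (∑ x ∈ n.divisorsAntidiagonal, pz w z x.1 * al w z x.2) * f n +
      ∑ n ∈ Icc 1 N, (cc w z n - ∑ x ∈ n.divisorsAntidiagonal, pz w z x.1 * al w z x.2) * f n := by
    rw [← sum_add_distrib]
    refine sum_congr rfl fun n _ => by ring
  rw [e]
  refine (abs_add_le _ _).trans (add_le_add ?_ ?_)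
  · rw [← conv h.f1 (fun l m => pz w z l * al w z m)]
    have := h.H1 ℕ {0} (fun _ => pz w z) (fun _ => al w z) Dd (fun _ => abs_pz_le w z)
      (fun _ _ l hl => pz_P h.par.hzz hl) (fun _ => abs_al_le w z)
      (fun b hb => one_mult h.hDd (abs_pz_le w z) (abs_al_le w z) hb)
    simpa using this
  · refine (abs_sum_le_sum_abs _ _).trans ?_
    have e1 : ∀ n ∈ Icc 1 N, |(cc w z n - ∑ x ∈ n.divisorsAntidiagonal, pz w z x.1 * al w z x.2) * f n| ≤
        F * (sq w n : ℝ) := by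
      intro n hn
      rw [mem_Icc] at hn
      rw [abs_mul, mul_comm F]
      exact mul_le_mul (cc_conv (by omega)) (h.hF n) (abs_nonneg _) (Nat.cast_nonneg _)
    refine (sum_le_sum e1).trans ?_
    rw [← mul_sum]
    exact mul_le_mul_of_nonneg_left (sum_sq h.par.hw) h.F0

/-- squares of primes. -/
lemma Inp.T5 (h : Inp f N0 N w z z1 Z1 D K F Dd B1 B1' B2 B2' B3 B4) :
    |∑ n ∈ Icc 1 N, ps n * f n| ≤ F * (N / w) := by
  refine (abs_sum_le_sum_abs _ _).trans ?_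
  have e1 : ∀ n ∈ Icc 1 N, |ps n * f n| ≤ F * (sq w n : ℝ) := by
    intro n hn
    rw [mem_Icc] at hn
    rw [abs_mul]
    by_cases h0 : n < N0
    · rw [h.f0 n h0]
      simp only [abs_zero, mul_zero]
      exact mul_nonneg h.F0 (Nat.cast_nonneg _)
    · push Not at h0
      unfold ps
      split_ifs with hs
      · obtain ⟨p, hp, hpp⟩ := hs
        have h2 : w < p := by
          by_contra h3
          push Not at h3
          have h4 : p ≤ z1 := h3.trans (h.par.hwz.trans h.par.hzz)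
          have h5 : p * p ≤ z1 * z1 := Nat.mul_le_mul h4 h4
          have h6 := h.par.h1
          omega
        have h3 : 1 ≤ sq w n := by
          unfold sq
          apply card_pos.mpr
          refine ⟨p, ?_⟩
          rw [mem_filter, mem_Ioc]
          refine ⟨⟨h2, ?_⟩, ?_⟩
          · rw [hpp]; exact Nat.le_mul_of_pos_left p hp.pos
          · rw [hpp]; exact ⟨1, by ring⟩
        have h4 : (1 : ℝ) ≤ sq w n := by exact_mod_cast h3
        rw [abs_one, one_mul]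
        have := h.hF n
        have := h.F0
        nlinarith
      · simp only [abs_zero, zero_mul]
        exact mul_nonneg h.F0 (Nat.cast_nonneg _)
  refine (sum_le_sum e1).trans ?_
  rw [← mul_sum]
  exact mul_le_mul_of_nonneg_left (sum_sq h.par.hw) h.F0

/-- type II with primes, first. -/
lemma Inp.T3 (h : Inp f N0 N w z z1 Z1 D K F Dd B1 B1' B2 B2' B3 B4) {v : ℕ → ℝ} (hv : ∀ n, |v n| ≤ 1) :
    |∑ n ∈ Icc 1 N, (∑ x ∈ n.divisorsAntidiagonal, pz z z1 x.1 * v x.2) * f n| ≤ B1 + Dd * B1' := by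
  rw [← conv h.f1 (fun l m => pz z z1 l * v m)]
  have := h.H1 ℕ {0} (fun _ => pz z z1) (fun _ => v) Dd (fun _ => abs_pz_le z z1)
      (fun _ _ l hl => pz_P' h.par.hwz hl) (fun _ => hv)
      (fun b hb => one_mult h.hDd (abs_pz_le z z1) hv hb)
  simpa using this

/-- the function `1` on `(z1, Z1)`. -/
noncomputable def ch (z1 Z1 b : ℕ) : ℝ := win z1 Z1 b

lemma abs_ch_le (z1 Z1 b : ℕ) : |ch z1 Z1 b| ≤ 1 := by
  unfold ch
  rw [abs_of_nonneg (win_nonneg _ _ _)]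
  exact win_le_one _ _ _

/-- numbers with a prime in `(w, z]`, times any. -/
lemma Inp.S2 (h : Inp f N0 N w z z1 Z1 D K F Dd B1 B1' B2 B2' B3 B4) {v : ℕ → ℝ} (hv : ∀ n, |v n| ≤ 1) :
    |∑ b ∈ Icc 1 N, ∑ a ∈ Icc 1 N, cc w z a * (v b * f (a * b))| ≤
      Dd * B1 + Dd * Dd * B1' + F * Dd * (N / w) := by
  have e : ∑ b ∈ Icc 1 N, ∑ a ∈ Icc 1 N, cc w z a * (v b * f (a * b)) =
      ∑ b ∈ Icc 1 N, ∑ a ∈ Icc 1 N, (∑ x ∈ a.divisorsAntidiagonal, pz w z x.1 * al w z x.2) * (v b * f (a * b)) +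
      ∑ b ∈ Icc 1 N, ∑ a ∈ Icc 1 N, (cc w z a - ∑ x ∈ a.divisorsAntidiagonal, pz w z x.1 * al w z x.2) *
        (v b * f (a * b)) := by
    rw [← sum_add_distrib]
    refine sum_congr rfl fun b _ => ?_
    rw [← sum_add_distrib]
    refine sum_congr rfl fun n _ => by ring
  rw [e]
  refine (abs_add_le _ _).trans (add_le_add ?_ ?_)
  · have e1 : ∑ b ∈ Icc 1 N, ∑ a ∈ Icc 1 N,
        (∑ x ∈ a.divisorsAntidiagonal, pz w z x.1 * al w z x.2) * (v b * f (a * b)) =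
        ∑ l ∈ Icc 1 N, ∑ m ∈ Icc 1 N, ∑ b ∈ Icc 1 N, pz w z l * (al w z m * v b) * f (l * m * b) := by
      have e2 : ∀ b ∈ Icc 1 N, ∑ a ∈ Icc 1 N,
          (∑ x ∈ a.divisorsAntidiagonal, pz w z x.1 * al w z x.2) * (v b * f (a * b)) =
          ∑ l ∈ Icc 1 N, ∑ m ∈ Icc 1 N, pz w z l * (al w z m * v b) * f (l * m * b) := by
        intro b hb
        rw [mem_Icc] at hb
        have := conv_fst h.f1 hb.1 (fun l m => pz w z l * al w z m) (fun _ => v b)
        rw [← this]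
        refine sum_congr rfl fun l _ => sum_congr rfl fun m _ => by ring
      rw [sum_congr rfl e2, sum_comm]
      refine sum_congr rfl fun l _ => ?_
      rw [sum_comm]
    rw [e1]
    have := tri_scale h.H1 h.f1 h.hDd ({0} : Finset ℕ) (β := fun _ => pz w z) (u := fun _ => al w z) (v := v)
      zero_lt_one (fun _ => abs_pz_le w z) (fun _ _ l hl => pz_P h.par.hzz hl) (fun _ => abs_al_le w z) hv h.hN
      (fun b hb => one_mult h.hDd (abs_pz_le w z) (abs_al_le w z) hb)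
    simpa using this
  · rw [sum_comm]
    refine le_trans ?_ (sum_pair_sq h.f1 h.hF h.hDd h.par.hw)
    refine (abs_sum_le_sum_abs _ _).trans (sum_le_sum fun a ha => ?_)
    rw [mem_Icc] at ha
    refine (abs_sum_le_sum_abs _ _).trans (sum_le_sum fun b _ => ?_)
    rw [abs_mul, abs_mul]
    apply mul_le_mul (cc_conv (by omega)) _ (by positivity) (Nat.cast_nonneg _)
    calc |v b| * |f (a * b)| ≤ 1 * |f (a * b)| := mul_le_mul_of_nonneg_right (hv b) (abs_nonneg _)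
      _ = |f (a * b)| := one_mul _

/-- numbers with a prime in `(w, z]` in the window, times any. -/
lemma Inp.S12 (h : Inp f N0 N w z z1 Z1 D K F Dd B1 B1' B2 B2' B3 B4) {v : ℕ → ℝ} (hv : ∀ n, |v n| ≤ 1) :
    |∑ a ∈ Icc 1 N, ∑ b ∈ Icc 1 N, cc w z b * (ch z1 Z1 b * (v a * f (b * a)))| ≤
      (K * Real.log N + 1) * (Dd * B1) + Dd * Dd * B1' + 6 * (F * Dd * N) / K + F * Dd * (N / w) := by
  have e : ∑ a ∈ Icc 1 N, ∑ b ∈ Icc 1 N, cc w z b * (ch z1 Z1 b * (v a * f (b * a))) =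
      ∑ a ∈ Icc 1 N, ∑ b ∈ Icc 1 N, (∑ x ∈ b.divisorsAntidiagonal, pz w z x.1 * al w z x.2) *
        (ch z1 Z1 b * (v a * f (b * a))) +
      ∑ a ∈ Icc 1 N, ∑ b ∈ Icc 1 N, (cc w z b - ∑ x ∈ b.divisorsAntidiagonal, pz w z x.1 * al w z x.2) *
        (ch z1 Z1 b * (v a * f (b * a))) := by
    rw [← sum_add_distrib]
    refine sum_congr rfl fun b _ => ?_
    rw [← sum_add_distrib]
    refine sum_congr rfl fun n _ => by ring
  rw [e]
  refine (abs_add_le _ _).trans (add_le_add ?_ ?_)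
  · have e1 : ∑ a ∈ Icc 1 N, ∑ b ∈ Icc 1 N, (∑ x ∈ b.divisorsAntidiagonal, pz w z x.1 * al w z x.2) *
        (ch z1 Z1 b * (v a * f (b * a))) =
        ∑ q ∈ ({0} : Finset ℕ), ∑ l ∈ Icc 1 N, ∑ m ∈ Icc 1 N, ∑ a ∈ Icc 1 N,
          pz w z l * (al w z m * v a) * win z1 Z1 ((l : ℝ) * m) * f (l * m * a) := by
      rw [sum_singleton]
      have e2 : ∀ a ∈ Icc 1 N, ∑ b ∈ Icc 1 N,
          (∑ x ∈ b.divisorsAntidiagonal, pz w z x.1 * al w z x.2) * (ch z1 Z1 b * (v a * f (b * a))) =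
          ∑ l ∈ Icc 1 N, ∑ m ∈ Icc 1 N, pz w z l * (al w z m * v a) * win z1 Z1 ((l : ℝ) * m) *
            f (l * m * a) := by
        intro a ha
        rw [mem_Icc] at ha
        have := conv_fst h.f1 ha.1 (fun l m => pz w z l * al w z m) (fun b => ch z1 Z1 b * v a)
        rw [sum_congr rfl (fun b _ => by
          rw [show (∑ x ∈ b.divisorsAntidiagonal, pz w z x.1 * al w z x.2) *
            (ch z1 Z1 b * (v a * f (b * a))) = (∑ x ∈ b.divisorsAntidiagonal, pz w z x.1 * al w z x.2) *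
            ((ch z1 Z1 b * v a) * f (b * a)) by ring]), ← this]
        refine sum_congr rfl fun l _ => sum_congr rfl fun m _ => ?_
        unfold ch
        push_cast
        ring
      rw [sum_congr rfl e2, sum_comm]
      refine sum_congr rfl fun l _ => ?_
      rw [sum_comm]
    rw [e1]
    have := tri_win h.H1 h.f1 h.hF h.hDd h.hN h.hK (y1 := z1) (y2 := Z1) (Or.inl (by exact_mod_cast h.hKz))
      (Or.inl (by exact_mod_cast h.hKZ)) {0} (β := fun _ => pz w z) (u := fun _ => al w z) (v := v) zero_lt_one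
      (fun _ => abs_pz_le w z) (fun _ _ l hl => pz_P h.par.hzz hl) (fun _ => abs_al_le w z) hv
      (fun b hb => one_mult h.hDd (abs_pz_le w z) (abs_al_le w z) hb)
    rw [card_singleton] at this
    simpa using this
  · refine le_trans ?_ (sum_pair_sq h.f1 h.hF h.hDd h.par.hw)
    rw [sum_comm]
    refine (abs_sum_le_sum_abs _ _).trans (sum_le_sum fun b hb => ?_)
    rw [mem_Icc] at hb
    refine (abs_sum_le_sum_abs _ _).trans (sum_le_sum fun a _ => ?_)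
    rw [abs_mul, abs_mul, abs_mul]
    apply mul_le_mul (cc_conv (by omega)) _ (by positivity) (Nat.cast_nonneg _)
    calc |ch z1 Z1 b| * (|v a| * |f (b * a)|) ≤ 1 * (1 * |f (b * a)|) :=
          mul_le_mul (abs_ch_le z1 Z1 b) (mul_le_mul_of_nonneg_right (hv a) (abs_nonneg _)) (by positivity)
            zero_le_one
      _ = |f (b * a)| := by ring

/-- a rough variable in the window: its long part, times any. -/
lemma Inp.S11b (h : Inp f N0 N w z z1 Z1 D K F Dd B1 B1' B2 B2' B3 B4) {v : ℕ → ℝ} (hv : ∀ n, |v n| ≤ 1) :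
    |∑ b ∈ Icc 1 N, v b * ∑ q ∈ (Icc 1 w).filter Nat.Prime, ∑ x ∈ Icc 1 N, ∑ m ∈ Icc 1 N,
      mx w D q x * nop q w m * f (x * m * b)| ≤ w * (Dd * B2) + Dd * Dd * B2' := by
  have e1 : ∑ b ∈ Icc 1 N, v b * ∑ q ∈ (Icc 1 w).filter Nat.Prime, ∑ x ∈ Icc 1 N, ∑ m ∈ Icc 1 N,
      mx w D q x * nop q w m * f (x * m * b) =
      ∑ q ∈ (Icc 1 w).filter Nat.Prime, ∑ x ∈ Icc 1 N, ∑ m ∈ Icc 1 N, ∑ b ∈ Icc 1 N,
        mx w D q x * (nop q w m * v b) * f (x * m * b) := by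
    simp only [mul_sum]
    rw [sum_comm]
    refine sum_congr rfl fun q _ => ?_
    rw [sum_comm]
    refine sum_congr rfl fun x _ => ?_
    rw [sum_comm]
    refine sum_congr rfl fun m _ => sum_congr rfl fun b _ => by ring
  rw [e1]
  have h1 := tri_scale h.H2 h.f1 h.hDd ((Icc 1 w).filter Nat.Prime) (β := mx w D) (u := fun q => nop q w) (v := v)
    zero_lt_one (abs_mx_le w D) (fun q hq x hx => mx_P hq hx) (fun q => abs_nop_le q w) hv h.hN
    (fun b hb => mx_mult h.hDd hb)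
  refine h1.trans ?_
  have h2 := h.hDd.one_le h.hN
  have h3 := h.H2.nonneg
  rw [mul_one, one_mul]
  exact add_le_add (mul_le_mul_of_nonneg_right (card_q w) (by positivity)) le_rfl

/-- the first part of a rough variable. -/
noncomputable def R1 (w D N a : ℕ) : ℝ := if a ∈ Icc 1 N then ∑ x ∈ a.divisorsAntidiagonal, md w D x.1 else 0

lemma abs_R1_le {N : ℕ} {Dd : ℝ} (hD : DB N Dd) (hN : 1 ≤ N) {w D : ℕ} (a : ℕ) : |R1 w D N a| ≤ Dd := by
  unfold R1
  split_ifs with h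
  · refine (abs_sum_le_sum_abs _ _).trans ?_
    refine (sum_le_sum fun x _ => abs_md_le w D x.1).trans ?_
    rw [sum_const, nsmul_eq_mul, mul_one]
    have h2 : a.divisorsAntidiagonal.card = a.divisors.card := by
      rw [← Nat.map_div_right_divisors]
      simp
    rw [h2]
    exact hD a h
  · rw [abs_zero]
    exact zero_le_one.trans (hD.one_le hN)

/-- both first parts. -/
lemma Inp.S11aa (h : Inp f N0 N w z z1 Z1 D K F Dd B1 B1' B2 B2' B3 B4) :
    |∑ a ∈ Icc 1 N, R1 w D N a * ∑ d ∈ Icc 1 N, ∑ m ∈ Icc 1 N,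
      md w D d * (ch z1 Z1 (d * m) * f (d * m * a))| ≤ B4 := by
  have e1 : ∑ a ∈ Icc 1 N, R1 w D N a * ∑ d ∈ Icc 1 N, ∑ m ∈ Icc 1 N,
      md w D d * (ch z1 Z1 (d * m) * f (d * m * a)) =
      ∑ d ∈ Icc 1 N, md w D d * ∑ d' ∈ Icc 1 N, md w D d' *
        ∑ m ∈ Icc 1 N, ∑ a ∈ Icc 1 N, ch z1 Z1 (d * m) * f (d' * d * (a * m)) := by
    have e2 : ∀ d ∈ Icc 1 N, ∀ m ∈ Icc 1 N, ∑ a ∈ Icc 1 N, R1 w D N a * f (d * m * a) =
        ∑ d' ∈ Icc 1 N, ∑ a ∈ Icc 1 N, md w D d' * f (d' * d * (a * m)) := by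
      intro d hd m hm
      rw [mem_Icc] at hd hm
      have h0 : 1 ≤ d * m := Nat.mul_pos (by omega) (by omega)
      have h1 := conv_fst h.f1 h0 (fun d' _ => md w D d') (fun _ => 1)
      have h2 : ∑ a ∈ Icc 1 N, R1 w D N a * f (d * m * a) =
          ∑ n ∈ Icc 1 N, (∑ x ∈ n.divisorsAntidiagonal, md w D x.1) * (1 * f (n * (d * m))) := by
        refine sum_congr rfl fun n hn => ?_
        unfold R1
        rw [if_pos hn, one_mul, mul_comm n]
      rw [h2, ← h1]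
      refine sum_congr rfl fun d' _ => sum_congr rfl fun a _ => ?_
      rw [one_mul, show d' * a * (d * m) = d' * d * (a * m) by ring]
    calc ∑ a ∈ Icc 1 N, R1 w D N a * ∑ d ∈ Icc 1 N, ∑ m ∈ Icc 1 N,
          md w D d * (ch z1 Z1 (d * m) * f (d * m * a)) =
        ∑ d ∈ Icc 1 N, ∑ m ∈ Icc 1 N, md w D d * (ch z1 Z1 (d * m) *
          ∑ a ∈ Icc 1 N, R1 w D N a * f (d * m * a)) := by
          simp only [mul_sum]
          rw [sum_comm]
          refine sum_congr rfl fun d _ => ?_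
          rw [sum_comm]
          refine sum_congr rfl fun m _ => sum_congr rfl fun a _ => by ring
      _ = ∑ d ∈ Icc 1 N, ∑ m ∈ Icc 1 N, md w D d * (ch z1 Z1 (d * m) *
          ∑ d' ∈ Icc 1 N, ∑ a ∈ Icc 1 N, md w D d' * f (d' * d * (a * m))) :=
          sum_congr rfl fun d hd => sum_congr rfl fun m hm => by rw [e2 d hd m hm]
      _ = _ := by
          simp only [mul_sum]
          refine sum_congr rfl fun d _ => ?_
          rw [sum_comm]
          refine sum_congr rfl fun d' _ => sum_congr rfl fun m _ => sum_congr rfl fun a _ => by ring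
  rw [e1]
  refine le_trans (le_of_eq ?_) h.H4
  congr 1
  refine sum_congr rfl fun d _ => ?_
  congr 1
  refine sum_congr rfl fun d' _ => ?_
  congr 1
  rw [sum_filter]
  refine sum_congr rfl fun m _ => ?_
  rw [← mul_sum]
  have h6 : ∑ a ∈ Icc 1 N, f (d' * d * (a * m)) = ∑ a ∈ Icc 1 N, f (d' * a * (d * m)) :=
    sum_congr rfl fun a _ => by rw [show d' * d * (a * m) = d' * a * (d * m) by ring]
  rw [h6]
  unfold ch win
  by_cases h5 : z1 < d * m ∧ d * m < Z1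
  · rw [if_pos h5, if_pos ⟨by exact_mod_cast h5.1, by exact_mod_cast h5.2⟩, one_mul]
  · rw [if_neg h5, if_neg, zero_mul]
    rintro ⟨h7, h8⟩
    exact h5 ⟨by exact_mod_cast h7, by exact_mod_cast h8⟩

/-- first part and second part. -/
lemma Inp.S11ab (h : Inp f N0 N w z z1 Z1 D K F Dd B1 B1' B2 B2' B3 B4) :
    |∑ a ∈ Icc 1 N, R1 w D N a * ∑ q ∈ (Icc 1 w).filter Nat.Prime, ∑ x ∈ Icc 1 N, ∑ m ∈ Icc 1 N,
      mx w D q x * nop q w m * (ch z1 Z1 (x * m) * f (x * m * a))| ≤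
      w * ((K * Real.log N + 1) * (Dd * Dd * B2)) + Dd * (Dd * Dd) * B2' + 6 * (F * Dd * Dd * N) / K := by
  have e1 : ∑ a ∈ Icc 1 N, R1 w D N a * ∑ q ∈ (Icc 1 w).filter Nat.Prime, ∑ x ∈ Icc 1 N, ∑ m ∈ Icc 1 N,
      mx w D q x * nop q w m * (ch z1 Z1 (x * m) * f (x * m * a)) =
      ∑ q ∈ (Icc 1 w).filter Nat.Prime, ∑ x ∈ Icc 1 N, ∑ m ∈ Icc 1 N, ∑ a ∈ Icc 1 N,
        mx w D q x * (nop q w m * R1 w D N a) * win z1 Z1 ((x : ℝ) * m) * f (x * m * a) := by
    simp only [mul_sum]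
    rw [sum_comm]
    refine sum_congr rfl fun q _ => ?_
    rw [sum_comm]
    refine sum_congr rfl fun x _ => ?_
    rw [sum_comm]
    refine sum_congr rfl fun m _ => sum_congr rfl fun a _ => ?_
    unfold ch
    push_cast
    ring
  rw [e1]
  have hDd := h.hDd.one_le h.hN
  have hB2 := h.H2.nonneg
  have := tri_win h.H2 h.f1 h.hF h.hDd h.hN h.hK (y1 := z1) (y2 := Z1) (Or.inl (by exact_mod_cast h.hKz))
      (Or.inl (by exact_mod_cast h.hKZ)) ((Icc 1 w).filter Nat.Prime) (β := mx w D) (u := fun q => nop q w)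
      (v := R1 w D N) (A := Dd) (by linarith) (abs_mx_le w D) (fun q hq x hx => mx_P hq hx)
      (fun q n => abs_nop_le q w n) (abs_R1_le h.hDd h.hN) (fun b hb => mx_mult h.hDd hb)
  refine this.trans (add_le_add (add_le_add ?_ le_rfl) le_rfl)
  have h1 : (0 : ℝ) ≤ (K * Real.log N + 1) * (Dd * Dd * B2) := by
    have := Real.log_nonneg (show (1 : ℝ) ≤ N by exact_mod_cast h.hN)
    positivity
  exact mul_le_mul_of_nonneg_right (card_q w) h1

/-- both rough. -/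
lemma Inp.S11 (h : Inp f N0 N w z z1 Z1 D K F Dd B1 B1' B2 B2' B3 B4) :
    |∑ b ∈ Icc 1 N, ∑ a ∈ Icc 1 N, rho w a * (rho w b * ch z1 Z1 b * f (a * b))| ≤
      w * (Dd * B2) + Dd * Dd * B2' + (B4 +
      (w * ((K * Real.log N + 1) * (Dd * Dd * B2)) + Dd * (Dd * Dd) * B2' + 6 * (F * Dd * Dd * N) / K)) := by
  have e1 : ∑ b ∈ Icc 1 N, ∑ a ∈ Icc 1 N, rho w a * (rho w b * ch z1 Z1 b * f (a * b)) =
      ∑ b ∈ Icc 1 N, (rho w b * ch z1 Z1 b) * ∑ q ∈ (Icc 1 w).filter Nat.Prime, ∑ x ∈ Icc 1 N, ∑ m ∈ Icc 1 N,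
        mx w D q x * nop q w m * f (x * m * b) +
      ∑ b ∈ Icc 1 N, ∑ a ∈ Icc 1 N, R1 w D N a * (rho w b * ch z1 Z1 b * f (a * b)) := by
    rw [← sum_add_distrib]
    refine sum_congr rfl fun b hb => ?_
    rw [mem_Icc] at hb
    have h1 := sum_rho h.f1 (w := w) (D := D) h.hD hb.1
    have h2 := conv_fst h.f1 hb.1 (fun d _ => md w D d) (fun _ => 1)
    simp only [one_mul] at h2
    have h3 : ∑ a ∈ Icc 1 N, rho w a * (rho w b * ch z1 Z1 b * f (a * b)) =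
        (rho w b * ch z1 Z1 b) * ∑ a ∈ Icc 1 N, rho w a * f (a * b) := by
      rw [mul_sum]
      refine sum_congr rfl fun a _ => by ring
    have h4 : ∑ a ∈ Icc 1 N, R1 w D N a * (rho w b * ch z1 Z1 b * f (a * b)) =
        (rho w b * ch z1 Z1 b) * ∑ n ∈ Icc 1 N, (∑ x ∈ n.divisorsAntidiagonal, md w D x.1) * f (n * b) := by
      rw [mul_sum]
      refine sum_congr rfl fun a ha => ?_
      unfold R1
      rw [if_pos ha]
      ring
    rw [h3, h4, h1, h2]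
    ring
  rw [e1]
  refine (abs_add_le _ _).trans (add_le_add ?_ ?_)
  · apply h.S11b
    intro n
    rw [abs_mul]
    exact mul_le_one₀ (abs_rho_le w n) (abs_nonneg _) (abs_ch_le z1 Z1 n)
  · have e2 : ∑ b ∈ Icc 1 N, ∑ a ∈ Icc 1 N, R1 w D N a * (rho w b * ch z1 Z1 b * f (a * b)) =
        ∑ a ∈ Icc 1 N, R1 w D N a * ∑ d ∈ Icc 1 N, ∑ m ∈ Icc 1 N,
          md w D d * (ch z1 Z1 (d * m) * f (d * m * a)) +
        ∑ a ∈ Icc 1 N, R1 w D N a * ∑ q ∈ (Icc 1 w).filter Nat.Prime, ∑ x ∈ Icc 1 N, ∑ m ∈ Icc 1 N,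
          mx w D q x * nop q w m * (ch z1 Z1 (x * m) * f (x * m * a)) := by
      rw [sum_comm, ← sum_add_distrib]
      refine sum_congr rfl fun a ha => ?_
      rw [mem_Icc] at ha
      rw [← mul_add, ← sum_rho' h.f1 h.hD ha.1 (ch z1 Z1), mul_sum]
      refine sum_congr rfl fun b _ => ?_
      rw [mul_comm a b]
      ring
    rw [e2]
    exact (abs_add_le _ _).trans (add_le_add h.S11aa h.S11ab)

/-- the pairs. -/
lemma Inp.T2 (h : Inp f N0 N w z z1 Z1 D K F Dd B1 B1' B2 B2' B3 B4) :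
    |∑ n ∈ Icc 1 N, (∑ x ∈ n.divisorsAntidiagonal, pr x.1 * pw z1 Z1 x.2) * f n| ≤
      (w * (Dd * B2) + Dd * Dd * B2' + (B4 +
      (w * ((K * Real.log N + 1) * (Dd * Dd * B2)) + Dd * (Dd * Dd) * B2' + 6 * (F * Dd * Dd * N) / K))) +
      ((K * Real.log N + 1) * (Dd * B1) + Dd * Dd * B1' + 6 * (F * Dd * N) / K + F * Dd * (N / w)) +
      (Dd * B1 + Dd * Dd * B1' + F * Dd * (N / w)) := by
  rw [← conv h.f1 (fun a b => pr a * pw z1 Z1 b), sum_comm]
  obtain ⟨hw, hwz, hzz, a1, a2, a3, a4, a5⟩ := h.par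
  have key : ∀ b ∈ Icc 1 N, ∀ a ∈ Icc 1 N, pr a * pw z1 Z1 b * f (a * b) =
      rho w a * (rho w b * ch z1 Z1 b * f (a * b)) - cc w z b * (ch z1 Z1 b * (rho w a * f (b * a))) -
      cc w z a * (pw z1 Z1 b * f (a * b)) := by
    intro b _ a _
    by_cases hf : f (a * b) = 0
    · rw [mul_comm b a, hf]
      ring
    · by_cases hb : z1 < b ∧ b < Z1
      · have h1 : N0 ≤ a * b := by
          by_contra h2
          exact hf (h.f0 _ (by omega))
        have h2 : a * b ≤ N := by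
          by_contra h2
          exact hf (h.f1 _ (by omega))
        have h3 : z < a := by
          by_contra h4
          push Not at h4
          have : a * b < z * Z1 := by
            calc a * b ≤ z * b := Nat.mul_le_mul_right _ h4
              _ < z * Z1 := Nat.mul_lt_mul_of_pos_left hb.2 (by omega)
          omega
        have h4 : a < Z1 := by
          by_contra h5
          push Not at h5
          have : z1 * Z1 < a * b := by
            calc z1 * Z1 < b * Z1 := Nat.mul_lt_mul_of_pos_right hb.1 (by omega)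
              _ ≤ b * a := Nat.mul_le_mul_left _ h5
              _ = a * b := mul_comm _ _
          omega
        have h5 := pr_eq hwz h3 (lt_of_lt_of_le h4 a4) hw
        have h6 := pr_eq (w := w) (z := z) (n := b) hwz (by omega) (lt_of_lt_of_le hb.2 a4) hw
        have h7 : pw z1 Z1 b = pr b := by
          unfold pw pr
          by_cases hb' : b.Prime
          · rw [if_pos hb', if_pos ⟨hb', hb⟩]
          · rw [if_neg hb', if_neg (by tauto)]
        have h8 : ch z1 Z1 b = 1 := by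
          unfold ch win
          rw [if_pos]
          exact ⟨by exact_mod_cast hb.1, by exact_mod_cast hb.2⟩
        have h9 : pr a * pw z1 Z1 b * f (a * b) = rho w a * (pw z1 Z1 b * f (a * b)) -
            cc w z a * (pw z1 Z1 b * f (a * b)) := by
          rw [h5]
          ring
        rw [h9, h8, h7, h6, mul_comm b a]
        ring
      · have h7 : pw z1 Z1 b = 0 := by
          unfold pw
          rw [if_neg (by tauto)]
        have h8 : ch z1 Z1 b = 0 := by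
          unfold ch win
          rw [if_neg]
          rintro ⟨h9, h10⟩
          exact hb ⟨by exact_mod_cast h9, by exact_mod_cast h10⟩
        rw [h7, h8]
        ring
  have e1 : ∑ b ∈ Icc 1 N, ∑ a ∈ Icc 1 N, pr a * pw z1 Z1 b * f (a * b) =
      ∑ b ∈ Icc 1 N, ∑ a ∈ Icc 1 N, rho w a * (rho w b * ch z1 Z1 b * f (a * b)) -
      ∑ a ∈ Icc 1 N, ∑ b ∈ Icc 1 N, cc w z b * (ch z1 Z1 b * (rho w a * f (b * a))) -
      ∑ b ∈ Icc 1 N, ∑ a ∈ Icc 1 N, cc w z a * (pw z1 Z1 b * f (a * b)) := by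
    rw [sum_comm (s := Icc 1 N) (t := Icc 1 N)
      (f := fun a b => cc w z b * (ch z1 Z1 b * (rho w a * f (b * a)))), ← sum_sub_distrib, ← sum_sub_distrib]
    refine sum_congr rfl fun b hb => ?_
    rw [← sum_sub_distrib, ← sum_sub_distrib]
    exact sum_congr rfl fun a ha => key b hb a ha
  rw [e1]
  have s1 := h.S11
  have s2 := h.S12 (v := rho w) (abs_rho_le w)
  have s3 := h.S2 (v := pw z1 Z1) (abs_pw_le z1 Z1)
  refine (abs_sub _ _).trans (add_le_add ((abs_sub _ _).trans (add_le_add s1 s2)) s3)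

/-- **Decomposition of the primes for an arbitrary function.** -/
theorem prime_sum (h : Inp f N0 N w z z1 Z1 D K F Dd B1 B1' B2 B2' B3 B4) :
    |∑ n ∈ Icc 1 N, pr n * f n| ≤ 4 * (K * Real.log N + 1) * Dd * B1 + 4 * Dd ^ 2 * B1' +
      2 * w * (K * Real.log N + 1) * Dd ^ 2 * B2 + 2 * Dd ^ 3 * B2' + B3 + B4 +
      6 * F * Dd ^ 2 * N * (1 / w + 1 / K) := by
  have e : ∑ n ∈ Icc 1 N, pr n * f n = ∑ n ∈ Icc 1 N, rho w n * f n - ∑ n ∈ Icc 1 N, cc w z n * f n -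
      (1 / 2) * ∑ n ∈ Icc 1 N, (∑ x ∈ n.divisorsAntidiagonal, pr x.1 * pw z1 Z1 x.2) * f n -
      (1 / 2) * ∑ n ∈ Icc 1 N, ps n * f n -
      ∑ n ∈ Icc 1 N, (∑ x ∈ n.divisorsAntidiagonal, pz z z1 x.1 * pg z1 x.2) * f n +
      (1 / 2) * ∑ n ∈ Icc 1 N, (∑ x ∈ n.divisorsAntidiagonal, pz z z1 x.1 * pw z1 Z1 x.2) * f n := by
    rw [mul_sum, mul_sum, mul_sum, ← sum_sub_distrib, ← sum_sub_distrib, ← sum_sub_distrib, ← sum_sub_distrib,
      ← sum_add_distrib]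
    refine sum_congr rfl fun n hn => ?_
    rw [mem_Icc] at hn
    by_cases h0 : n < N0
    · rw [h.f0 n h0]
      ring
    · rw [point h.par (by omega) hn.2]
      ring
  have t0 := h.T0
  have t1 := h.T1
  have t2 := h.T2
  have t3 := h.T3 (v := pg z1) (abs_pg_le z1)
  have t4 := h.T3 (v := pw z1 Z1) (abs_pw_le z1 Z1)
  have t5 := h.T5
  have hDd := h.hDd.one_le h.hN
  have b1 := h.H1.nonneg
  have b2 := h.H2.nonneg
  have b1' := h.H1.nonneg'
  have b2' := h.H2.nonneg'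
  have b3 := h.B30
  have b4 := h.B40
  have hF := h.F0
  have hlog := Real.log_nonneg (show (1 : ℝ) ≤ N by exact_mod_cast h.hN)
  have hw : (1 : ℝ) ≤ w := by exact_mod_cast h.par.hw
  have hK : (1 : ℝ) ≤ K := by exact_mod_cast h.hK
  set J : ℝ := K * Real.log N + 1 with hJ
  have hJ1 : 1 ≤ J := by
    have : 0 ≤ (K : ℝ) * Real.log N := by positivity
    linarith
  rw [e]
  set X0 := ∑ n ∈ Icc 1 N, rho w n * f n
  set X1 := ∑ n ∈ Icc 1 N, cc w z n * f n
  set X2 := ∑ n ∈ Icc 1 N, (∑ x ∈ n.divisorsAntidiagonal, pr x.1 * pw z1 Z1 x.2) * f n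
  set X5 := ∑ n ∈ Icc 1 N, ps n * f n
  set X3 := ∑ n ∈ Icc 1 N, (∑ x ∈ n.divisorsAntidiagonal, pz z z1 x.1 * pg z1 x.2) * f n
  set X4 := ∑ n ∈ Icc 1 N, (∑ x ∈ n.divisorsAntidiagonal, pz z z1 x.1 * pw z1 Z1 x.2) * f n
  have hsum : |X0 - X1 - (1 / 2) * X2 - (1 / 2) * X5 - X3 + (1 / 2) * X4| ≤
      |X0| + |X1| + (1 / 2) * |X2| + (1 / 2) * |X5| + |X3| + (1 / 2) * |X4| := by
    have c0 := abs_le.mp (le_refl |X0|)
    have c1 := abs_le.mp (le_refl |X1|)
    have c2 := abs_le.mp (le_refl |X2|)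
    have c3 := abs_le.mp (le_refl |X3|)
    have c4 := abs_le.mp (le_refl |X4|)
    have c5 := abs_le.mp (le_refl |X5|)
    rw [abs_le]
    constructor <;> linarith [c0.1, c0.2, c1.1, c1.2, c2.1, c2.2, c3.1, c3.2, c4.1, c4.2, c5.1, c5.2]
  refine hsum.trans ?_
  have hfin : |X0| + |X1| + (1 / 2) * |X2| + (1 / 2) * |X5| + |X3| + (1 / 2) * |X4| ≤
      (B3 + (w * B2 + Dd * B2')) + (B1 + Dd * B1' + F * (N / w)) +
      (1 / 2) * ((w * (Dd * B2) + Dd * Dd * B2' + (B4 +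
      (w * (J * (Dd * Dd * B2)) + Dd * (Dd * Dd) * B2' + 6 * (F * Dd * Dd * N) / K))) +
      (J * (Dd * B1) + Dd * Dd * B1' + 6 * (F * Dd * N) / K + F * Dd * (N / w)) +
      (Dd * B1 + Dd * Dd * B1' + F * Dd * (N / w))) + (1 / 2) * (F * (N / w)) + (B1 + Dd * B1') +
      (1 / 2) * (B1 + Dd * B1') := by
    gcongr
  refine hfin.trans ?_
  have hNw : 0 ≤ F * (N / w) := by positivity
  have hNK : 0 ≤ F * (N / K) := by positivity
  have hDd0 : 0 ≤ Dd := by linarith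
  have hD2 : Dd ≤ Dd ^ 2 := by
    have := pow_le_pow_right₀ hDd (show 1 ≤ 2 by norm_num)
    rwa [pow_one] at this
  have hD3 : 1 ≤ Dd ^ 2 := by linarith
  have hDJ' : Dd ≤ J * Dd ^ 2 := hD2.trans (le_mul_of_one_le_left (by positivity) hJ1)
  have hDJ : 1 ≤ J * Dd ^ 2 := hDd.trans hDJ'
  have hwB : 0 ≤ (w : ℝ) * B2 := by positivity
  have g1 : Dd * B1 ≤ J * Dd * B1 := by
    have h1 : 0 ≤ Dd * B1 := by positivity
    calc Dd * B1 = 1 * (Dd * B1) := by ring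
      _ ≤ J * (Dd * B1) := mul_le_mul_of_nonneg_right hJ1 h1
      _ = J * Dd * B1 := by ring
  have g2 : B1 ≤ J * Dd * B1 := by
    refine le_trans ?_ g1
    exact le_mul_of_one_le_left b1 hDd
  have g3 : w * B2 ≤ w * J * Dd ^ 2 * B2 := by
    calc (w : ℝ) * B2 = (w * B2) * 1 := by ring
      _ ≤ (w * B2) * (J * Dd ^ 2) := mul_le_mul_of_nonneg_left hDJ hwB
      _ = w * J * Dd ^ 2 * B2 := by ring
  have g4 : w * (Dd * B2) ≤ w * J * Dd ^ 2 * B2 := by
    calc (w : ℝ) * (Dd * B2) = (w * B2) * Dd := by ring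
      _ ≤ (w * B2) * (J * Dd ^ 2) := mul_le_mul_of_nonneg_left hDJ' hwB
      _ = w * J * Dd ^ 2 * B2 := by ring
  have g5 : F * (N / w) ≤ Dd ^ 2 * (F * (N / w)) := le_mul_of_one_le_left hNw hD3
  have g6 : F * Dd * (N / w) ≤ Dd ^ 2 * (F * (N / w)) := by
    calc F * Dd * (N / w) = Dd * (F * (N / w)) := by ring
      _ ≤ Dd ^ 2 * (F * (N / w)) := mul_le_mul_of_nonneg_right hD2 hNw
  have g7 : 6 * (F * Dd * N) / K ≤ 6 * (Dd ^ 2 * (F * (N / K))) := by
    calc 6 * (F * Dd * N) / K = 6 * (Dd * (F * (N / K))) := by ring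
      _ ≤ 6 * (Dd ^ 2 * (F * (N / K))) :=
        mul_le_mul_of_nonneg_left (mul_le_mul_of_nonneg_right hD2 hNK) (by norm_num)
  have hD5 : Dd ^ 2 ≤ Dd ^ 3 := pow_le_pow_right₀ hDd (by norm_num)
  have hD4 : Dd ≤ Dd ^ 3 := hD2.trans hD5
  have p1 : Dd * B1' ≤ Dd ^ 2 * B1' := mul_le_mul_of_nonneg_right hD2 b1'
  have p2 : Dd * B2' ≤ Dd ^ 3 * B2' := mul_le_mul_of_nonneg_right hD4 b2'
  have p3 : Dd ^ 2 * B2' ≤ Dd ^ 3 * B2' := mul_le_mul_of_nonneg_right hD5 b2'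
  have q1 : Dd * Dd * B1' = Dd ^ 2 * B1' := by ring
  have q2 : Dd * Dd * B2' = Dd ^ 2 * B2' := by ring
  have q3 : Dd * (Dd * Dd) * B2' = Dd ^ 3 * B2' := by ring
  have k1 : (w : ℝ) * (J * (Dd * Dd * B2)) = w * J * Dd ^ 2 * B2 := by ring
  have k2 : 6 * (F * Dd * Dd * N) / K = 6 * (Dd ^ 2 * (F * (N / K))) := by ring
  have k3 : 4 * J * Dd * B1 = 4 * (J * Dd * B1) := by ring
  have k4 : 2 * w * J * Dd ^ 2 * B2 = 2 * (w * J * Dd ^ 2 * B2) := by ring
  have k6 : 6 * F * Dd ^ 2 * N * (1 / w + 1 / K) = 6 * (Dd ^ 2 * (F * (N / w))) + 6 * (Dd ^ 2 * (F * (N / K))) := by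
    ring
  have k7 : J * (Dd * B1) = J * Dd * B1 := by ring
  rw [k1, k2, k3, k4, k6, k7, q1, q2, q3]
  have g9 : 0 ≤ w * J * Dd ^ 2 * B2 := by positivity
  have g10 : 0 ≤ Dd ^ 2 * (F * (N / w)) := by positivity
  have g11 : 0 ≤ J * Dd * B1 := by positivity
  have g12 : 0 ≤ Dd ^ 2 * B1' := by positivity
  have g13 : 0 ≤ Dd ^ 3 * B2' := by positivity
  have k8 : 4 * Dd ^ 2 * B1' = 4 * (Dd ^ 2 * B1') := by ring
  have k9 : 2 * Dd ^ 3 * B2' = 2 * (Dd ^ 3 * B2') := by ring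
  rw [k8, k9]
  linarith

end main

end Pool.Agent.Helper25.AP
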