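import Pool.Agent.Helper25.AP.D6

/-!
# AP: decomposition of the primes, 7: windows in `n`, from rectangles
-/

set_option autoImplicit false

open Finset
open scoped Classical

namespace Pool.Agent.Helper25.AP

/-- the right end of a class. -/
noncomputable def rt (K j : ℕ) : ℝ := Real.exp (((j : ℝ) + 1) / K)

lemma rt_pos (K j : ℕ) : 0 < rt K j := Real.exp_pos _

lemma rt_eq (K j : ℕ) : rt K j = Real.exp ((j : ℝ) / K) * Real.exp (1 / K) := by
  unfold rt
  rw [← Real.exp_add, add_div]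

/-- the left end of a class. -/
noncomputable def le0 (K j : ℕ) : ℕ := ⌈Real.exp ((j : ℝ) / K)⌉₊ - 1

/-- the class `j` is `(le0 j, le0 (j+1)]`. -/
lemma cls_eq_iff {K l j : ℕ} (hK : 1 ≤ K) (hl : 1 ≤ l) : cls K l = j ↔ le0 K j < l ∧ l ≤ le0 K (j + 1) := by
  have hK' : (0 : ℝ) < K := by exact_mod_cast hK
  have hl' : (0 : ℝ) < l := by exact_mod_cast hl
  have h0 : 0 ≤ (K : ℝ) * Real.log l := by
    have : 0 ≤ Real.log l := Real.log_nonneg (by exact_mod_cast hl)
    positivity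
  have e1 : le0 K j < l ↔ (j : ℝ) ≤ K * Real.log l := by
    unfold le0
    have h1 : 1 ≤ ⌈Real.exp ((j : ℝ) / K)⌉₊ := Nat.one_le_ceil_iff.mpr (Real.exp_pos _)
    have h2 : ⌈Real.exp ((j : ℝ) / K)⌉₊ - 1 < l ↔ ⌈Real.exp ((j : ℝ) / K)⌉₊ ≤ l := by omega
    rw [h2, Nat.ceil_le, ← Real.le_log_iff_exp_le hl', div_le_iff₀ hK', mul_comm]
  have e2 : l ≤ le0 K (j + 1) ↔ K * Real.log l < (j : ℝ) + 1 := by
    unfold le0
    have h1 : 1 ≤ ⌈Real.exp (((j + 1 : ℕ) : ℝ) / K)⌉₊ := Nat.one_le_ceil_iff.mpr (Real.exp_pos _)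
    have h2 : l ≤ ⌈Real.exp (((j + 1 : ℕ) : ℝ) / K)⌉₊ - 1 ↔ l < ⌈Real.exp (((j + 1 : ℕ) : ℝ) / K)⌉₊ := by omega
    rw [h2, Nat.lt_ceil, ← Real.log_lt_iff_lt_exp hl', lt_div_iff₀ hK', mul_comm]
    push_cast
    rfl
  rw [e1, e2]
  unfold cls
  rw [Nat.floor_eq_iff h0]

lemma lt_rt {K l : ℕ} (hK : 1 ≤ K) (hl : 1 ≤ l) : (l : ℝ) < rt K (cls K l) := by
  rw [rt_eq]
  exact lt_cls hK hl

lemma rt_le {K l : ℕ} (hK : 1 ≤ K) (hl : 1 ≤ l) : rt K (cls K l) ≤ l * Real.exp (1 / K) := by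
  rw [rt_eq]
  exact mul_le_mul_of_nonneg_right (cls_le hK hl) (Real.exp_pos _).le

lemma le0_lt (K j : ℕ) : (le0 K (j + 1) : ℝ) < rt K j := by
  unfold le0 rt
  have h1 : 1 ≤ ⌈Real.exp (((j + 1 : ℕ) : ℝ) / K)⌉₊ := Nat.one_le_ceil_iff.mpr (Real.exp_pos _)
  have h2 := Nat.ceil_lt_add_one (Real.exp_pos (((j + 1 : ℕ) : ℝ) / K)).le
  rw [Nat.cast_sub h1]
  push_cast at h2 ⊢
  linarith

lemma le0_mono (K : ℕ) (j : ℕ) : le0 K j ≤ le0 K (j + 1) := by
  unfold le0
  apply Nat.sub_le_sub_right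
  apply Nat.ceil_mono
  apply Real.exp_le_exp.mpr
  push_cast
  apply div_le_div_of_nonneg_right _ (Nat.cast_nonneg K)
  linarith

/-- classes are short. -/
lemma le0_short {K : ℕ} (hK : 2 ≤ K) (j : ℕ) : le0 K (j + 1) ≤ 2 * le0 K j + 1 := by
  have hK' : (2 : ℝ) ≤ K := by exact_mod_cast hK
  have h1 := le0_lt K j
  have h2 : Real.exp (1 / (K : ℝ)) ≤ 2 := by
    have h3 : (1 : ℝ) / K ≤ Real.log 2 := by
      have h4 : (1 : ℝ) / K ≤ 1 / 2 := one_div_le_one_div_of_le (by norm_num) hK'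
      have := Real.log_two_gt_d9
      linarith
    calc Real.exp (1 / (K : ℝ)) ≤ Real.exp (Real.log 2) := Real.exp_le_exp.mpr h3
      _ = 2 := Real.exp_log (by norm_num)
  have h5 : Real.exp ((j : ℝ) / K) ≤ (le0 K j : ℝ) + 1 := by
    unfold le0
    have h6 : 1 ≤ ⌈Real.exp ((j : ℝ) / K)⌉₊ := Nat.one_le_ceil_iff.mpr (Real.exp_pos _)
    rw [Nat.cast_sub h6]
    have := Nat.le_ceil (Real.exp ((j : ℝ) / K))
    push_cast
    linarith
  rw [rt_eq] at h1
  have h7 : (le0 K (j + 1) : ℝ) < 2 * ((le0 K j : ℝ) + 1) := by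
    have h8 := Real.exp_pos ((j : ℝ) / K)
    nlinarith
  have h9 : le0 K (j + 1) < 2 * (le0 K j + 1) := by exact_mod_cast h7
  omega

/-- near `y`, on the left. -/
noncomputable def nl (K : ℕ) (y : ℕ) (n : ℕ) : ℝ :=
  if (y : ℝ) * Real.exp (-(1 / K)) < n ∧ n ≤ y then 1 else 0

lemma nl_nonneg (K y n : ℕ) : 0 ≤ nl K y n := by unfold nl; split_ifs <;> norm_num

lemma sum_nl {K y N : ℕ} (hK : 1 ≤ K) (hy : y ≤ N) : ∑ n ∈ Icc 1 N, nl K y n ≤ N / K + 1 := by
  have hK' : (0 : ℝ) < K := by exact_mod_cast hK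
  unfold nl
  rw [← sum_filter, sum_const, nsmul_eq_mul, mul_one]
  have hE : Real.exp (-(1 / (K : ℝ))) ≤ 1 := Real.exp_le_one_iff.mpr (by rw [neg_nonpos]; positivity)
  have hE0 := Real.exp_pos (-(1 / (K : ℝ)))
  have h1 : (Icc 1 N).filter (fun n : ℕ => (y : ℝ) * Real.exp (-(1 / K)) < n ∧ n ≤ y) ⊆
      Ioc ⌊(y : ℝ) * Real.exp (-(1 / K))⌋₊ y := by
    intro n hn
    rw [mem_filter, mem_Icc] at hn
    rw [mem_Ioc]
    exact ⟨(Nat.floor_lt' (by omega)).mpr hn.2.1, hn.2.2⟩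
  have h2 := card_le_card h1
  rw [Nat.card_Ioc] at h2
  have h3 : ⌊(y : ℝ) * Real.exp (-(1 / K))⌋₊ ≤ y := by
    apply Nat.floor_le_of_le
    have : (0 : ℝ) ≤ y := Nat.cast_nonneg y
    nlinarith
  have h4 : (((Icc 1 N).filter (fun n : ℕ => (y : ℝ) * Real.exp (-(1 / K)) < n ∧ n ≤ y)).card : ℝ) ≤
      (y : ℝ) - ⌊(y : ℝ) * Real.exp (-(1 / K))⌋₊ := by
    rw [← Nat.cast_sub h3]
    exact_mod_cast h2
  have h5 := Nat.lt_floor_add_one ((y : ℝ) * Real.exp (-(1 / K)))
  have h6 : 1 - 1 / (K : ℝ) ≤ Real.exp (-(1 / (K : ℝ))) := by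
    have := Real.add_one_le_exp (-(1 / (K : ℝ)))
    linarith
  have h7 : (y : ℝ) - y * Real.exp (-(1 / (K : ℝ))) ≤ N / K := by
    have h8 : (y : ℝ) * (1 - 1 / K) ≤ y * Real.exp (-(1 / (K : ℝ))) := mul_le_mul_of_nonneg_left h6 (Nat.cast_nonneg y)
    have h9 : (y : ℝ) / K ≤ N / K := div_le_div_of_nonneg_right (by exact_mod_cast hy) hK'.le
    have h10 : (y : ℝ) * (1 - 1 / K) = y - y / K := by ring
    linarith
  linarith

/-- the window. -/
noncomputable def wn (N₁ N : ℕ) (x : ℝ) : ℝ := if (N₁ : ℝ) < x ∧ x ≤ N then 1 else 0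

lemma wn_nonneg (N₁ N : ℕ) (x : ℝ) : 0 ≤ wn N₁ N x := by unfold wn; split_ifs <;> norm_num
lemma wn_le_one (N₁ N : ℕ) (x : ℝ) : wn N₁ N x ≤ 1 := by unfold wn; split_ifs <;> norm_num

/-- comparison of windows. -/
lemma wn_sub_le {N₁ N K : ℕ} {x : ℕ} {y : ℝ} (h1 : (x : ℝ) ≤ y) (h2 : y ≤ x * Real.exp (1 / K)) :
    |wn N₁ N x - wn N₁ N y| ≤ nl K N₁ x + nl K N x := by
  have hE0 := Real.exp_pos (-(1 / (K : ℝ)))
  have h3 : y * Real.exp (-(1 / (K : ℝ))) ≤ x := by
    have : (x : ℝ) = x * Real.exp (1 / (K : ℝ)) * Real.exp (-(1 / (K : ℝ))) := by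
      rw [mul_assoc, ← Real.exp_add, add_neg_cancel, Real.exp_zero, mul_one]
    rw [this]
    exact mul_le_mul_of_nonneg_right h2 hE0.le
  by_cases a : (N₁ : ℝ) < x ∧ (x : ℝ) ≤ N
  · by_cases b : (N₁ : ℝ) < y ∧ y ≤ N
    · unfold wn
      rw [if_pos a, if_pos b, sub_self, abs_zero]
      exact add_nonneg (nl_nonneg _ _ _) (nl_nonneg _ _ _)
    · have hy : (N : ℝ) < y := by
        by_contra h
        push Not at h
        exact b ⟨lt_of_lt_of_le a.1 h1, h⟩
      have h4 : nl K N x = 1 := by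
        unfold nl
        rw [if_pos]
        refine ⟨lt_of_lt_of_le (mul_lt_mul_of_pos_right hy hE0) h3, by exact_mod_cast a.2⟩
      have h5 : |wn N₁ N x - wn N₁ N y| ≤ 1 := by
        rw [abs_le]
        constructor <;> linarith [wn_nonneg N₁ N x, wn_nonneg N₁ N y, wn_le_one N₁ N x, wn_le_one N₁ N y]
      have := nl_nonneg K N₁ x
      linarith
  · by_cases b : (N₁ : ℝ) < y ∧ y ≤ N
    · have hx : (x : ℝ) ≤ N₁ := by
        by_contra h
        push Not at h
        exact a ⟨h, h1.trans b.2⟩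
      have h4 : nl K N₁ x = 1 := by
        unfold nl
        rw [if_pos]
        refine ⟨lt_of_lt_of_le (mul_lt_mul_of_pos_right b.1 hE0) h3, by exact_mod_cast hx⟩
      have h5 : |wn N₁ N x - wn N₁ N y| ≤ 1 := by
        rw [abs_le]
        constructor <;> linarith [wn_nonneg N₁ N x, wn_nonneg N₁ N y, wn_le_one N₁ N x, wn_le_one N₁ N y]
      have := nl_nonneg K N x
      linarith
    · unfold wn
      rw [if_neg a, if_neg b, sub_self, abs_zero]
      exact add_nonneg (nl_nonneg _ _ _) (nl_nonneg _ _ _)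

/-- sums over rectangles. -/
def Rect (P : ℕ → Prop) (F : ℕ → ℝ) (N₁ N : ℕ) (E : ℝ) : Prop :=
  ∀ (α β : ℕ → ℝ) (M L M₀ L₀ : ℕ), (∀ m, |α m| ≤ 1) → (∀ l, |β l| ≤ 1) → (∀ l, β l ≠ 0 → P l) → M₀ ≤ M → L₀ ≤ L →
    L ≤ 2 * L₀ + 1 → M * L ≤ N → N₁ < 3 * (M * L) →
    |∑ m ∈ Ioc M₀ M, ∑ l ∈ Ioc L₀ L, α m * β l * F (m * l)| ≤ E

/-- the windowed function. -/
noncomputable def wf (N₁ N : ℕ) (F : ℕ → ℝ) (n : ℕ) : ℝ := wn N₁ N n * F n

lemma wf_of_gt {N₁ N : ℕ} {F : ℕ → ℝ} {n : ℕ} (h : N < n) : wf N₁ N F n = 0 := by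
  unfold wf wn
  rw [if_neg, zero_mul]
  rintro ⟨_, h2⟩
  have : n ≤ N := by exact_mod_cast h2
  omega

/-- the error function. -/
noncomputable def er (K N₁ N : ℕ) (F : ℕ → ℝ) (n : ℕ) : ℝ := (nl K N₁ n + nl K N n) * |F n|

lemma er_nonneg (K N₁ N : ℕ) (F : ℕ → ℝ) (n : ℕ) : 0 ≤ er K N₁ N F n :=
  mul_nonneg (add_nonneg (nl_nonneg _ _ _) (nl_nonneg _ _ _)) (abs_nonneg _)

lemma er_of_gt {K N₁ N : ℕ} {F : ℕ → ℝ} (hN : N₁ ≤ N) {n : ℕ} (h : N < n) : er K N₁ N F n = 0 := by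
  unfold er nl
  rw [if_neg, if_neg]
  · simp
  · rintro ⟨_, h2⟩; omega
  · rintro ⟨_, h2⟩; omega

lemma exp_half {K : ℕ} (hK : 2 ≤ K) : 1 / 3 ≤ Real.exp (-(1 / (K : ℝ))) := by
  have hK' : (2 : ℝ) ≤ K := by exact_mod_cast hK
  have h1 : 1 / (K : ℝ) ≤ 1 / 2 := one_div_le_one_div_of_le (by norm_num) hK'
  have := Real.add_one_le_exp (-(1 / (K : ℝ)))
  linarith

lemma sum_er {K N₁ N : ℕ} {F : ℕ → ℝ} {Fm : ℝ} (hK : 2 ≤ K) (hN : N₁ ≤ N) (hKN : K ≤ N)
    (hF : ∀ n : ℕ, N₁ < 3 * n → n ≤ N → |F n| ≤ Fm) (hFm : 0 ≤ Fm) :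
    ∑ n ∈ Icc 1 N, er K N₁ N F n ≤ 4 * Fm * N / K := by
  have hK' : (0 : ℝ) < K := by exact_mod_cast (show 0 < K by omega)
  have h1 : ∀ n ∈ Icc 1 N, er K N₁ N F n ≤ Fm * (nl K N₁ n + nl K N n) := by
    intro n hn
    rw [mem_Icc] at hn
    unfold er
    by_cases h : N₁ < 3 * n
    · rw [mul_comm]
      exact mul_le_mul_of_nonneg_right (hF n h hn.2) (add_nonneg (nl_nonneg _ _ _) (nl_nonneg _ _ _))
    · have h2 : ∀ y : ℕ, N₁ ≤ y → nl K y n = 0 := by
        intro y hy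
        unfold nl
        rw [if_neg]
        rintro ⟨h3, _⟩
        have h4 := exp_half hK
        have h5 : (y : ℝ) * (1 / 3) ≤ y * Real.exp (-(1 / (K : ℝ))) := mul_le_mul_of_nonneg_left h4 (Nat.cast_nonneg y)
        have h6 : (N₁ : ℝ) ≤ y := by exact_mod_cast hy
        have h7 : (N₁ : ℝ) < 3 * n := by linarith
        exact h (by exact_mod_cast h7)
      rw [h2 N₁ le_rfl, h2 N hN]
      simp
  refine (sum_le_sum h1).trans ?_
  rw [← mul_sum, sum_add_distrib]
  have h2 := sum_nl (K := K) (y := N₁) (N := N) (by omega) hN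
  have h3 := sum_nl (K := K) (y := N) (N := N) (by omega) le_rfl
  have h4 : (1 : ℝ) ≤ N / K := by
    rw [le_div_iff₀ hK', one_mul]
    exact_mod_cast hKN
  calc Fm * _ ≤ Fm * (4 * (N / K)) := mul_le_mul_of_nonneg_left (by linarith) hFm
    _ = 4 * Fm * N / K := by ring

/-- **from rectangles to the window.** -/
theorem hyp_of_rect {P : ℕ → Prop} {F : ℕ → ℝ} {N₁ N K : ℕ} {E Fm : ℝ} (hK : 2 ≤ K) (hKN : K ≤ N) (hN : N₁ ≤ N)
    (hF : ∀ n : ℕ, N₁ < 3 * n → n ≤ N → |F n| ≤ Fm) (hFm : 0 ≤ Fm) (hE : 0 ≤ E) (h : Rect P F N₁ N E) :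
    Hyp P (wf N₁ N F) N ((K * Real.log N + 1) * E) (4 * Fm * N / K) := by
  intro ι Q β α A hβ hP hα hA
  have hK1 : 1 ≤ K := by omega
  have hK' : (0 : ℝ) < K := by exact_mod_cast (show 0 < K by omega)
  have hN1 : 1 ≤ N := by omega
  have hlogN : 0 ≤ Real.log N := Real.log_nonneg (by exact_mod_cast hN1)
  set J := Finset.range (⌊(K : ℝ) * Real.log N⌋₊ + 1) with hJ
  have hA0 : 0 ≤ A := by
    refine le_trans ?_ (hA 1 (by rw [mem_Icc]; omega))
    exact sum_nonneg fun _ _ => sum_nonneg fun _ _ => by positivity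
  have split : ∑ q ∈ Q, ∑ l ∈ Icc 1 N, ∑ m ∈ Icc 1 N, β q l * α q m * wf N₁ N F (l * m) =
      ∑ q ∈ Q, ∑ l ∈ Icc 1 N, ∑ m ∈ Icc 1 N, β q l * α q m * (wn N₁ N (rt K (cls K l) * m) * F (l * m)) +
      ∑ q ∈ Q, ∑ l ∈ Icc 1 N, ∑ m ∈ Icc 1 N, β q l * α q m *
        ((wn N₁ N ((l * m : ℕ) : ℝ) - wn N₁ N (rt K (cls K l) * m)) * F (l * m)) := by
    simp only [← sum_add_distrib]
    refine sum_congr rfl fun q _ => sum_congr rfl fun l _ => sum_congr rfl fun m _ => ?_
    unfold wf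
    ring
  rw [split]
  refine (abs_add_le _ _).trans (add_le_add ?_ ?_)
  · -- main
    have e1 : ∀ q ∈ Q, |∑ l ∈ Icc 1 N, ∑ m ∈ Icc 1 N, β q l * α q m * (wn N₁ N (rt K (cls K l) * m) * F (l * m))| ≤
        (K * Real.log N + 1) * E := by
      intro q hq
      have e2 : ∑ l ∈ Icc 1 N, ∑ m ∈ Icc 1 N, β q l * α q m * (wn N₁ N (rt K (cls K l) * m) * F (l * m)) =
          ∑ j ∈ J, ∑ l ∈ Icc 1 N, if cls K l = j then
            ∑ m ∈ Icc 1 N, β q l * α q m * (wn N₁ N (rt K j * m) * F (l * m)) else 0 := by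
        symm
        rw [sum_comm]
        refine sum_congr rfl fun l hl => ?_
        rw [mem_Icc] at hl
        rw [sum_ite_eq, if_pos]
        rw [hJ, mem_range]
        apply Nat.lt_succ_of_le
        unfold cls
        apply Nat.floor_le_floor
        apply mul_le_mul_of_nonneg_left _ hK'.le
        apply Real.log_le_log (by exact_mod_cast hl.1)
        exact_mod_cast hl.2
      rw [e2]
      refine (abs_sum_le_sum_abs _ _).trans ?_
      have e3 : ∀ j ∈ J, |∑ l ∈ Icc 1 N, if cls K l = j then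
            ∑ m ∈ Icc 1 N, β q l * α q m * (wn N₁ N (rt K j * m) * F (l * m)) else 0| ≤ E := by
        intro j _
        have hrt := rt_pos K j
        set M₀ := ⌊(N₁ : ℝ) / rt K j⌋₊ with hM0
        set M := ⌊(N : ℝ) / rt K j⌋₊ with hM
        set L₀ := le0 K j with hL0
        set L := le0 K (j + 1) with hL
        have hM0M : M₀ ≤ M := Nat.floor_le_floor (div_le_div_of_nonneg_right (by exact_mod_cast hN) hrt.le)
        have hMm : ∀ m : ℕ, 1 ≤ m → (wn N₁ N (rt K j * m) = if m ∈ Ioc M₀ M then 1 else 0) := by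
          intro m hm
          unfold wn
          have a1 : (N₁ : ℝ) < rt K j * m ↔ M₀ < m := by
            rw [hM0, Nat.floor_lt' (by omega), div_lt_iff₀ hrt, mul_comm]
          have a2 : rt K j * m ≤ N ↔ m ≤ M := by
            rw [hM, Nat.le_floor_iff (by positivity), le_div_iff₀ hrt, mul_comm]
          simp only [mem_Ioc, a1, a2]
        have hML : M * L ≤ N := by
          have b1 : (M : ℝ) ≤ N / rt K j := Nat.floor_le (by positivity)
          have b2 : (L : ℝ) ≤ rt K j := (le0_lt K j).le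
          have b3 : (M : ℝ) * L ≤ N := by
            calc (M : ℝ) * L ≤ (N / rt K j) * rt K j := mul_le_mul b1 b2 (Nat.cast_nonneg _) (by positivity)
              _ = N := div_mul_cancel₀ _ hrt.ne'
          exact_mod_cast b3
        have hMN : M ≤ N := by
          apply Nat.floor_le_of_le
          rw [div_le_iff₀ hrt]
          have b4 : 1 ≤ rt K j := by
            unfold rt
            exact Real.one_le_exp (by positivity)
          have b5 : (0 : ℝ) ≤ N := Nat.cast_nonneg N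
          nlinarith
        have e4 : (∑ l ∈ Icc 1 N, if cls K l = j then
            ∑ m ∈ Icc 1 N, β q l * α q m * (wn N₁ N (rt K j * m) * F (l * m)) else 0) =
            ∑ m ∈ Ioc M₀ M, ∑ l ∈ Ioc L₀ L, α q m * (if l ≤ N then β q l else 0) * F (m * l) := by
          rw [← sum_filter]
          have e5 : (Icc 1 N).filter (fun l => cls K l = j) = (Ioc L₀ L).filter (fun l => l ≤ N) := by
            ext l
            rw [mem_filter, mem_filter, mem_Icc, mem_Ioc]
            constructor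
            · rintro ⟨⟨h1, h2⟩, h3⟩
              exact ⟨(cls_eq_iff hK1 h1).mp h3, h2⟩
            · rintro ⟨h1, h2⟩
              have h3 : 1 ≤ l := by omega
              exact ⟨⟨h3, h2⟩, (cls_eq_iff hK1 h3).mpr h1⟩
          rw [e5, sum_filter, sum_comm]
          refine sum_congr rfl fun l hl => ?_
          split_ifs with h6
          · have e6 : ∑ m ∈ Icc 1 N, β q l * α q m * (wn N₁ N (rt K j * m) * F (l * m)) =
                ∑ m ∈ Icc 1 N, if m ∈ Ioc M₀ M then α q m * β q l * F (m * l) else 0 := by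
              refine sum_congr rfl fun m hm => ?_
              rw [hMm m (mem_Icc.mp hm).1, mul_comm l m]
              split_ifs
              · ring
              · ring
            rw [e6, ← sum_filter]
            refine sum_congr ?_ fun _ _ => rfl
            ext m
            rw [mem_filter, mem_Icc, mem_Ioc]
            constructor
            · exact fun h => h.2
            · exact fun h => ⟨⟨by omega, by omega⟩, h⟩
          · simp
        rw [e4]
        by_cases hne : (Ioc M₀ M).Nonempty ∧ (Ioc L₀ L).Nonempty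
        · refine h (α q) (fun l => if l ≤ N then β q l else 0) M L M₀ L₀ (hα q) ?_ ?_ hM0M (le0_mono K j)
            (le0_short hK j) hML ?_
          · intro l
            split_ifs
            · exact hβ q l
            · simp
          · intro l hl
            split_ifs at hl
            · exact hP q hq l hl
            · exact absurd rfl hl
          · obtain ⟨⟨m, hm⟩, ⟨l, hl⟩⟩ := hne
            rw [mem_Ioc] at hm hl
            have hl1 : 1 ≤ l := by omega
            have hm1 : 1 ≤ m := by omega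
            have c1 := (cls_eq_iff hK1 hl1).mpr hl
            have c2 := rt_le hK1 hl1
            rw [c1] at c2
            have c3 : (N₁ : ℝ) < rt K j * m := by
              have := hMm m hm1
              rw [if_pos (mem_Ioc.mpr hm)] at this
              unfold wn at this
              by_contra hcon
              rw [if_neg (by tauto)] at this
              exact zero_ne_one this
            have c4 : Real.exp (1 / (K : ℝ)) ≤ 3 := by
              have h1 := exp_half hK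
              have h2 : Real.exp (1 / (K : ℝ)) * Real.exp (-(1 / (K : ℝ))) = 1 := by
                rw [← Real.exp_add]; simp
              have h3 := Real.exp_pos (1 / (K : ℝ))
              nlinarith
            have hl0 : (0 : ℝ) ≤ l := Nat.cast_nonneg l
            have hm0 : (0 : ℝ) ≤ m := Nat.cast_nonneg m
            have c5 : (N₁ : ℝ) < 3 * (m * l) := by
              calc (N₁ : ℝ) < rt K j * m := c3
                _ ≤ (l * Real.exp (1 / (K : ℝ))) * m := mul_le_mul_of_nonneg_right c2 hm0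
                _ ≤ (l * 3) * m := by gcongr
                _ = 3 * (m * l) := by ring
            have c6 : N₁ < 3 * (m * l) := by exact_mod_cast c5
            have c7 : m * l ≤ M * L := Nat.mul_le_mul hm.2 hl.2
            omega
        · have : ∑ m ∈ Ioc M₀ M, ∑ l ∈ Ioc L₀ L, α q m * (if l ≤ N then β q l else 0) * F (m * l) = 0 := by
            rw [not_and_or, not_nonempty_iff_eq_empty, not_nonempty_iff_eq_empty] at hne
            rcases hne with h1 | h1
            · rw [h1, sum_empty]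
            · rw [h1]
              simp
          rw [this, abs_zero]
          exact hE
      refine (sum_le_sum e3).trans ?_
      rw [sum_const, nsmul_eq_mul, hJ, card_range]
      apply mul_le_mul_of_nonneg_right _ hE
      push_cast
      have := Nat.floor_le (show 0 ≤ (K : ℝ) * Real.log N by positivity)
      linarith
    refine (abs_sum_le_sum_abs _ _).trans ((sum_le_sum e1).trans ?_)
    rw [sum_const, nsmul_eq_mul]
  · -- error
    have e1 : |∑ q ∈ Q, ∑ l ∈ Icc 1 N, ∑ m ∈ Icc 1 N, β q l * α q m *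
        ((wn N₁ N ((l * m : ℕ) : ℝ) - wn N₁ N (rt K (cls K l) * m)) * F (l * m))| ≤
        ∑ q ∈ Q, ∑ l ∈ Icc 1 N, ∑ m ∈ Icc 1 N, |β q l| * |α q m| * er K N₁ N F (l * m) := by
      refine (abs_sum_le_sum_abs _ _).trans (sum_le_sum fun q _ => ?_)
      refine (abs_sum_le_sum_abs _ _).trans (sum_le_sum fun l hl => ?_)
      refine (abs_sum_le_sum_abs _ _).trans (sum_le_sum fun m hm => ?_)
      rw [mem_Icc] at hl
      rw [abs_mul, abs_mul, abs_mul]
      apply mul_le_mul_of_nonneg_left _ (by positivity)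
      unfold er
      apply mul_le_mul_of_nonneg_right _ (abs_nonneg _)
      have hm0 : (0 : ℝ) ≤ m := Nat.cast_nonneg m
      apply wn_sub_le
      · push_cast
        exact mul_le_mul_of_nonneg_right (lt_rt hK1 hl.1).le hm0
      · push_cast
        calc rt K (cls K l) * m ≤ (l * Real.exp (1 / K)) * m := mul_le_mul_of_nonneg_right (rt_le hK1 hl.1) hm0
          _ = (l * m) * Real.exp (1 / K) := by ring
    refine e1.trans ?_
    have e2 : ∀ q ∈ Q, ∑ l ∈ Icc 1 N, ∑ m ∈ Icc 1 N, |β q l| * |α q m| * er K N₁ N F (l * m) =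
        ∑ n ∈ Icc 1 N, (∑ x ∈ n.divisorsAntidiagonal, |β q x.1| * |α q x.2|) * er K N₁ N F n :=
      fun q _ => conv (fun n hn => er_of_gt hN hn) (fun l m => |β q l| * |α q m|)
    rw [sum_congr rfl e2, sum_comm]
    have e3 : ∀ n ∈ Icc 1 N, ∑ q ∈ Q, (∑ x ∈ n.divisorsAntidiagonal, |β q x.1| * |α q x.2|) * er K N₁ N F n ≤
        A * er K N₁ N F n := by
      intro n hn
      rw [← sum_mul]
      exact mul_le_mul_of_nonneg_right (hA n hn) (er_nonneg _ _ _ _ _)
    refine (sum_le_sum e3).trans ?_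
    rw [← mul_sum]
    exact mul_le_mul_of_nonneg_left (sum_er hK hN hKN hF hFm) hA0

end Pool.Agent.Helper25.AP
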