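import Pool.Agent.Helper25.AP.D7

/-!
# AP: decomposition of the primes, 8: the theorem with a window
-/

set_option autoImplicit false

open Finset
open scoped Classical

namespace Pool.Agent.Helper25.AP

/-- sums with the first coefficients. -/
lemma md_sum {N w D : ℕ} {g : ℕ → ℝ} {B : ℝ} (hB : 0 ≤ B) (hg : ∀ d, 1 ≤ d → d ≤ D → |g d| ≤ B) :
    |∑ d ∈ Icc 1 N, md w D d * g d| ≤ D * B := by
  refine (abs_sum_le_sum_abs _ _).trans ?_
  have h1 : ∀ d ∈ Icc 1 N, |md w D d * g d| ≤ if d ≤ D then B else 0 := by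
    intro d hd
    rw [mem_Icc] at hd
    rw [abs_mul]
    split_ifs with h
    · calc |md w D d| * |g d| ≤ 1 * B := mul_le_mul (abs_md_le w D d) (hg d hd.1 h) (abs_nonneg _) zero_le_one
        _ = B := one_mul B
    · have : md w D d = 0 := by
        unfold md
        rw [if_neg (by tauto)]
      rw [this]
      simp
  refine (sum_le_sum h1).trans ?_
  rw [← sum_filter, sum_const, nsmul_eq_mul]
  apply mul_le_mul_of_nonneg_right _ hB
  have h2 : (Icc 1 N).filter (fun d => d ≤ D) ⊆ Icc 1 D := by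
    intro d hd
    rw [mem_filter, mem_Icc] at hd
    rw [mem_Icc]
    exact ⟨hd.1.1, hd.2⟩
  have h3 := card_le_card h2
  rw [Nat.card_Icc, Nat.add_sub_cancel] at h3
  exact_mod_cast h3

/-- type I sums with a window. -/
def Rect3 (F : ℕ → ℝ) (N D : ℕ) (E : ℝ) : Prop :=
  ∀ d M₀ M : ℕ, 1 ≤ d → d ≤ D → M₀ ≤ M → d * M ≤ N → |∑ m ∈ Ioc M₀ M, F (d * m)| ≤ E

lemma sum_wf {F : ℕ → ℝ} {N₁ N d : ℕ} (hd : 1 ≤ d) (_hN : N₁ ≤ N) :
    ∑ m ∈ Icc 1 N, wf N₁ N F (d * m) = ∑ m ∈ Ioc (N₁ / d) (N / d), F (d * m) := by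
  have h1 : ∀ m : ℕ, wf N₁ N F (d * m) = if N₁ / d < m ∧ m ≤ N / d then F (d * m) else 0 := by
    intro m
    unfold wf wn
    have a1 : ((N₁ : ℕ) : ℝ) < ((d * m : ℕ) : ℝ) ↔ N₁ / d < m := by
      rw [Nat.cast_lt, Nat.div_lt_iff_lt_mul (by omega), mul_comm m d]
    have a2 : ((d * m : ℕ) : ℝ) ≤ ((N : ℕ) : ℝ) ↔ m ≤ N / d := by
      rw [Nat.cast_le, Nat.le_div_iff_mul_le (by omega), mul_comm m d]
    by_cases hc : N₁ / d < m ∧ m ≤ N / d
    · rw [if_pos hc, if_pos ⟨a1.mpr hc.1, a2.mpr hc.2⟩, one_mul]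
    · rw [if_neg hc, if_neg, zero_mul]
      exact fun h => hc ⟨a1.mp h.1, a2.mp h.2⟩
  rw [sum_congr rfl fun m _ => h1 m, ← sum_filter]
  refine sum_congr ?_ fun _ _ => rfl
  ext m
  rw [mem_filter, mem_Icc, mem_Ioc]
  have h2 : N / d ≤ N := Nat.div_le_self _ _
  constructor
  · exact fun h => h.2
  · exact fun h => ⟨⟨Nat.lt_of_le_of_lt (Nat.zero_le _) h.1, h.2.trans h2⟩, h⟩

lemma h3_of {F : ℕ → ℝ} {N₁ N w D : ℕ} {E : ℝ} (hN : N₁ ≤ N) (hE : 0 ≤ E) (h : Rect3 F N D E) :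
    |∑ d ∈ Icc 1 N, md w D d * ∑ m ∈ Icc 1 N, wf N₁ N F (d * m)| ≤ D * E := by
  apply md_sum hE
  intro d hd1 hd2
  rw [sum_wf hd1 hN]
  exact h d _ _ hd1 hd2 (Nat.div_le_div_right hN) (Nat.mul_div_le N d)

/-- the fourth sum. -/
noncomputable def H4s (F : ℕ → ℝ) (N₁ N w D z1 Z1 : ℕ) : ℝ :=
  ∑ d ∈ Icc 1 N, md w D d * ∑ d' ∈ Icc 1 N, md w D d' *
    ∑ b ∈ (Icc 1 N).filter (fun b => z1 < d * b ∧ d * b < Z1), ∑ a ∈ Icc 1 N, wf N₁ N F (d' * a * (d * b))

/-- both variables free; the interval of `a` depends on `b`; short intervals of `b`. -/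
def Free4 (F : ℕ → ℝ) (N₁ N D z1 Z1 : ℕ) (E : ℝ) : Prop :=
  ∀ d d' b₀ b₁ : ℕ, 1 ≤ d → d ≤ D → 1 ≤ d' → d' ≤ D → b₀ ≤ b₁ → b₁ ≤ 2 * b₀ + 1 → z1 ≤ d * (b₀ + 1) → d * b₁ ≤ Z1 →
    |∑ b ∈ Ioc b₀ b₁, ∑ a ∈ Ioc (N₁ / (d' * (d * b))) (N / (d' * (d * b))), F (d' * a * (d * b))| ≤ E

/-- an interval in classes. -/
lemma split_cls {b₀ b₁ N : ℕ} (hb : b₀ ≤ b₁) (hN : b₁ ≤ N) (g : ℕ → ℝ) {E : ℝ} (hE : 0 ≤ E)
    (h : ∀ c₀ c₁ : ℕ, b₀ ≤ c₀ → c₁ ≤ b₁ → c₀ ≤ c₁ → c₁ ≤ 2 * c₀ + 1 → |∑ b ∈ Ioc c₀ c₁, g b| ≤ E) :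
    |∑ b ∈ Ioc b₀ b₁, g b| ≤ (2 * Real.log N + 1) * E := by
  by_cases hN0 : N = 0
  · subst hN0
    have h1 : b₁ = 0 := by omega
    subst h1
    simp [hE]
  have hN1 : 1 ≤ N := by omega
  set J := Finset.range (⌊((2 : ℕ) : ℝ) * Real.log N⌋₊ + 1) with hJ
  have e1 : ∑ b ∈ Ioc b₀ b₁, g b = ∑ j ∈ J, ∑ b ∈ Ioc (max b₀ (le0 2 j)) (min b₁ (le0 2 (j + 1))), g b := by
    have e2 : ∀ j ∈ J, ∑ b ∈ Ioc (max b₀ (le0 2 j)) (min b₁ (le0 2 (j + 1))), g b =
        ∑ b ∈ Ioc b₀ b₁, if cls 2 b = j then g b else 0 := by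
      intro j _
      rw [← sum_filter]
      refine sum_congr ?_ fun _ _ => rfl
      ext b
      rw [mem_filter, mem_Ioc, mem_Ioc, max_lt_iff, le_min_iff]
      constructor
      · rintro ⟨⟨h1, h2⟩, h3, h4⟩
        exact ⟨⟨h1, h3⟩, (cls_eq_iff (by norm_num) (by omega)).mpr ⟨h2, h4⟩⟩
      · rintro ⟨⟨h1, h3⟩, h2⟩
        have h4 := (cls_eq_iff (K := 2) (l := b) (by norm_num) (by omega)).mp h2
        exact ⟨⟨h1, h4.1⟩, h3, h4.2⟩
    rw [sum_congr rfl e2, sum_comm]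
    refine sum_congr rfl fun b hb => ?_
    rw [mem_Ioc] at hb
    rw [sum_ite_eq, if_pos]
    rw [hJ, mem_range]
    apply Nat.lt_succ_of_le
    unfold cls
    apply Nat.floor_le_floor
    apply mul_le_mul_of_nonneg_left _ (by positivity)
    apply Real.log_le_log (by exact_mod_cast (by omega : 0 < b))
    exact_mod_cast hb.2.trans hN
  rw [e1]
  refine (abs_sum_le_sum_abs _ _).trans ?_
  have e3 : ∀ j ∈ J, |∑ b ∈ Ioc (max b₀ (le0 2 j)) (min b₁ (le0 2 (j + 1))), g b| ≤ E := by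
    intro j _
    by_cases hc : max b₀ (le0 2 j) ≤ min b₁ (le0 2 (j + 1))
    · apply h _ _ (le_max_left _ _) (min_le_left _ _) hc
      have h1 := le0_short (K := 2) le_rfl j
      have h2 : min b₁ (le0 2 (j + 1)) ≤ le0 2 (j + 1) := min_le_right _ _
      have h3 : le0 2 j ≤ max b₀ (le0 2 j) := le_max_right _ _
      omega
    · rw [Ioc_eq_empty (by omega), sum_empty, abs_zero]
      exact hE
  refine (sum_le_sum e3).trans ?_
  rw [sum_const, nsmul_eq_mul, hJ, card_range]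
  apply mul_le_mul_of_nonneg_right _ hE
  have hlog : 0 ≤ Real.log N := Real.log_nonneg (by exact_mod_cast hN1)
  have := Nat.floor_le (show 0 ≤ ((2 : ℕ) : ℝ) * Real.log N by positivity)
  push_cast at this ⊢
  linarith

lemma h4_of {F : ℕ → ℝ} {N₁ N w D z1 Z1 : ℕ} {E : ℝ} (hN : N₁ ≤ N) (hE : 0 ≤ E) (hZ : Z1 ≤ N)
    (h : Free4 F N₁ N D z1 Z1 E) : |H4s F N₁ N w D z1 Z1| ≤ D * (D * ((2 * Real.log N + 1) * E)) := by
  unfold H4s
  have hE' : 0 ≤ (2 * Real.log N + 1) * E := by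
    rcases Nat.eq_zero_or_pos N with h0 | h0
    · subst h0
      simp [hE]
    · have hlog : 0 ≤ Real.log N := Real.log_nonneg (by exact_mod_cast h0)
      positivity
  apply md_sum (by positivity)
  intro d hd1 hd2
  apply md_sum hE'
  intro d' hd'1 hd'2
  by_cases hZ0 : Z1 = 0
  · subst hZ0
    have : (Icc 1 N).filter (fun b => z1 < d * b ∧ d * b < 0) = ∅ := by
      apply filter_false_of_mem
      intro b _
      omega
    rw [this, sum_empty, abs_zero]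
    exact hE'
  have e1 : (Icc 1 N).filter (fun b => z1 < d * b ∧ d * b < Z1) = Ioc (z1 / d) ((Z1 - 1) / d) := by
    ext b
    rw [mem_filter, mem_Icc, mem_Ioc, Nat.div_lt_iff_lt_mul (by omega), Nat.le_div_iff_mul_le (by omega), mul_comm b d]
    constructor
    · rintro ⟨h1, h2, h3⟩
      exact ⟨h2, by omega⟩
    · rintro ⟨h2, h3⟩
      have h4 : b ≤ d * b := Nat.le_mul_of_pos_left b (by omega)
      have h5 : b ≠ 0 := by
        rintro rfl
        omega
      exact ⟨⟨by omega, by omega⟩, h2, by omega⟩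
  rw [e1]
  by_cases hb : z1 / d ≤ (Z1 - 1) / d
  · have e2 : ∀ b ∈ Ioc (z1 / d) ((Z1 - 1) / d), ∑ a ∈ Icc 1 N, wf N₁ N F (d' * a * (d * b)) =
        ∑ a ∈ Ioc (N₁ / (d' * (d * b))) (N / (d' * (d * b))), F (d' * a * (d * b)) := by
      intro b hb
      rw [mem_Ioc] at hb
      have h1 : 1 ≤ d' * (d * b) :=
        Nat.mul_pos hd'1 (Nat.mul_pos hd1 (Nat.lt_of_le_of_lt (Nat.zero_le _) hb.1))
      have h2 := sum_wf (F := F) h1 hN
      have h3 : ∀ a : ℕ, d' * a * (d * b) = d' * (d * b) * a := fun a => by ring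
      rw [sum_congr rfl fun a _ => by rw [h3 a], h2]
      exact sum_congr rfl fun a _ => by rw [h3 a]
    rw [sum_congr rfl e2]
    refine split_cls hb ?_ _ hE ?_
    · calc (Z1 - 1) / d ≤ Z1 - 1 := Nat.div_le_self _ _
        _ ≤ N := by omega
    · intro c₀ c₁ h1 h2 h3 h4
      refine h d d' c₀ c₁ hd1 hd2 hd'1 hd'2 h3 h4 ?_ ?_
      · have h5 := Nat.lt_mul_div_succ z1 (show 0 < d by omega)
        have h6 : d * (z1 / d + 1) ≤ d * (c₀ + 1) := Nat.mul_le_mul_left d (by omega)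
        omega
      · have h5 := Nat.mul_div_le (Z1 - 1) d
        have h6 : d * c₁ ≤ d * ((Z1 - 1) / d) := Nat.mul_le_mul_left d h2
        omega
  · rw [Ioc_eq_empty (by omega), sum_empty, abs_zero]
    exact hE'

/-- the fourth sum from rectangles with arbitrary coefficients. -/
lemma h4_of_rect {F : ℕ → ℝ} {N₁ N w D z1 Z1 K : ℕ} {E Fm Dd : ℝ} (hK : 2 ≤ K) (hKN : K ≤ N) (hN : N₁ ≤ N)
    (hF : ∀ n : ℕ, N₁ < 3 * n → n ≤ N → |F n| ≤ Fm) (hFm : 0 ≤ Fm) (hE : 0 ≤ E) (hDd : DB N Dd) (hD : D ≤ N)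
    (h : Rect (fun l => z1 < l ∧ l < Z1) F N₁ N E) :
    |H4s F N₁ N w D z1 Z1| ≤ D ^ 2 * ((K * Real.log N + 1) * E) + Dd ^ 3 * (4 * Fm * N / K) := by
  have hyp := hyp_of_rect hK hKN hN hF hFm hE h
  have hN1 : 1 ≤ N := by omega
  have hDd1 := hDd.one_le hN1
  set Q := Icc 1 D ×ˢ Icc 1 D with hQ
  set β : ℕ × ℕ → ℕ → ℝ := fun i l => if i.1 ∣ l ∧ z1 < l ∧ l < Z1 then 1 else 0 with hβ
  set α : ℕ × ℕ → ℕ → ℝ := fun i m => if i.2 ∣ m then md w D i.1 * md w D i.2 else 0 with hα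
  have e1 : H4s F N₁ N w D z1 Z1 = ∑ i ∈ Q, ∑ l ∈ Icc 1 N, ∑ m ∈ Icc 1 N, β i l * α i m * wf N₁ N F (l * m) := by
    unfold H4s
    rw [hQ, sum_product]
    have e2 : ∀ (g : ℕ → ℝ), ∑ d ∈ Icc 1 N, md w D d * g d = ∑ d ∈ Icc 1 D, md w D d * g d := by
      intro g
      symm
      apply sum_subset (Icc_subset_Icc_right hD)
      intro d hd hd'
      rw [mem_Icc] at hd hd'
      unfold md
      rw [if_neg, zero_mul]
      rintro ⟨_, h3⟩
      exact hd' ⟨hd.1, h3⟩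
    rw [e2]
    refine sum_congr rfl fun d hd => ?_
    rw [e2, mul_sum]
    refine sum_congr rfl fun d' hd' => ?_
    rw [mem_Icc] at hd hd'
    -- change of variables
    have e3 : ∑ b ∈ (Icc 1 N).filter (fun b => z1 < d * b ∧ d * b < Z1), ∑ a ∈ Icc 1 N, wf N₁ N F (d' * a * (d * b)) =
        ∑ l ∈ (Icc 1 N).filter (fun l => d ∣ l ∧ z1 < l ∧ l < Z1), ∑ m ∈ (Icc 1 N).filter (fun m => d' ∣ m),
          wf N₁ N F (l * m) := by
      have e4 : ∀ b ∈ (Icc 1 N).filter (fun b => z1 < d * b ∧ d * b < Z1), ∑ a ∈ Icc 1 N, wf N₁ N F (d' * a * (d * b)) =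
          ∑ m ∈ (Icc 1 N).filter (fun m => d' ∣ m), wf N₁ N F (d * b * m) := by
        intro b hb
        rw [mem_filter, mem_Icc] at hb
        have hdb : 1 ≤ d * b := Nat.mul_pos hd.1 hb.1.1
        symm
        apply sum_bij_ne_zero (fun m _ _ => m / d')
        · intro m hm hne
          rw [mem_filter, mem_Icc] at hm
          rw [mem_Icc]
          obtain ⟨c, rfl⟩ := hm.2
          rw [Nat.mul_div_cancel_left c (by omega)]
          have h5 : c ≠ 0 := by rintro rfl; simp at hm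
          have h6 : c ≤ d' * c := Nat.le_mul_of_pos_left c (by omega)
          omega
        · intro m1 hm1 _ m2 hm2 _ heq
          rw [mem_filter] at hm1 hm2
          obtain ⟨c1, rfl⟩ := hm1.2
          obtain ⟨c2, rfl⟩ := hm2.2
          rw [Nat.mul_div_cancel_left c1 (by omega), Nat.mul_div_cancel_left c2 (by omega)] at heq
          rw [heq]
        · intro a ha hne
          rw [mem_Icc] at ha
          have h7 : d' * a * (d * b) ≤ N := by
            by_contra hcon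
            exact hne (wf_of_gt (by omega))
          refine ⟨d' * a, ?_, ?_, ?_⟩
          · rw [mem_filter, mem_Icc]
            have h8 : d' * a ≤ d' * a * (d * b) := Nat.le_mul_of_pos_right _ hdb
            have h9 : 1 ≤ d' * a := Nat.mul_pos hd'.1 ha.1
            exact ⟨⟨h9, by omega⟩, dvd_mul_right _ _⟩
          · rw [mul_comm (d * b)]
            exact hne
          · rw [Nat.mul_div_cancel_left a (by omega)]
        · intro m hm _
          rw [mem_filter] at hm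
          rw [Nat.mul_div_cancel' hm.2, mul_comm]
      rw [sum_congr rfl e4]
      symm
      apply sum_bij_ne_zero (fun l _ _ => l / d)
      · intro l hl _
        rw [mem_filter, mem_Icc] at hl ⊢
        obtain ⟨⟨h1, h2⟩, ⟨c, rfl⟩, h3, h4⟩ := hl
        rw [Nat.mul_div_cancel_left c (by omega)]
        have h5 : c ≠ 0 := by rintro rfl; simp at h1
        have h6 : c ≤ d * c := Nat.le_mul_of_pos_left c (by omega)
        exact ⟨⟨by omega, by omega⟩, h3, h4⟩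
      · intro l1 hl1 _ l2 hl2 _ heq
        rw [mem_filter] at hl1 hl2
        obtain ⟨c1, rfl⟩ := hl1.2.1
        obtain ⟨c2, rfl⟩ := hl2.2.1
        rw [Nat.mul_div_cancel_left c1 (by omega), Nat.mul_div_cancel_left c2 (by omega)] at heq
        rw [heq]
      · intro b hb hne
        rw [mem_filter, mem_Icc] at hb
        have h7 : d * b ≤ N := by
          by_contra hcon
          apply hne
          apply sum_eq_zero
          intro m hm
          rw [mem_filter, mem_Icc] at hm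
          apply wf_of_gt
          have : d * b ≤ d * b * m := Nat.le_mul_of_pos_right _ hm.1.1
          omega
        refine ⟨d * b, ?_, hne, ?_⟩
        · rw [mem_filter, mem_Icc]
          exact ⟨⟨Nat.mul_pos hd.1 hb.1.1, h7⟩, dvd_mul_right _ _, hb.2⟩
        · rw [Nat.mul_div_cancel_left b (by omega)]
      · intro l hl _
        rw [mem_filter] at hl
        rw [Nat.mul_div_cancel' hl.2.1]
    rw [e3, sum_filter]
    rw [mul_sum, mul_sum]
    refine sum_congr rfl fun l _ => ?_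
    rw [hβ, hα]
    dsimp only
    split_ifs with h5
    · rw [sum_filter, mul_sum, mul_sum]
      refine sum_congr rfl fun m _ => ?_
      split_ifs
      · ring
      · ring
    · simp
  rw [e1]
  have hP : ∀ i ∈ Q, ∀ l, β i l ≠ 0 → z1 < l ∧ l < Z1 := by
    intro i _ l hl
    rw [hβ] at hl
    dsimp only at hl
    split_ifs at hl with h5
    · exact h5.2
    · exact absurd rfl hl
  have hb1 : ∀ i l, |β i l| ≤ 1 := by
    intro i l
    rw [hβ]
    dsimp only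
    split_ifs <;> simp
  have ha1 : ∀ i m, |α i m| ≤ 1 := by
    intro i m
    rw [hα]
    dsimp only
    split_ifs
    · rw [abs_mul]
      exact mul_le_one₀ (abs_md_le _ _ _) (abs_nonneg _) (abs_md_le _ _ _)
    · simp
  have hmult : ∀ n ∈ Icc 1 N, ∑ i ∈ Q, ∑ x ∈ n.divisorsAntidiagonal, |β i x.1| * |α i x.2| ≤ Dd ^ 3 := by
    intro n hn
    rw [sum_comm]
    have h6 : ∀ x ∈ n.divisorsAntidiagonal, ∑ i ∈ Q, |β i x.1| * |α i x.2| ≤ Dd ^ 2 := by
      intro x hx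
      rw [Nat.mem_divisorsAntidiagonal] at hx
      have hx1 : x.1 ≠ 0 := by rintro h; rw [h] at hx; simp at hx; exact hx.2 hx.1.symm
      have hx2 : x.2 ≠ 0 := by rintro h; rw [h] at hx; simp at hx; exact hx.2 hx.1.symm
      rw [mem_Icc] at hn
      have hx1N : x.1 ∈ Icc 1 N := by
        rw [mem_Icc]
        have h6 : x.1 ≤ n := by rw [← hx.1]; exact Nat.le_mul_of_pos_right _ (Nat.pos_of_ne_zero hx2)
        omega
      have hx2N : x.2 ∈ Icc 1 N := by
        rw [mem_Icc]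
        have h6 : x.2 ≤ n := by rw [← hx.1]; exact Nat.le_mul_of_pos_left _ (Nat.pos_of_ne_zero hx1)
        omega
      have h7 : ∀ i ∈ Q, |β i x.1| * |α i x.2| ≤ if i.1 ∣ x.1 ∧ i.2 ∣ x.2 then (1 : ℝ) else 0 := by
        intro i _
        split_ifs with h8
        · exact mul_le_one₀ (hb1 i x.1) (abs_nonneg _) (ha1 i x.2)
        · rw [not_and_or] at h8
          rcases h8 with h8 | h8
          · have : β i x.1 = 0 := by
              rw [hβ]
              dsimp only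
              rw [if_neg (by tauto)]
            rw [this]
            simp
          · have : α i x.2 = 0 := by
              rw [hα]
              dsimp only
              rw [if_neg h8]
            rw [this]
            simp
      refine (sum_le_sum h7).trans ?_
      rw [← sum_filter, sum_const, nsmul_eq_mul, mul_one]
      have h9 : Q.filter (fun i => i.1 ∣ x.1 ∧ i.2 ∣ x.2) ⊆ x.1.divisors ×ˢ x.2.divisors := by
        intro i hi
        rw [mem_filter] at hi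
        rw [mem_product, Nat.mem_divisors, Nat.mem_divisors]
        exact ⟨⟨hi.2.1, hx1⟩, hi.2.2, hx2⟩
      have h10 := card_le_card h9
      rw [card_product] at h10
      calc ((Q.filter (fun i => i.1 ∣ x.1 ∧ i.2 ∣ x.2)).card : ℝ) ≤ (x.1.divisors.card : ℝ) * x.2.divisors.card := by
            exact_mod_cast h10
        _ ≤ Dd * Dd := mul_le_mul (hDd x.1 hx1N) (hDd x.2 hx2N) (Nat.cast_nonneg _) (by linarith)
        _ = Dd ^ 2 := by ring
    refine (sum_le_sum h6).trans ?_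
    rw [sum_const, nsmul_eq_mul, card_anti]
    calc (n.divisors.card : ℝ) * Dd ^ 2 ≤ Dd * Dd ^ 2 := mul_le_mul_of_nonneg_right (hDd n hn) (by positivity)
      _ = Dd ^ 3 := by ring
  have hfin := hyp (ℕ × ℕ) Q β α (Dd ^ 3) hb1 hP ha1 hmult
  refine hfin.trans (le_of_eq ?_)
  rw [hQ, card_product, Nat.card_Icc, Nat.add_sub_cancel]
  push_cast
  ring

/-- **Primes in a window, from sums over rectangles.** -/
theorem prime_window {F : ℕ → ℝ} {N₁ N w z z1 Z1 D K : ℕ} {Fm Dd E1 E2 E3 E4 : ℝ}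
    (par : Par (N₁ + 1) N w z z1 Z1) (hN : N₁ < N) (hF : ∀ n : ℕ, N₁ < 3 * n → n ≤ N → |F n| ≤ Fm)
    (hDd : DB N Dd) (hD : 1 ≤ D) (hK : 2 ≤ K) (hKz : K ≤ z1) (hKZ : K ≤ Z1) (hZN : Z1 ≤ N)
    (h1 : Rect (fun l => l.Prime ∧ w < l ∧ l ≤ z1) F N₁ N E1)
    (h2 : Rect (fun x => Sm w x ∧ D < x ∧ x ≤ D * w) F N₁ N E2) (h3 : Rect3 F N D E3)
    (h4 : |H4s F N₁ N w D z1 Z1| ≤ E4) (hE1 : 0 ≤ E1) (hE2 : 0 ≤ E2) (hE3 : 0 ≤ E3) :
    |∑ n ∈ Ioc N₁ N, pr n * F n| ≤ 4 * (K * Real.log N + 1) ^ 2 * Dd * E1 +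
      2 * w * (K * Real.log N + 1) ^ 2 * Dd ^ 2 * E2 + D * E3 + E4 +
      30 * Fm * Dd ^ 3 * N * (1 / w + 1 / K) := by
  have hN1 : 1 ≤ N := by omega
  have hKN : K ≤ N := hKZ.trans hZN
  have hFm : 0 ≤ Fm := (abs_nonneg _).trans (hF N (by omega) le_rfl)
  have hyp1 := hyp_of_rect hK hKN hN.le hF hFm hE1 h1
  have hyp2 := hyp_of_rect hK hKN hN.le hF hFm hE2 h2
  have hin : Inp (wf N₁ N F) (N₁ + 1) N w z z1 Z1 D K Fm Dd ((K * Real.log N + 1) * E1) (4 * Fm * N / K)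
      ((K * Real.log N + 1) * E2) (4 * Fm * N / K) (D * E3) E4 := by
    refine ⟨par, ?_, fun n hn => wf_of_gt hn, hN1, ?_, hDd, hD, by omega, hKz, hKZ, hyp1, hyp2,
      h3_of hN.le hE3 h3, h4⟩
    · intro n hn
      unfold wf wn
      rw [if_neg, zero_mul]
      rintro ⟨h5, _⟩
      have h6 : N₁ < n := by exact_mod_cast h5
      omega
    · intro n
      unfold wf wn
      split_ifs with h5
      · have h6 : N₁ < n := by exact_mod_cast h5.1
        have h7 : n ≤ N := by exact_mod_cast h5.2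
        rw [one_mul]
        exact hF n (by omega) h7
      · rw [zero_mul, abs_zero]
        exact hFm
  have hps := prime_sum hin
  have e1 : ∑ n ∈ Icc 1 N, pr n * wf N₁ N F n = ∑ n ∈ Ioc N₁ N, pr n * F n := by
    have h5 : ∀ n ∈ Icc 1 N, pr n * wf N₁ N F n = if N₁ < n then pr n * F n else 0 := by
      intro n hn
      rw [mem_Icc] at hn
      unfold wf wn
      by_cases h6 : N₁ < n
      · rw [if_pos h6, if_pos ⟨by exact_mod_cast h6, by exact_mod_cast hn.2⟩, one_mul]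
      · rw [if_neg h6, if_neg, zero_mul, mul_zero]
        rintro ⟨h7, _⟩
        exact h6 (by exact_mod_cast h7)
    rw [sum_congr rfl h5, ← sum_filter]
    refine sum_congr ?_ fun _ _ => rfl
    ext n
    rw [mem_filter, mem_Icc, mem_Ioc]
    omega
  rw [e1] at hps
  refine hps.trans ?_
  have hDd1 := hDd.one_le hN1
  have hD2 : Dd ^ 2 ≤ Dd ^ 3 := pow_le_pow_right₀ hDd1 (by norm_num)
  have hw : (1 : ℝ) ≤ w := by exact_mod_cast par.hw
  have hK' : (0 : ℝ) < K := by exact_mod_cast (show 0 < K by omega)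
  have hNn : (0 : ℝ) ≤ N := Nat.cast_nonneg N
  have hx : 0 ≤ Fm * (N / K) := by positivity
  have hy : 0 ≤ Fm * (N / w) := by positivity
  have r1 : 4 * Dd ^ 2 * (4 * Fm * N / K) ≤ 16 * (Dd ^ 3 * (Fm * (N / K))) := by
    calc 4 * Dd ^ 2 * (4 * Fm * N / K) = 16 * (Dd ^ 2 * (Fm * (N / K))) := by ring
      _ ≤ 16 * (Dd ^ 3 * (Fm * (N / K))) :=
        mul_le_mul_of_nonneg_left (mul_le_mul_of_nonneg_right hD2 hx) (by norm_num)
  have r2 : 2 * Dd ^ 3 * (4 * Fm * N / K) = 8 * (Dd ^ 3 * (Fm * (N / K))) := by ring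
  have r3 : 6 * Fm * Dd ^ 2 * N * (1 / w + 1 / K) ≤ 6 * (Dd ^ 3 * (Fm * (N / w))) + 6 * (Dd ^ 3 * (Fm * (N / K))) := by
    calc 6 * Fm * Dd ^ 2 * N * (1 / w + 1 / K) = 6 * (Dd ^ 2 * (Fm * (N / w))) + 6 * (Dd ^ 2 * (Fm * (N / K))) := by
          ring
      _ ≤ _ := add_le_add (mul_le_mul_of_nonneg_left (mul_le_mul_of_nonneg_right hD2 hy) (by norm_num))
          (mul_le_mul_of_nonneg_left (mul_le_mul_of_nonneg_right hD2 hx) (by norm_num))
  have r4 : 30 * Fm * Dd ^ 3 * N * (1 / w + 1 / K) = 30 * (Dd ^ 3 * (Fm * (N / w))) + 30 * (Dd ^ 3 * (Fm * (N / K))) := by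
    ring
  have r5 : 0 ≤ Dd ^ 3 * (Fm * (N / w)) := by positivity
  have r6 : 4 * (K * Real.log N + 1) * Dd * ((K * Real.log N + 1) * E1) = 4 * (K * Real.log N + 1) ^ 2 * Dd * E1 := by
    ring
  have r7 : 2 * w * (K * Real.log N + 1) * Dd ^ 2 * ((K * Real.log N + 1) * E2) =
      2 * w * (K * Real.log N + 1) ^ 2 * Dd ^ 2 * E2 := by ring
  rw [r2, r6, r7] at *
  rw [r4]
  linarith

end Pool.Agent.Helper25.AP
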