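import Pool.Agent.Helper25.AP.D8
import Pool.Agent.Helper7.GPC.Div

/-!
# AP: asymptotics
-/

set_option autoImplicit false

open Finset Filter Topology
open scoped Classical

namespace Pool.Agent.Helper25.AP

lemma ev_pow {a b : ℝ} (h : a < b) (C : ℝ) : ∀ᶠ T : ℝ in atTop, C * T ^ a ≤ T ^ b := by
  have h1 : Tendsto (fun T : ℝ => T ^ (b - a)) atTop atTop := tendsto_rpow_atTop (by linarith)
  filter_upwards [h1.eventually_ge_atTop C, eventually_gt_atTop 0] with T h2 hT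
  calc C * T ^ a ≤ T ^ (b - a) * T ^ a := mul_le_mul_of_nonneg_right h2 (Real.rpow_pos_of_pos hT _).le
    _ = T ^ b := by rw [← Real.rpow_add hT]; ring_nf

lemma ev_log {b : ℝ} (h : 0 < b) (C : ℝ) : ∀ᶠ T : ℝ in atTop, C * Real.log T ≤ T ^ b := by
  have h1 := (isLittleO_log_rpow_atTop h).tendsto_div_nhds_zero
  have h2 : ∀ᶠ T : ℝ in atTop, Real.log T / T ^ b < 1 / (|C| + 1) :=
    h1.eventually_lt_const (by positivity)
  filter_upwards [h2, eventually_gt_atTop 1] with T h3 hT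
  have hT0 : 0 < T ^ b := Real.rpow_pos_of_pos (by linarith) _
  rw [div_lt_div_iff₀ hT0 (by positivity), one_mul] at h3
  have hl : 0 ≤ Real.log T := Real.log_nonneg hT.le
  have h4 : C * Real.log T ≤ |C| * Real.log T := mul_le_mul_of_nonneg_right (le_abs_self C) hl
  nlinarith

lemma ev_floor {a b : ℝ} (ha : 0 ≤ a) (h : a < b) : ∀ᶠ T : ℝ in atTop, T ^ a ≤ (⌊T ^ b⌋₊ : ℝ) := by
  filter_upwards [ev_pow h 2, eventually_ge_atTop 1] with T h1 hT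
  have h2 : 1 ≤ T ^ a := Real.one_le_rpow hT ha
  have h3 := Nat.lt_floor_add_one (T ^ b)
  linarith

lemma ev_ceil {a b : ℝ} (ha : 0 ≤ a) (h : a < b) : ∀ᶠ T : ℝ in atTop, (⌈T ^ a⌉₊ : ℝ) ≤ T ^ b := by
  filter_upwards [ev_pow h 2, eventually_ge_atTop 1] with T h1 hT
  have h2 : 1 ≤ T ^ a := Real.one_le_rpow hT ha
  have h3 := Nat.ceil_lt_add_one (show 0 ≤ T ^ a by positivity)
  linarith

/-- the divisor bound. -/
lemma ev_div {ε : ℝ} (hε : 0 < ε) : ∀ᶠ T : ℝ in atTop, ∀ n : ℕ, n ≠ 0 → (n : ℝ) ≤ T ^ 2 →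
    ((n.divisors.card : ℕ) : ℝ) ≤ T ^ ε := by
  obtain ⟨C, hC, h⟩ := Pool.Agent.Helper7.GPC.card_divisors_le (ε := ε / 4) (by positivity)
  filter_upwards [ev_pow (a := ε / 2) (b := ε) (by linarith) C, eventually_ge_atTop 1] with T h1 hT n hn hnT
  refine (h n hn).trans (le_trans ?_ h1)
  apply mul_le_mul_of_nonneg_left _ (by linarith)
  calc (n : ℝ) ^ (ε / 4) ≤ (T ^ 2) ^ (ε / 4) := Real.rpow_le_rpow (Nat.cast_nonneg n) hnT (by positivity)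
    _ = T ^ (ε / 2) := by
      rw [← Real.rpow_natCast, ← Real.rpow_mul (by linarith)]
      congr 1
      push_cast
      ring

/-- the parameters `z = T^.35`, `z1 = T^.355`, `Z1 = T^.6475`. -/
lemma ev_par {ρ κ : ℝ} (hρ : 0 < ρ) (hρ1 : ρ ≤ 1 / 100) (hκ1 : κ ≤ 1 / 1000) :
    ∀ᶠ T : ℝ in atTop, ∀ N₁ N : ℕ, T ^ (1 - κ) ≤ N₁ → (N : ℝ) ≤ T ^ (1 + κ) → N₁ < N →
      Par (N₁ + 1) N ⌊T ^ ρ⌋₊ ⌊T ^ (7 / 20 : ℝ)⌋₊ ⌈T ^ (71 / 200 : ℝ)⌉₊ ⌊T ^ (259 / 400 : ℝ)⌋₊ := by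
  filter_upwards [ev_floor (a := 0) (b := ρ) le_rfl hρ, ev_floor (a := 1 / 10) (b := 7 / 20) (by norm_num) (by norm_num),
    ev_pow (a := 355 / 500) (b := 9 / 10) (by norm_num) 4, ev_pow (a := 7 / 20) (b := 71 / 200) (by norm_num) 1,
    ev_pow (a := 1001 / 1000) (b := 401 / 400) (by norm_num) 2, ev_pow (a := 259 / 400) (b := 7 / 10) (by norm_num) 4,
    ev_pow (a := 1001 / 1000) (b := 21 / 20) (by norm_num) 16, ev_floor (a := 3 / 10) (b := 259 / 400) (by norm_num) (by norm_num),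
    ev_pow (a := 0) (b := 7 / 20) (by norm_num) 2, ev_pow (a := 0) (b := 259 / 400) (by norm_num) 2,
    eventually_ge_atTop 1] with T a1 a2 a3 a4 a5 a6 a7 a8 a9 a10 hT N₁ N hN1 hN hlt
  have hT0 : 0 < T := by linarith
  have hp : ∀ x : ℝ, 0 < T ^ x := fun x => Real.rpow_pos_of_pos hT0 x
  have hone : ∀ x : ℝ, 0 ≤ x → 1 ≤ T ^ x := fun x hx => Real.one_le_rpow hT hx
  rw [Real.rpow_zero] at a1 a9 a10
  have f1 := Nat.lt_floor_add_one (T ^ (7 / 20 : ℝ))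
  have f2 := Nat.floor_le (hp (7 / 20)).le
  have f3 := Nat.le_ceil (T ^ (71 / 200 : ℝ))
  have f4 := Nat.ceil_lt_add_one (hp (71 / 200)).le
  have f5 := Nat.lt_floor_add_one (T ^ (259 / 400 : ℝ))
  have f6 := Nat.floor_le (hp (259 / 400)).le
  have hN1' : T ^ (999 / 1000 : ℝ) ≤ N₁ := (Real.rpow_le_rpow_of_exponent_le hT (by linarith)).trans hN1
  have hN' : (N : ℝ) ≤ T ^ (1001 / 1000 : ℝ) := hN.trans (Real.rpow_le_rpow_of_exponent_le hT (by linarith))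
  set z : ℕ := ⌊T ^ (7 / 20 : ℝ)⌋₊ with hz
  set z1 : ℕ := ⌈T ^ (71 / 200 : ℝ)⌉₊ with hz1
  set Z1 : ℕ := ⌊T ^ (259 / 400 : ℝ)⌋₊ with hZ1
  have hzlow : T ^ (7 / 20 : ℝ) / 2 ≤ z := by linarith
  have hZlow : T ^ (259 / 400 : ℝ) / 2 ≤ Z1 := by linarith
  refine ⟨?_, ?_, ?_, ?_, ?_, ?_, ?_, ?_⟩
  · have : (1 : ℝ) ≤ (⌊T ^ ρ⌋₊ : ℝ) := a1
    exact_mod_cast this
  · apply Nat.floor_le_floor
    exact Real.rpow_le_rpow_of_exponent_le hT (by linarith)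
  · have : (z : ℝ) ≤ z1 := by linarith
    exact_mod_cast this
  · have h1 : (z1 : ℝ) ≤ 2 * T ^ (71 / 200 : ℝ) := by linarith [hone (71 / 200) (by norm_num)]
    have h2 : (z1 : ℝ) * z1 ≤ 4 * T ^ (355 / 500 : ℝ) := by
      calc (z1 : ℝ) * z1 ≤ (2 * T ^ (71 / 200 : ℝ)) * (2 * T ^ (71 / 200 : ℝ)) :=
            mul_le_mul h1 h1 (Nat.cast_nonneg _) (by positivity)
        _ = 4 * (T ^ (71 / 200 : ℝ) * T ^ (71 / 200 : ℝ)) := by ring
        _ = 4 * T ^ (355 / 500 : ℝ) := by rw [← Real.rpow_add hT0]; norm_num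
    have h3 : T ^ (9 / 10 : ℝ) ≤ T ^ (999 / 1000 : ℝ) := Real.rpow_le_rpow_of_exponent_le hT (by norm_num)
    have h4 : (z1 : ℝ) * z1 < N₁ + 1 := by linarith
    exact_mod_cast h4
  · have h2 : (z : ℝ) * Z1 ≤ T ^ (399 / 400 : ℝ) := by
      calc (z : ℝ) * Z1 ≤ T ^ (7 / 20 : ℝ) * T ^ (259 / 400 : ℝ) :=
            mul_le_mul f2 f6 (Nat.cast_nonneg _) (hp _).le
        _ = T ^ (399 / 400 : ℝ) := by rw [← Real.rpow_add hT0]; norm_num
    have h3 : T ^ (399 / 400 : ℝ) ≤ T ^ (999 / 1000 : ℝ) := Real.rpow_le_rpow_of_exponent_le hT (by norm_num)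
    have h4 : (z : ℝ) * Z1 ≤ N₁ + 1 := by linarith
    exact_mod_cast h4
  · have h2 : T ^ (401 / 400 : ℝ) / 2 ≤ (z1 : ℝ) * Z1 := by
      calc T ^ (401 / 400 : ℝ) / 2 = T ^ (71 / 200 : ℝ) * (T ^ (259 / 400 : ℝ) / 2) := by
            rw [show (401 / 400 : ℝ) = 71 / 200 + 259 / 400 by norm_num, Real.rpow_add hT0]
            ring
        _ ≤ (z1 : ℝ) * Z1 := mul_le_mul f3 hZlow (by positivity) (Nat.cast_nonneg _)
    have h3 : (N : ℝ) ≤ (z1 : ℝ) * Z1 := by linarith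
    exact_mod_cast h3
  · have h2 : T ^ (7 / 10 : ℝ) / 4 ≤ (z : ℝ) * z := by
      calc T ^ (7 / 10 : ℝ) / 4 = (T ^ (7 / 20 : ℝ) / 2) * (T ^ (7 / 20 : ℝ) / 2) := by
            rw [show (7 / 10 : ℝ) = 7 / 20 + 7 / 20 by norm_num, Real.rpow_add hT0]
            ring
        _ ≤ (z : ℝ) * z := mul_le_mul hzlow hzlow (by positivity) (Nat.cast_nonneg _)
    have h3 : (Z1 : ℝ) ≤ (z : ℝ) * z := by linarith
    exact_mod_cast h3
  · have h2 : T ^ (21 / 20 : ℝ) / 8 ≤ (z : ℝ) * z * z := by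
      calc T ^ (21 / 20 : ℝ) / 8 = (T ^ (7 / 20 : ℝ) / 2) * (T ^ (7 / 20 : ℝ) / 2) * (T ^ (7 / 20 : ℝ) / 2) := by
            rw [show (21 / 20 : ℝ) = 7 / 20 + 7 / 20 + 7 / 20 by norm_num, Real.rpow_add hT0, Real.rpow_add hT0]
            ring
        _ ≤ (z : ℝ) * z * z := by
            apply mul_le_mul _ hzlow (by positivity) (by positivity)
            exact mul_le_mul hzlow hzlow (by positivity) (Nat.cast_nonneg _)
    have h3 : (N : ℝ) < (z : ℝ) * z * z := by linarith [hp (1001 / 1000)]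
    exact_mod_cast h3

end Pool.Agent.Helper25.AP
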