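import Pool.Agent.Helper25.AP.Fs1

/-!
# AP: sums over primes from sums over rectangles, asymptotic form
-/

set_option autoImplicit false

open Finset Filter Topology
open scoped Classical

namespace Pool.Agent.Helper25.AP

/-- the inputs at a given `T`, shift and window. -/
structure RI (F : ℕ → ℝ) (N₁ N : ℕ) (T ρ ρ' s1 s2 s3 s4 : ℝ) : Prop where
  i1 : Rect (fun l => l.Prime ∧ T ^ ρ < l ∧ (l : ℝ) ≤ T ^ (9 / 25 : ℝ)) F N₁ N (T ^ (1 - s1))
  i2 : Rect (fun x => Sm ⌊T ^ ρ⌋₊ x ∧ T ^ ρ' < x ∧ (x : ℝ) ≤ T ^ (ρ' + ρ)) F N₁ N (T ^ (1 - s2))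
  i3 : Rect3 F N ⌊T ^ ρ'⌋₊ (T ^ (1 - s3))
  i4 : ∀ z1 Z1 : ℕ, T ^ (17 / 50 : ℝ) ≤ z1 → (Z1 : ℝ) ≤ T ^ (33 / 50 : ℝ) →
    |H4s F N₁ N ⌊T ^ ρ⌋₊ ⌊T ^ ρ'⌋₊ z1 Z1| ≤ T ^ (1 - s4)

lemma Rect.mono {P P' : ℕ → Prop} {F : ℕ → ℝ} {N₁ N : ℕ} {E : ℝ} (h : Rect P F N₁ N E) (hP : ∀ l, P' l → P l) :
    Rect P' F N₁ N E :=
  fun α β M L M₀ L₀ h1 h2 h3 h4 h5 h6 h7 h8 => h α β M L M₀ L₀ h1 h2 (fun l hl => hP l (h3 l hl)) h4 h5 h6 h7 h8

/-- **primes in windows.** -/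
theorem prime_ev {b : ℝ → ℤ → ℝ} {ρ ρ' s1 s2 s3 s4 κ0 : ℝ} (hρ : 0 < ρ) (hρ1 : ρ ≤ 1 / 100) (hρ' : 0 < ρ')
    (h1 : 0 < s1) (h2 : ρ < s2) (h3 : ρ' < s3) (h4 : 0 < s4) (hκ0 : 0 < κ0)
    (bd : ∀ ε : ℝ, 0 < ε → ∀ᶠ T : ℝ in atTop, ∀ n : ℤ, n ≠ 0 → |(n : ℝ)| ≤ T ^ 2 → |b T n| ≤ T ^ ε)
    (H : ∀ᶠ T : ℝ in atTop, ∀ k : ℤ, k ≠ 0 → |(k : ℝ)| ≤ T ^ κ0 → ∀ N₁ N : ℕ, T ^ (1 - κ0) ≤ N₁ →
      (N : ℝ) ≤ T ^ (1 + κ0) → N₁ < N → RI (fun n => b T (n + k)) N₁ N T ρ ρ' s1 s2 s3 s4) :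
    ∃ τ : ℝ, 0 < τ ∧ τ ≤ 1 / 1000 ∧ τ ≤ κ0 ∧ ∀ᶠ T : ℝ in atTop, ∀ k : ℤ, k ≠ 0 → |(k : ℝ)| ≤ T ^ τ →
      ∀ N₁ N : ℕ, T ^ (1 - τ) ≤ N₁ → (N : ℝ) ≤ T ^ (1 + τ) → N₁ < N →
      |∑ n ∈ Ioc N₁ N, pr n * b T (n + k)| ≤ T ^ (1 - τ) := by
  obtain ⟨m, hm0, m1, m2, m3, m4, m5, m6, m7⟩ : ∃ m : ℝ, 0 < m ∧ m ≤ s1 ∧ m ≤ s2 - ρ ∧ m ≤ s3 - ρ' ∧ m ≤ s4 ∧
      m ≤ ρ ∧ m ≤ κ0 ∧ m ≤ 1 / 10 := by
    refine ⟨min s1 (min (s2 - ρ) (min (s3 - ρ') (min s4 (min ρ (min κ0 (1 / 10)))))), ?_, ?_, ?_, ?_, ?_, ?_, ?_, ?_⟩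
    · simp only [lt_min_iff]
      refine ⟨h1, by linarith, by linarith, h4, hρ, hκ0, by norm_num⟩
    · exact min_le_left _ _
    · exact (min_le_right _ _).trans (min_le_left _ _)
    · exact (min_le_right _ _).trans ((min_le_right _ _).trans (min_le_left _ _))
    · exact (min_le_right _ _).trans ((min_le_right _ _).trans ((min_le_right _ _).trans (min_le_left _ _)))
    · exact (min_le_right _ _).trans ((min_le_right _ _).trans ((min_le_right _ _).trans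
        ((min_le_right _ _).trans (min_le_left _ _))))
    · exact (min_le_right _ _).trans ((min_le_right _ _).trans ((min_le_right _ _).trans
        ((min_le_right _ _).trans ((min_le_right _ _).trans (min_le_left _ _)))))
    · exact (min_le_right _ _).trans ((min_le_right _ _).trans ((min_le_right _ _).trans
        ((min_le_right _ _).trans ((min_le_right _ _).trans (min_le_right _ _)))))
  refine ⟨m / 100, by positivity, by linarith, by linarith, ?_⟩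
  filter_upwards [H, bd (m / 500) (by positivity), ev_div (ε := m / 500) (by positivity),
    ev_par (κ := m / 100) hρ hρ1 (by linarith), ev_floor (a := 3 * m / 25) (b := m / 8) (by positivity) (by linarith),
    ev_floor (a := m / 2) (b := ρ) (by positivity) (by linarith), ev_floor (a := 0) (b := ρ') le_rfl hρ',
    ev_log (b := m / 400) (by positivity) 3, ev_pow (a := m / 8 + m / 400) (b := m * 13 / 100) (by linarith) 2,
    ev_pow (a := 1 - m / 2) (b := 1 - m / 100) (by linarith) 20, ev_pow (a := 1 - m / 20) (b := 1 - m / 100) (by linarith) 300,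
    ev_pow (a := 71 / 200) (b := 9 / 25) (by norm_num) 2, ev_pow (a := 17 / 50) (b := 71 / 200) (by norm_num) 1,
    ev_pow (a := m / 8) (b := 71 / 200) (by linarith) 1, ev_floor (a := m / 8) (b := 259 / 400) (by positivity) (by linarith),
    ev_pow (a := 259 / 400) (b := 9 / 10) (by norm_num) 1, ev_pow (a := 0) (b := m * 3 / 25) (by linarith) 2,
    ev_pow (a := m / 100) (b := 9 / 10) (by linarith) 6, ev_pow (a := 1 + m / 100) (b := 3 / 2) (by linarith) 2,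
    ev_pow (a := 0) (b := m * 13 / 100) (by linarith) 2,
    eventually_ge_atTop 3] with T hH hbd hdiv hpar hK1 hw1 hD1 hlog hJ ht1 ht2 hz1 hz1' hKz hKZ hZN hK2 hk9 hN32 hJ2 hT3
    k hk0 hk N₁ N hN1 hN hlt
  have hT : 1 ≤ T := by linarith
  have hT0 : 0 < T := by linarith
  have hp : ∀ x : ℝ, 0 < T ^ x := fun x => Real.rpow_pos_of_pos hT0 x
  have hmono : ∀ x y : ℝ, x ≤ y → T ^ x ≤ T ^ y := fun x y h => Real.rpow_le_rpow_of_exponent_le hT h
  rw [one_mul] at hz1' hKz hZN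
  rw [Real.rpow_zero] at hD1 hK2 hJ2
  have hRI := hH k hk0 (hk.trans (hmono _ _ (by linarith))) N₁ N ((hmono _ _ (by linarith)).trans hN1)
    (hN.trans (hmono _ _ (by linarith))) hlt
  have hP := hpar N₁ N hN1 hN hlt
  set w := ⌊T ^ ρ⌋₊ with hw
  set D := ⌊T ^ ρ'⌋₊ with hD
  set K := ⌊T ^ (m / 8)⌋₊ with hK
  set z1 := ⌈T ^ (71 / 200 : ℝ)⌉₊ with hz1d
  set Z1 := ⌊T ^ (259 / 400 : ℝ)⌋₊ with hZ1d
  have hN9 : T ^ (9 / 10 : ℝ) ≤ N₁ := (hmono _ _ (by linarith)).trans hN1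
  have hNT : (N : ℝ) ≤ T ^ 2 := by
    refine hN.trans ?_
    rw [← Real.rpow_natCast]
    exact hmono _ _ (by push_cast; linarith)
  have hNpos : (0 : ℝ) < N := by
    have : 0 < N := by omega
    exact_mod_cast this
  have hkk : |(k : ℝ)| ≤ T ^ (m / 100) := hk
  -- pointwise bound
  have hF : ∀ n : ℕ, N₁ < 3 * n → n ≤ N → |b T (n + k)| ≤ T ^ (m / 500) := by
    intro n hn hnN
    have e1 : (N₁ : ℝ) < 3 * n := by exact_mod_cast hn
    have e2 : (n : ℝ) ≤ N := by exact_mod_cast hnN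
    have e3 := abs_le.mp hkk
    have e4 : (0 : ℝ) < (n : ℝ) + k := by linarith
    apply hbd
    · intro h0
      have : ((n : ℤ) : ℝ) + k = 0 := by exact_mod_cast h0
      push_cast at this
      linarith
    · push_cast
      rw [abs_of_pos e4]
      have e5 : T ^ (m / 100) ≤ T ^ (9 / 10 : ℝ) := hmono _ _ (by linarith)
      have e6 : (N : ℝ) + T ^ (m / 100) ≤ T ^ 2 := by
        have e7 : T ^ (m / 100) ≤ T ^ (1 + m / 100) := hmono _ _ (by linarith)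
        have e8 : 2 * T ^ (1 + m / 100) ≤ T ^ (3 / 2 : ℝ) := hN32
        have e9 : T ^ (3 / 2 : ℝ) ≤ T ^ 2 := by
          rw [← Real.rpow_natCast]
          exact hmono _ _ (by norm_num)
        linarith
      linarith
  have hDB : DB N (T ^ (m / 500)) := by
    intro n hn
    rw [mem_Icc] at hn
    apply hdiv n (by omega)
    have : (n : ℝ) ≤ N := by exact_mod_cast hn.2
    linarith
  have cD : 1 ≤ D := by
    have : (1 : ℝ) ≤ (D : ℝ) := hD1
    exact_mod_cast this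
  have cK : 2 ≤ K := by
    have h5 : T ^ (m * 3 / 25) = T ^ (3 * m / 25) := by ring_nf
    rw [h5] at hK2
    have : (2 : ℝ) ≤ (K : ℝ) := by linarith
    exact_mod_cast this
  have fK : (K : ℝ) ≤ T ^ (m / 8) := Nat.floor_le (hp _).le
  have fw : (w : ℝ) ≤ T ^ ρ := Nat.floor_le (hp _).le
  have fD : (D : ℝ) ≤ T ^ ρ' := Nat.floor_le (hp _).le
  have cKz : K ≤ z1 := by
    have : (K : ℝ) ≤ (z1 : ℝ) := (fK.trans hKz).trans (Nat.le_ceil _)
    exact_mod_cast this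
  have cKZ : K ≤ Z1 := by
    have : (K : ℝ) ≤ (Z1 : ℝ) := fK.trans hKZ
    exact_mod_cast this
  have cZN : Z1 ≤ N := by
    have h5 : (Z1 : ℝ) ≤ T ^ (259 / 400 : ℝ) := Nat.floor_le (hp _).le
    have : (Z1 : ℝ) ≤ (N₁ : ℝ) := by linarith
    have : Z1 ≤ N₁ := by exact_mod_cast this
    omega
  have fz1 : (z1 : ℝ) ≤ T ^ (9 / 25 : ℝ) := by
    have h5 := Nat.ceil_lt_add_one (hp (71 / 200)).le
    have h6 : 1 ≤ T ^ (71 / 200 : ℝ) := Real.one_le_rpow hT (by norm_num)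
    linarith
  have key := prime_window (F := fun n => b T (n + k)) hP hlt hF hDB cD cK cKz cKZ cZN
    (hRI.i1.mono (fun l hl => ⟨hl.1, Nat.lt_of_floor_lt hl.2.1, (by exact_mod_cast hl.2.2 : (l : ℝ) ≤ (z1 : ℝ)).trans fz1⟩))
    (hRI.i2.mono (fun x hx => ⟨hx.1, Nat.lt_of_floor_lt hx.2.1, by
      have h5 : (x : ℝ) ≤ (D : ℝ) * w := by exact_mod_cast hx.2.2
      rw [Real.rpow_add hT0]
      exact h5.trans (mul_le_mul fD fw (Nat.cast_nonneg _) (hp _).le)⟩))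
    hRI.i3 (hRI.i4 z1 Z1 (hz1'.trans (Nat.le_ceil _)) ((Nat.floor_le (hp _).le).trans (hmono _ _ (by norm_num))))
    (hp _).le (hp _).le (hp _).le
  refine key.trans ?_
  -- sizes
  have hlogN : Real.log N ≤ 2 * Real.log T := by
    have h5 := Real.log_le_log hNpos hNT
    rw [Real.log_pow] at h5
    exact_mod_cast h5
  have hlogT : 0 ≤ Real.log T := Real.log_nonneg hT
  have hlogN0 : 0 ≤ Real.log N := Real.log_nonneg (by exact_mod_cast (by omega : 1 ≤ N))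
  have hJb : (K : ℝ) * Real.log N + 1 ≤ T ^ (m * 13 / 100) := by
    have h5 : (K : ℝ) * Real.log N ≤ T ^ (m / 8) * (3 * Real.log T) := by
      apply mul_le_mul fK _ hlogN0 (hp _).le
      linarith
    have h6 : T ^ (m / 8) * (3 * Real.log T) ≤ T ^ (m / 8) * T ^ (m / 400) :=
      mul_le_mul_of_nonneg_left hlog (hp _).le
    rw [← Real.rpow_add hT0] at h6
    linarith
  set J := (K : ℝ) * Real.log N + 1 with hJd
  have hJ0 : 0 ≤ J := by positivity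
  have q1 : 4 * J ^ 2 * T ^ (m / 500) * T ^ (1 - s1) ≤ T ^ (1 - m / 100) / 5 := by
    calc 4 * J ^ 2 * T ^ (m / 500) * T ^ (1 - s1) ≤ 4 * (T ^ (m * 13 / 100)) ^ 2 * T ^ (m / 500) * T ^ (1 - s1) := by
          have := hp (m / 500)
          have := hp (1 - s1)
          gcongr
      _ = 4 * T ^ (m * 13 / 100 + m * 13 / 100 + m / 500 + (1 - s1)) := by
          rw [Real.rpow_add hT0, Real.rpow_add hT0, Real.rpow_add hT0]
          ring
      _ ≤ 4 * T ^ (1 - m / 2) := mul_le_mul_of_nonneg_left (hmono _ _ (by linarith)) (by norm_num)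
      _ ≤ T ^ (1 - m / 100) / 5 := by linarith
  have q2 : 2 * w * J ^ 2 * (T ^ (m / 500)) ^ 2 * T ^ (1 - s2) ≤ T ^ (1 - m / 100) / 5 := by
    calc 2 * w * J ^ 2 * (T ^ (m / 500)) ^ 2 * T ^ (1 - s2) ≤
          2 * T ^ ρ * (T ^ (m * 13 / 100)) ^ 2 * (T ^ (m / 500)) ^ 2 * T ^ (1 - s2) := by
          have := hp (m / 500)
          have := hp (1 - s2)
          have := hp ρ
          gcongr
      _ = 2 * T ^ (ρ + m * 13 / 100 + m * 13 / 100 + m / 500 + m / 500 + (1 - s2)) := by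
          rw [Real.rpow_add hT0, Real.rpow_add hT0, Real.rpow_add hT0, Real.rpow_add hT0, Real.rpow_add hT0]
          ring
      _ ≤ 2 * T ^ (1 - m / 2) := mul_le_mul_of_nonneg_left (hmono _ _ (by linarith)) (by norm_num)
      _ ≤ T ^ (1 - m / 100) / 5 := by linarith [hp (1 - m / 2)]
  have q3 : D * T ^ (1 - s3) ≤ T ^ (1 - m / 100) / 5 := by
    calc D * T ^ (1 - s3) ≤ T ^ ρ' * T ^ (1 - s3) := mul_le_mul_of_nonneg_right fD (hp _).le
      _ = T ^ (ρ' + (1 - s3)) := (Real.rpow_add hT0 _ _).symm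
      _ ≤ T ^ (1 - m / 2) := hmono _ _ (by linarith)
      _ ≤ T ^ (1 - m / 100) / 5 := by linarith [hp (1 - m / 2)]
  have q4 : T ^ (1 - s4) ≤ T ^ (1 - m / 100) / 5 := by
    calc T ^ (1 - s4) ≤ T ^ (1 - m / 2) := hmono _ _ (by linarith)
      _ ≤ T ^ (1 - m / 100) / 5 := by linarith [hp (1 - m / 2)]
  have q5 : 30 * T ^ (m / 500) * (T ^ (m / 500)) ^ 3 * N * (1 / w + 1 / K) ≤ T ^ (1 - m / 100) / 5 := by
    have a1 : 1 / (K : ℝ) ≤ T ^ (-(3 * m / 25)) := by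
      rw [Real.rpow_neg hT0.le, one_div]
      exact inv_anti₀ (hp _) hK1
    have a2 : 1 / (w : ℝ) ≤ T ^ (-(3 * m / 25)) := by
      rw [Real.rpow_neg hT0.le, one_div]
      exact inv_anti₀ (hp _) ((hmono _ _ (by linarith)).trans hw1)
    calc 30 * T ^ (m / 500) * (T ^ (m / 500)) ^ 3 * N * (1 / w + 1 / K) ≤
          30 * T ^ (m / 500) * (T ^ (m / 500)) ^ 3 * T ^ (1 + m / 100) * (T ^ (-(3 * m / 25)) + T ^ (-(3 * m / 25))) := by
          have := hp (m / 500)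
          gcongr
      _ = 60 * T ^ (m / 500 + m / 500 + m / 500 + m / 500 + (1 + m / 100) + -(3 * m / 25)) := by
          rw [Real.rpow_add hT0 (m / 500 + m / 500 + m / 500 + m / 500 + (1 + m / 100)) (-(3 * m / 25)),
            Real.rpow_add hT0 (m / 500 + m / 500 + m / 500 + m / 500) (1 + m / 100),
            Real.rpow_add hT0 (m / 500 + m / 500 + m / 500) (m / 500), Real.rpow_add hT0 (m / 500 + m / 500) (m / 500),
            Real.rpow_add hT0 (m / 500) (m / 500)]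
          ring
      _ ≤ 60 * T ^ (1 - m / 20) := mul_le_mul_of_nonneg_left (hmono _ _ (by linarith)) (by norm_num)
      _ ≤ T ^ (1 - m / 100) / 5 := by linarith
  linarith

/-- summation by parts with `log`. -/
lemma abel_log {a : ℕ → ℝ} {M : ℕ} {A : ℝ} {N : ℕ} (hMN : M + 1 ≤ N)
    (h : ∀ n, M < n → n ≤ N → |∑ i ∈ Ioc M n, a i| ≤ A) :
    |∑ n ∈ Ioc M N, Real.log n * a n| ≤ 2 * Real.log N * A := by
  have hA : 0 ≤ A := (abs_nonneg _).trans (h N (by omega) le_rfl)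
  have key : ∀ n, M + 1 ≤ n → n ≤ N → |∑ i ∈ Ioc M n, Real.log i * a i - Real.log n * ∑ i ∈ Ioc M n, a i| ≤
      A * (Real.log n - Real.log ((M + 1 : ℕ) : ℝ)) := by
    intro n hn
    induction n, hn using Nat.le_induction with
    | base =>
      intro _
      rw [Nat.Ioc_succ_singleton M]
      simp
    | succ n hn ih =>
      intro hnN
      have h1 := ih (by omega)
      have h2 := h n (by omega) (by omega)
      rw [sum_Ioc_succ_top (by omega), sum_Ioc_succ_top (by omega)]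
      have hn0 : (0 : ℝ) < n := by exact_mod_cast (by omega : 0 < n)
      have h3 : Real.log n ≤ Real.log ((n + 1 : ℕ) : ℝ) := Real.log_le_log hn0 (by push_cast; linarith)
      have e : ∑ i ∈ Ioc M n, Real.log i * a i + Real.log ((n + 1 : ℕ) : ℝ) * a (n + 1) -
          Real.log ((n + 1 : ℕ) : ℝ) * (∑ i ∈ Ioc M n, a i + a (n + 1)) =
          (∑ i ∈ Ioc M n, Real.log i * a i - Real.log n * ∑ i ∈ Ioc M n, a i) -
          (Real.log ((n + 1 : ℕ) : ℝ) - Real.log n) * ∑ i ∈ Ioc M n, a i := by ring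
      rw [e]
      refine (abs_sub _ _).trans ?_
      rw [abs_mul, abs_of_nonneg (by linarith : 0 ≤ Real.log ((n + 1 : ℕ) : ℝ) - Real.log n)]
      have h4 : (Real.log ((n + 1 : ℕ) : ℝ) - Real.log n) * |∑ i ∈ Ioc M n, a i| ≤
          (Real.log ((n + 1 : ℕ) : ℝ) - Real.log n) * A := mul_le_mul_of_nonneg_left h2 (by linarith)
      linarith
  have h1 := key N hMN le_rfl
  have h2 := h N (by omega) le_rfl
  have hlogM : 0 ≤ Real.log ((M + 1 : ℕ) : ℝ) := Real.log_nonneg (by exact_mod_cast (by omega : 1 ≤ M + 1))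
  have hlogN : 0 ≤ Real.log N := Real.log_nonneg (by exact_mod_cast (by omega : 1 ≤ N))
  have h3 : |Real.log N * ∑ i ∈ Ioc M N, a i| ≤ Real.log N * A := by
    rw [abs_mul, abs_of_nonneg hlogN]
    exact mul_le_mul_of_nonneg_left h2 hlogN
  have h4 : |∑ n ∈ Ioc M N, Real.log n * a n| ≤
      |∑ i ∈ Ioc M N, Real.log i * a i - Real.log N * ∑ i ∈ Ioc M N, a i| + |Real.log N * ∑ i ∈ Ioc M N, a i| := by
    have e : ∑ n ∈ Ioc M N, Real.log n * a n =
      (∑ i ∈ Ioc M N, Real.log i * a i - Real.log N * ∑ i ∈ Ioc M N, a i) + Real.log N * ∑ i ∈ Ioc M N, a i := by ring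
    conv_lhs => rw [e]
    exact abs_add_le _ _
  have h5 : 0 ≤ A * Real.log ((M + 1 : ℕ) : ℝ) := by positivity
  nlinarith

end Pool.Agent.Helper25.AP
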