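import Pool.Agent.Helper25.AP.Fs2
import Pool.Agent.Helper56.AP.Defs3

/-!
# AP: fixed shifts of `Λ` against `b`
-/

set_option autoImplicit false

open Finset Filter Topology
open scoped Classical

namespace Pool.Agent.AP

open Pool.Agent.Helper25.AP

/-- prime powers that are not primes -/
noncomputable def npp (n : ℕ) : ℝ := if n.Prime then 0 else ArithmeticFunction.vonMangoldt n

lemma npp_nonneg (n : ℕ) : 0 ≤ npp n := by
  unfold npp
  split_ifs
  · exact le_rfl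
  · exact ArithmeticFunction.vonMangoldt_nonneg

lemma Lz_eq (n : ℕ) : Lz (n : ℤ) = Real.log n * pr n + npp n := by
  unfold Lz npp pr
  rw [Int.toNat_natCast]
  split_ifs with h
  · rw [ArithmeticFunction.vonMangoldt_apply_prime h]
    ring
  · ring

lemma sum_npp {M N : ℕ} (hN : 1 ≤ N) : ∑ n ∈ Ioc M N, npp n ≤ 2 * √(N : ℝ) * Real.log N := by
  have h := Chebyshev.psi_sub_theta_eq_sum_not_prime (N : ℝ)
  have h2 := Chebyshev.psi_sub_theta_le (x := (N : ℝ)) (by exact_mod_cast hN)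
  rw [h, Nat.floor_natCast] at h2
  refine le_trans ?_ h2
  rw [sum_filter]
  have h3 : ∑ n ∈ Ioc M N, npp n ≤ ∑ n ∈ Ioc 0 N, npp n := by
    apply sum_le_sum_of_subset_of_nonneg
    · exact Ioc_subset_Ioc_left (Nat.zero_le _)
    · intro n _ _
      exact npp_nonneg n
  refine h3.trans (le_of_eq ?_)
  refine sum_congr rfl fun n _ => ?_
  unfold npp
  split_ifs <;> simp_all

/-- **the fixed shifts of `Λ` against `b`, from sums over rectangles.** -/
theorem FS_of_inputs {b : ℝ → ℤ → ℝ} {ρ ρ' s1 s2 s3 s4 κ0 : ℝ} (hρ : 0 < ρ) (hρ1 : ρ ≤ 1 / 100) (hρ' : 0 < ρ')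
    (h1 : 0 < s1) (h2 : ρ < s2) (h3 : ρ' < s3) (h4 : 0 < s4) (hκ0 : 0 < κ0)
    (bd : ∀ ε : ℝ, 0 < ε → ∀ᶠ T : ℝ in atTop, ∀ n : ℤ, n ≠ 0 → |(n : ℝ)| ≤ T ^ 2 → |b T n| ≤ T ^ ε)
    (H : ∀ᶠ T : ℝ in atTop, ∀ k : ℤ, k ≠ 0 → |(k : ℝ)| ≤ T ^ κ0 → ∀ N₁ N : ℕ, T ^ (1 - κ0) ≤ N₁ →
      (N : ℝ) ≤ T ^ (1 + κ0) → N₁ < N → RI (fun n => b T (n + k)) N₁ N T ρ ρ' s1 s2 s3 s4) :
    ∃ κ s : ℝ, 0 < κ ∧ 0 < s ∧ FS (fun _ => Lz) b κ s := by
  obtain ⟨τ, hτ, hτ1, hτ0, hmain⟩ := prime_ev hρ hρ1 hρ' h1 h2 h3 h4 hκ0 bd H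
  refine ⟨τ, τ / 4, hτ, by positivity, ?_⟩
  unfold FS
  filter_upwards [hmain, bd (τ / 8) (by positivity), ev_log (b := τ / 8) (by positivity) 8,
    ev_pow (a := 1 - 3 * τ / 4) (b := 1 - τ / 4) (by linarith) 3,
    ev_pow (a := 3 / 4) (b := 1 - τ / 4) (by linarith) 3,
    ev_pow (a := τ) (b := 9 / 10) (by linarith) 2, ev_pow (a := 1 + τ) (b := 3 / 2) (by linarith) 2,
    eventually_ge_atTop 3] with T hm hbd hlog e1 e2 e3 e4 hT3 k hk0 hk N₁ N₂ hN1 hN2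
  have hT : 1 ≤ T := by linarith
  have hT0 : 0 < T := by linarith
  have hp : ∀ x : ℝ, 0 < T ^ x := fun x => Real.rpow_pos_of_pos hT0 x
  have hmono : ∀ x y : ℝ, x ≤ y → T ^ x ≤ T ^ y := fun x y h => Real.rpow_le_rpow_of_exponent_le hT h
  have hlogT : 0 ≤ Real.log T := Real.log_nonneg hT
  by_cases hlt : N₁ < N₂
  swap
  · rw [Ioc_eq_empty (by omega), sum_empty, abs_zero]
    exact (hp _).le
  have hN2pos : (0 : ℝ) < N₂ := by exact_mod_cast (by omega : 0 < N₂)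
  have hN2T : (N₂ : ℝ) ≤ T ^ 2 := by
    refine hN2.trans ?_
    rw [← Real.rpow_natCast]
    exact hmono _ _ (by push_cast; linarith)
  have hlogN : ∀ n : ℕ, n ≠ 0 → n ≤ N₂ → Real.log n ≤ 2 * Real.log T := by
    intro n hn hnN
    have h5 : (n : ℝ) ≤ T ^ 2 := le_trans (by exact_mod_cast hnN) hN2T
    have h6 := Real.log_le_log (by exact_mod_cast Nat.pos_of_ne_zero hn : (0 : ℝ) < n) h5
    rw [Real.log_pow] at h6
    exact_mod_cast h6
  -- pointwise
  have hB : ∀ n : ℕ, N₁ < n → n ≤ N₂ → |b T (n + k)| ≤ T ^ (τ / 8) := by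
    intro n hn hnN
    have f1 : (N₁ : ℝ) < n := by exact_mod_cast hn
    have f2 : (n : ℝ) ≤ N₂ := by exact_mod_cast hnN
    have f3 := abs_le.mp hk
    have f4 : (0 : ℝ) < (n : ℝ) + k := by linarith [hp τ]
    apply hbd
    · intro h0
      have : ((n : ℤ) : ℝ) + k = 0 := by exact_mod_cast h0
      push_cast at this
      linarith
    · push_cast
      rw [abs_of_pos f4]
      have f6 : (N₂ : ℝ) + T ^ τ ≤ T ^ 2 := by
        have f7 : T ^ τ ≤ T ^ (1 + τ) := hmono _ _ (by linarith)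
        have f9 : T ^ (3 / 2 : ℝ) ≤ T ^ 2 := by
          rw [← Real.rpow_natCast]
          exact hmono _ _ (by norm_num)
        linarith
      linarith
  have hLz : ∀ n : ℕ, n ≠ 0 → n ≤ N₂ → |Lz (n : ℤ)| ≤ 2 * Real.log T := by
    intro n hn hnN
    unfold Lz
    rw [Int.toNat_natCast, abs_of_nonneg ArithmeticFunction.vonMangoldt_nonneg]
    exact ArithmeticFunction.vonMangoldt_le_log.trans (hlogN n hn hnN)
  set M := max N₁ ⌈T ^ (1 - τ)⌉₊ with hM
  have split : ∑ n ∈ Ioc N₁ N₂, Lz n * b T (n + k) =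
      ∑ n ∈ (Ioc N₁ N₂).filter (fun n => n ≤ M), Lz n * b T (n + k) +
      ∑ n ∈ Ioc M N₂, Lz n * b T (n + k) := by
    rw [← sum_filter_add_sum_filter_not (Ioc N₁ N₂) (fun n => n ≤ M)]
    congr 1
    refine sum_congr ?_ fun _ _ => rfl
    ext n
    rw [mem_filter, mem_Ioc, mem_Ioc]
    have : N₁ ≤ M := le_max_left _ _
    omega
  have split2 : ∑ n ∈ Ioc M N₂, Lz n * b T (n + k) =
      ∑ n ∈ Ioc M N₂, Real.log n * (pr n * b T (n + k)) + ∑ n ∈ Ioc M N₂, npp n * b T (n + k) := by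
    rw [← sum_add_distrib]
    refine sum_congr rfl fun n _ => ?_
    rw [Lz_eq]
    ring
  -- small n
  have b1 : |∑ n ∈ (Ioc N₁ N₂).filter (fun n => n ≤ M), Lz n * b T (n + k)| ≤ T ^ (1 - τ / 4) / 3 := by
    refine (abs_sum_le_sum_abs _ _).trans ?_
    have c1 : ∀ n ∈ (Ioc N₁ N₂).filter (fun n => n ≤ M), |Lz n * b T (n + k)| ≤ T ^ (τ / 8) * T ^ (τ / 8) / 4 := by
      intro n hn
      rw [mem_filter, mem_Ioc] at hn
      rw [abs_mul]
      calc |Lz n| * |b T (n + k)| ≤ (2 * Real.log T) * T ^ (τ / 8) :=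
            mul_le_mul (hLz n (by omega) hn.1.2) (hB n hn.1.1 hn.1.2) (abs_nonneg _) (by positivity)
        _ ≤ (T ^ (τ / 8) / 4) * T ^ (τ / 8) := mul_le_mul_of_nonneg_right (by linarith) (hp _).le
        _ = T ^ (τ / 8) * T ^ (τ / 8) / 4 := by ring
    refine (sum_le_sum c1).trans ?_
    rw [sum_const, nsmul_eq_mul]
    have c2 : (((Ioc N₁ N₂).filter (fun n => n ≤ M)).card : ℝ) ≤ 2 * T ^ (1 - τ) := by
      have c3 : (Ioc N₁ N₂).filter (fun n => n ≤ M) ⊆ Ioc N₁ M := by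
        intro n hn
        rw [mem_filter, mem_Ioc] at hn
        rw [mem_Ioc]
        exact ⟨hn.1.1, hn.2⟩
      have c4 := card_le_card c3
      rw [Nat.card_Ioc] at c4
      have c5 : M - N₁ ≤ ⌈T ^ (1 - τ)⌉₊ := by
        rcases le_total N₁ ⌈T ^ (1 - τ)⌉₊ with h5 | h5
        · rw [hM, max_eq_right h5]; omega
        · rw [hM, max_eq_left h5]; omega
      have c6 := Nat.ceil_lt_add_one (hp (1 - τ)).le
      have c7 : 1 ≤ T ^ (1 - τ) := Real.one_le_rpow hT (by linarith)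
      have c8 : (((Ioc N₁ N₂).filter (fun n => n ≤ M)).card : ℝ) ≤ (⌈T ^ (1 - τ)⌉₊ : ℝ) := by
        exact_mod_cast c4.trans c5
      linarith
    calc (((Ioc N₁ N₂).filter (fun n => n ≤ M)).card : ℝ) * (T ^ (τ / 8) * T ^ (τ / 8) / 4) ≤
          (2 * T ^ (1 - τ)) * (T ^ (τ / 8) * T ^ (τ / 8) / 4) :=
          mul_le_mul_of_nonneg_right c2 (by have := hp (τ / 8); positivity)
      _ = T ^ ((1 - τ) + τ / 8 + τ / 8) / 2 := by
          rw [Real.rpow_add hT0, Real.rpow_add hT0]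
          ring
      _ ≤ T ^ (1 - 3 * τ / 4) / 2 := by
          apply div_le_div_of_nonneg_right _ (by norm_num)
          exact hmono _ _ (by linarith)
      _ ≤ T ^ (1 - τ / 4) / 3 := by linarith [hp (1 - 3 * τ / 4)]
  -- primes
  have b2 : |∑ n ∈ Ioc M N₂, Real.log n * (pr n * b T (n + k))| ≤ T ^ (1 - τ / 4) / 3 := by
    by_cases hM2 : M + 1 ≤ N₂
    · have hMT : T ^ (1 - τ) ≤ M := (Nat.le_ceil _).trans (by exact_mod_cast le_max_right _ _)
      have c1 := abel_log (a := fun n => pr n * b T (n + k)) (M := M) (A := T ^ (1 - τ)) (N := N₂) hM2 (by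
        intro n hn hnN
        refine hm k hk0 hk M n hMT ?_ hn
        exact le_trans (by exact_mod_cast hnN) hN2)
      refine c1.trans ?_
      have c2 := hlogN N₂ (by omega) le_rfl
      calc 2 * Real.log N₂ * T ^ (1 - τ) ≤ (T ^ (τ / 8)) * T ^ (1 - τ) :=
            mul_le_mul_of_nonneg_right (by linarith) (hp _).le
        _ = T ^ (τ / 8 + (1 - τ)) := (Real.rpow_add hT0 _ _).symm
        _ ≤ T ^ (1 - 3 * τ / 4) := hmono _ _ (by linarith)
        _ ≤ T ^ (1 - τ / 4) / 3 := by linarith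
    · rw [Ioc_eq_empty (by omega), sum_empty, abs_zero]
      have := hp (1 - τ / 4)
      positivity
  -- prime powers
  have b3 : |∑ n ∈ Ioc M N₂, npp n * b T (n + k)| ≤ T ^ (1 - τ / 4) / 3 := by
    refine (abs_sum_le_sum_abs _ _).trans ?_
    have c1 : ∀ n ∈ Ioc M N₂, |npp n * b T (n + k)| ≤ npp n * T ^ (τ / 8) := by
      intro n hn
      rw [mem_Ioc] at hn
      rw [abs_mul, abs_of_nonneg (npp_nonneg n)]
      have : N₁ ≤ M := le_max_left _ _
      exact mul_le_mul_of_nonneg_left (hB n (by omega) hn.2) (npp_nonneg n)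
    refine (sum_le_sum c1).trans ?_
    rw [← sum_mul]
    have c2 := sum_npp (M := M) (N := N₂) (by omega)
    have c3 := hlogN N₂ (by omega) le_rfl
    have c4 : √(N₂ : ℝ) ≤ T ^ ((1 + τ) / 2) := by
      rw [Real.sqrt_eq_rpow]
      calc (N₂ : ℝ) ^ (1 / 2 : ℝ) ≤ (T ^ (1 + τ)) ^ (1 / 2 : ℝ) := Real.rpow_le_rpow hN2pos.le hN2 (by norm_num)
        _ = T ^ ((1 + τ) / 2) := by rw [← Real.rpow_mul hT0.le]; ring_nf
    have hlogN0 : 0 ≤ Real.log N₂ := Real.log_nonneg (by exact_mod_cast (by omega : 1 ≤ N₂))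
    calc (∑ n ∈ Ioc M N₂, npp n) * T ^ (τ / 8) ≤ (2 * √(N₂ : ℝ) * Real.log N₂) * T ^ (τ / 8) :=
          mul_le_mul_of_nonneg_right c2 (hp _).le
      _ ≤ (2 * T ^ ((1 + τ) / 2) * (T ^ (τ / 8) / 4)) * T ^ (τ / 8) := by
          have := hp ((1 + τ) / 2)
          have := hp (τ / 8)
          have c5 : Real.log N₂ ≤ T ^ (τ / 8) / 4 := by linarith
          gcongr
      _ = T ^ ((1 + τ) / 2 + τ / 8 + τ / 8) / 2 := by
          rw [Real.rpow_add hT0, Real.rpow_add hT0]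
          ring
      _ ≤ T ^ (3 / 4 : ℝ) / 2 := by
          apply div_le_div_of_nonneg_right _ (by norm_num)
          exact hmono _ _ (by linarith)
      _ ≤ T ^ (1 - τ / 4) / 3 := by linarith [hp (3 / 4)]
  rw [split, split2]
  have c1 := abs_add_le (∑ n ∈ (Ioc N₁ N₂).filter (fun n => n ≤ M), Lz n * b T (n + k))
    (∑ n ∈ Ioc M N₂, Real.log n * (pr n * b T (n + k)) + ∑ n ∈ Ioc M N₂, npp n * b T (n + k))
  have c2 := abs_add_le (∑ n ∈ Ioc M N₂, Real.log n * (pr n * b T (n + k))) (∑ n ∈ Ioc M N₂, npp n * b T (n + k))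
  linarith

end Pool.Agent.AP
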