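import Pool.Agent.Helper25.AP.Fs3
import Pool.Agent.Helper56.AP.Stmts

/-!
# AP: fixed shifts of `Λ` against `b_1`
-/

set_option autoImplicit false

open Finset Filter Topology
open scoped Classical

namespace Pool.Agent.AP

open Pool.Agent.Helper25.AP

/-- rectangles from a bilinear bound with long variables. -/
lemma rect_of_bil {P : ℕ → Prop} {F : ℕ → ℝ} {N₁ N : ℕ} {T a κ0 E : ℝ} (hT : 1 ≤ T) (hN1 : T ^ (1 - κ0) ≤ N₁)
    (hN : (N : ℝ) ≤ T ^ (1 + κ0)) (hE : 0 ≤ E)
    (hlarge : 6 * T ^ a * T ^ (33 / 50 : ℝ) ≤ T ^ (1 - κ0))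
    (hP : ∀ l : ℕ, P l → T ^ a < l ∧ (l : ℝ) ≤ T ^ (33 / 50 : ℝ))
    (h : ∀ (M L M₀ L₀ : ℕ) (α β : ℕ → ℝ), T ^ a ≤ M → T ^ a ≤ L → M₀ ≤ M → L₀ ≤ L → (M : ℝ) * L ≤ T ^ (1 + κ0) →
      (∀ m, |α m| ≤ 1) → (∀ l, |β l| ≤ 1) → |∑ m ∈ Ioc M₀ M, ∑ l ∈ Ioc L₀ L, α m * β l * F (m * l)| ≤ E) :
    Rect P F N₁ N E := by
  intro α β M L M₀ L₀ ha hb hPl hM hL hL2 hML hN3
  by_cases hex : ∃ l ∈ Ioc L₀ L, β l ≠ 0
  · obtain ⟨l, hl, hβ⟩ := hex
    rw [mem_Ioc] at hl
    obtain ⟨h1, h2⟩ := hP l (hPl l hβ)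
    have h3 : (l : ℝ) ≤ L := by exact_mod_cast hl.2
    have h4 : (L : ℝ) ≤ 2 * l := by
      have : L ≤ 2 * l := by omega
      exact_mod_cast this
    have h5 : (N₁ : ℝ) < 3 * (M * L) := by exact_mod_cast hN3
    have hT0 : 0 < T := by linarith
    have hp : ∀ x : ℝ, 0 < T ^ x := fun x => Real.rpow_pos_of_pos hT0 x
    apply h M L M₀ L₀ α β _ (by linarith) hM hL _ ha hb
    · have h6 : (L : ℝ) ≤ 2 * T ^ (33 / 50 : ℝ) := by linarith
      have h7 : 6 * T ^ a * T ^ (33 / 50 : ℝ) < 3 * (M * (2 * T ^ (33 / 50 : ℝ))) := by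
        calc 6 * T ^ a * T ^ (33 / 50 : ℝ) ≤ N₁ := hlarge.trans hN1
          _ < 3 * (M * L) := h5
          _ ≤ 3 * (M * (2 * T ^ (33 / 50 : ℝ))) := by gcongr
      have h8 : (6 * T ^ (33 / 50 : ℝ)) * T ^ a < (6 * T ^ (33 / 50 : ℝ)) * M := by linarith
      exact (lt_of_mul_lt_mul_left h8 (by have := hp (33 / 50); positivity)).le
    · have : ((M * L : ℕ) : ℝ) ≤ N := by exact_mod_cast hML
      push_cast at this
      linarith
  · push Not at hex
    have : ∑ m ∈ Ioc M₀ M, ∑ l ∈ Ioc L₀ L, α m * β l * F (m * l) = 0 := by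
      apply sum_eq_zero
      intro m _
      apply sum_eq_zero
      intro l hl
      rw [hex l hl]
      ring
    rw [this, abs_zero]
    exact hE

/-- **`Λ` against `b_1`.** -/
theorem FS_Lb1_of (hBLS : Stmt_BLS1) (hTI : Stmt_TI1) (hbd : Stmt_b1_bd) : Stmt_FS_Lb1 := by
  intro κ2 e h2 he h
  obtain ⟨r, hr0, hr2, hre, hr4⟩ : ∃ r : ℝ, 0 < r ∧ 8 * r ≤ κ2 ∧ 8 * r ≤ e ∧ r ≤ 1 / 32 := by
    refine ⟨min κ2 e / 8, by have := lt_min h2 he; positivity, ?_, ?_, ?_⟩
    · have := min_le_left κ2 e; linarith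
    · have := min_le_right κ2 e; linarith
    · have h5 := min_le_left κ2 e
      have h6 := min_le_right κ2 e
      linarith
  apply FS_of_inputs (ρ := r / 1000) (ρ' := r / 100) (s1 := r / 3000) (s2 := r / 300) (s3 := 1 / 4)
    (s4 := r / 1000) (κ0 := r / 100000) (by positivity) (by linarith) (by positivity) (by positivity) (by linarith)
    (by linarith) (by positivity) (by positivity)
  · intro ε hε
    exact hbd h2.le (by linarith) he.le hε
  · filter_upwards [hBLS h2 he h (ρ := r / 1000) (by positivity) (by linarith) (by linarith),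
      hBLS h2 he h (ρ := r / 100) (by positivity) (by linarith) (by linarith),
      hBLS h2 he h (ρ := r) hr0 hr2 hre, hTI h2 he h, hbd h2.le (by linarith) he.le (ε := r / 10000) (by positivity),
      ev_div (ε := r / 10000) (by positivity),
      ev_pow (a := r / 1000 + 33 / 50) (b := 1 - r / 100000) (by linarith) 6,
      ev_pow (a := r / 100 + 33 / 50) (b := 1 - r / 100000) (by linarith) 6,
      ev_pow (a := r + 33 / 50) (b := 1 - r / 100000) (by linarith) 6,
      ev_floor (a := r / 200) (b := r / 100) (by positivity) (by linarith),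
      ev_pow (a := 0) (b := r / 200) (by linarith) 2,
      ev_log (b := r / 1000) (by positivity) 3, ev_pow (a := r / 100 + r / 1000) (b := r / 80) (by linarith) 2,
      ev_pow (a := 1 - r / 500) (b := 1 - r / 1000) (by linarith) 8,
      ev_pow (a := r / 100000) (b := 9 / 10) (by linarith) 6, ev_pow (a := 1 + r / 100000) (b := 3 / 2) (by linarith) 2,
      ev_pow (a := 9 / 25) (b := 33 / 50) (by norm_num) 1, ev_pow (a := r / 100) (b := 17 / 50) (by linarith) 1,
      ev_pow (a := 33 / 50) (b := 9 / 10) (by norm_num) 1, ev_pow (a := 0) (b := r / 80) (by linarith) 2,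
      eventually_ge_atTop 3] with T b1' b2' b3' ti hb hdiv l1 l2 l3 hK1 hK2 hlog hJ hf hk9 hN32 l4 l5 l6 hJ2 hT3
      k hk0 hk N₁ N hN1 hN hlt
    have hT : 1 ≤ T := by linarith
    have hT0 : 0 < T := by linarith
    have hp : ∀ x : ℝ, 0 < T ^ x := fun x => Real.rpow_pos_of_pos hT0 x
    have hmono : ∀ x y : ℝ, x ≤ y → T ^ x ≤ T ^ y := fun x y h => Real.rpow_le_rpow_of_exponent_le hT h
    rw [one_mul] at l4 l5 l6
    rw [Real.rpow_zero] at hK2 hJ2
    rw [Real.rpow_add hT0, ← mul_assoc] at l1 l2 l3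
    refine ⟨?_, ?_, ?_, ?_⟩
    · refine rect_of_bil hT hN1 hN (hp _).le l1 (fun l hl => ⟨hl.2.1, hl.2.2.trans l4⟩) ?_
      intro M L M₀ L₀ α β g1 g2 g3 g4 g5 g6 g7
      have g8 := b1' k M L M₀ L₀ α β hk0 (hk.trans (hmono _ _ (by linarith))) g1 g2 g3 g4
        (g5.trans (hmono _ _ (by linarith))) g6 g7
      refine le_trans (le_of_eq ?_) (g8.trans (hmono _ _ (by linarith)))
      simp only [Nat.cast_mul]
    · refine rect_of_bil hT hN1 hN (hp _).le l2 (fun l hl => ⟨hl.2.1, hl.2.2.trans (hmono _ _ (by linarith))⟩) ?_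
      intro M L M₀ L₀ α β g1 g2 g3 g4 g5 g6 g7
      have g8 := b2' k M L M₀ L₀ α β hk0 (hk.trans (hmono _ _ (by linarith))) g1 g2 g3 g4
        (g5.trans (hmono _ _ (by linarith))) g6 g7
      refine le_trans (le_of_eq ?_) (g8.trans (hmono _ _ (by linarith)))
      simp only [Nat.cast_mul]
    · intro d M₀ M hd1 hd2 hM _
      have hdT : (d : ℝ) ≤ T ^ (r / 100) := le_trans (by exact_mod_cast hd2) (Nat.floor_le (hp _).le)
      have g8 := ti k d M₀ M hd1 (hdT.trans (hmono _ _ (by linarith))) hM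
      refine le_trans (le_of_eq ?_) (g8.trans (hmono _ _ (by norm_num)))
      simp only [Nat.cast_mul]
    · intro z1 Z1 hz1 hZ1
      -- the fourth sum
      have hN9 : T ^ (9 / 10 : ℝ) ≤ N₁ := (hmono _ _ (by linarith)).trans hN1
      have hNT : (N : ℝ) ≤ T ^ 2 := by
        refine hN.trans ?_
        rw [← Real.rpow_natCast]
        exact hmono _ _ (by push_cast; linarith)
      have hNpos : (0 : ℝ) < N := by exact_mod_cast (by omega : 0 < N)
      have hltR : (N₁ : ℝ) < N := by exact_mod_cast hlt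
      set K := ⌊T ^ (r / 100)⌋₊ with hK
      have fK : (K : ℝ) ≤ T ^ (r / 100) := Nat.floor_le (hp _).le
      have cK : 2 ≤ K := by
        have : (2 : ℝ) ≤ (K : ℝ) := by linarith
        exact_mod_cast this
      have cKN : K ≤ N := by
        have h5 : T ^ (17 / 50 : ℝ) ≤ T ^ (9 / 10 : ℝ) := hmono _ _ (by norm_num)
        have : (K : ℝ) ≤ (N : ℝ) := by linarith
        exact_mod_cast this
      have hF : ∀ n : ℕ, N₁ < 3 * n → n ≤ N → |b1 κ2 e T (n + k)| ≤ T ^ (r / 10000) := by
        intro n hn hnN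
        have e1 : (N₁ : ℝ) < 3 * n := by exact_mod_cast hn
        have e2 : (n : ℝ) ≤ N := by exact_mod_cast hnN
        have e3 := abs_le.mp hk
        have e4 : (0 : ℝ) < (n : ℝ) + k := by linarith
        apply hb
        · intro h0
          have : ((n : ℤ) : ℝ) + k = 0 := by exact_mod_cast h0
          push_cast at this
          linarith
        · push_cast
          rw [abs_of_pos e4]
          have e6 : (N : ℝ) + T ^ (r / 100000) ≤ T ^ 2 := by
            have e7 : T ^ (r / 100000) ≤ T ^ (1 + r / 100000) := hmono _ _ (by linarith)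
            have e9 : T ^ (3 / 2 : ℝ) ≤ T ^ 2 := by
              rw [← Real.rpow_natCast]
              exact hmono _ _ (by norm_num)
            linarith
          linarith
      have hDB : DB N (T ^ (r / 10000)) := by
        intro n hn
        rw [mem_Icc] at hn
        apply hdiv n (by omega)
        have : (n : ℝ) ≤ N := by exact_mod_cast hn.2
        linarith
      have hrect : Rect (fun l => z1 < l ∧ l < Z1) (fun n => b1 κ2 e T (n + k)) N₁ N (T ^ (1 - r / 3)) := by
        refine rect_of_bil hT hN1 hN (hp _).le l3 ?_ ?_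
        · rintro l ⟨g1, g2⟩
          have g3 : (z1 : ℝ) < l := by exact_mod_cast g1
          have g4 : (l : ℝ) < Z1 := by exact_mod_cast g2
          have g5 : T ^ r ≤ T ^ (17 / 50 : ℝ) := hmono _ _ (by linarith)
          exact ⟨by linarith, by linarith⟩
        · intro M L M₀ L₀ α β g1 g2 g3 g4 g5 g6 g7
          have g8 := b3' k M L M₀ L₀ α β hk0 (hk.trans (hmono _ _ (by linarith))) g1 g2 g3 g4
            (g5.trans (hmono _ _ (by linarith))) g6 g7
          refine le_trans (le_of_eq ?_) g8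
          simp only [Nat.cast_mul]
      set D := ⌊T ^ (r / 100)⌋₊ with hD
      have h6 := h4_of_rect (w := ⌊T ^ (r / 1000)⌋₊) (D := D) cK cKN hlt.le hF (hp _).le (hp _).le hDB cKN hrect
      refine h6.trans ?_
      have hlogN : Real.log N ≤ 2 * Real.log T := by
        have q2 := Real.log_le_log hNpos hNT
        rw [Real.log_pow] at q2
        exact_mod_cast q2
      have hlogN0 : 0 ≤ Real.log N := Real.log_nonneg (by exact_mod_cast (by omega : 1 ≤ N))
      have hlogT : 0 ≤ Real.log T := Real.log_nonneg hT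
      have hJb : (K : ℝ) * Real.log N + 1 ≤ T ^ (r / 80) := by
        have h5 : (K : ℝ) * Real.log N ≤ T ^ (r / 100) * (3 * Real.log T) := by
          apply mul_le_mul fK _ hlogN0 (hp _).le
          linarith
        have h7 : T ^ (r / 100) * (3 * Real.log T) ≤ T ^ (r / 100) * T ^ (r / 1000) :=
          mul_le_mul_of_nonneg_left hlog (hp _).le
        rw [← Real.rpow_add hT0] at h7
        linarith
      have t1 : (D : ℝ) ^ 2 * (((K : ℝ) * Real.log N + 1) * T ^ (1 - r / 3)) ≤ T ^ (1 - r / 500) := by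
        calc (D : ℝ) ^ 2 * (((K : ℝ) * Real.log N + 1) * T ^ (1 - r / 3)) ≤
              (T ^ (r / 100)) ^ 2 * (T ^ (r / 80) * T ^ (1 - r / 3)) := by
              have := hp (r / 100)
              have := hp (1 - r / 3)
              gcongr
          _ = T ^ (r / 100 + r / 100 + (r / 80 + (1 - r / 3))) := by
              rw [Real.rpow_add hT0, Real.rpow_add hT0, Real.rpow_add hT0]
              ring
          _ ≤ T ^ (1 - r / 500) := hmono _ _ (by linarith)
      have t2 : (T ^ (r / 10000)) ^ 3 * (4 * T ^ (r / 10000) * N / K) ≤ 4 * T ^ (1 - r / 500) := by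
        have a1 : 1 / (K : ℝ) ≤ T ^ (-(r / 200)) := by
          rw [Real.rpow_neg hT0.le, one_div]
          exact inv_anti₀ (hp _) hK1
        calc (T ^ (r / 10000)) ^ 3 * (4 * T ^ (r / 10000) * N / K) =
              4 * (T ^ (r / 10000)) ^ 4 * (N * (1 / K)) := by ring
          _ ≤ 4 * (T ^ (r / 10000)) ^ 4 * (T ^ (1 + r / 100000) * T ^ (-(r / 200))) := by
              have := hp (r / 10000)
              gcongr
          _ = 4 * T ^ (r / 10000 + r / 10000 + r / 10000 + r / 10000 + (1 + r / 100000 + -(r / 200))) := by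
              rw [Real.rpow_add hT0 (r / 10000 + r / 10000 + r / 10000 + r / 10000) (1 + r / 100000 + -(r / 200)),
                Real.rpow_add hT0 (1 + r / 100000) (-(r / 200)),
                Real.rpow_add hT0 (r / 10000 + r / 10000 + r / 10000) (r / 10000),
                Real.rpow_add hT0 (r / 10000 + r / 10000) (r / 10000), Real.rpow_add hT0 (r / 10000) (r / 10000)]
              ring
          _ ≤ 4 * T ^ (1 - r / 500) := mul_le_mul_of_nonneg_left (hmono _ _ (by linarith)) (by norm_num)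
      linarith [hp (1 - r / 500)]

end Pool.Agent.AP
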