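import Pool.Agent.Helper25.AP.Fs3
import Pool.Agent.Helper56.AP.Stmts

/-!
# AP: fixed shifts of `Λ` against `b_2`
-/

set_option autoImplicit false

open Finset Filter Topology
open scoped Classical

namespace Pool.Agent.AP

open Pool.Agent.Helper25.AP

/-- two variables, the first small. -/
lemma bh_aux (hBT : Stmt_BT) (hBH : Stmt_BH) : ∀ᶠ T : ℝ in atTop, ∀ k : ℤ, k ≠ 0 → |(k : ℝ)| ≤ T ^ (1 / 1000000 : ℝ) →
    ∀ (g x₀ x₁ : ℕ) (A A' : ℕ → ℕ), 1 ≤ g → x₀ ≤ x₁ → ((g * x₁ : ℕ) : ℝ) ≤ T ^ (51 / 100 : ℝ) →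
    (∀ x, A x ≤ A' x) → (∀ x, (A' x : ℝ) * ((g * x₁ : ℕ) : ℝ) ≤ T ^ (1 + 1 / 1000000 : ℝ)) →
    |∑ x ∈ Ioc x₀ x₁, ∑ m ∈ Ioc (A x) (A' x), bF T (((g * x : ℕ) : ℤ) * m + k)| ≤ T ^ (1 - 58 / 10000 : ℝ) := by
  filter_upwards [hBT, hBH, ev_pow (a := 1 - 59 / 10000) (b := 1 - 58 / 10000) (by norm_num) 2,
    ev_pow (a := 9502 / 10000) (b := 1 - 58 / 10000) (by norm_num) 2,
    ev_pow (a := 1 + 1 / 1000000 + -(8 / 1000)) (b := 1 - 58 / 10000) (by norm_num) 2,
    eventually_ge_atTop 1] with T h1 h2 e1 e2 e3 hT k hk0 hk g x₀ x₁ A A' hg hx hgx hA hA'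
  have hT0 : 0 < T := by linarith
  have hp : ∀ x : ℝ, 0 < T ^ x := fun x => Real.rpow_pos_of_pos hT0 x
  have hmono : ∀ x y : ℝ, x ≤ y → T ^ x ≤ T ^ y := fun x y h => Real.rpow_le_rpow_of_exponent_le hT h
  by_cases hbig : T ^ (45 / 100 : ℝ) ≤ ((g * x₁ : ℕ) : ℝ)
  · have h3 := h2 k (g * x₀) (g * x₁) (fun n => A (n / g)) (fun n => A' (n / g)) (fun n => if g ∣ n then 1 else 0) hk0 hk
      (Nat.mul_le_mul_left g hx) hbig hgx (fun n => hA _) (fun n => hA' _) (by
        intro n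
        split_ifs <;> simp)
    have h4 : ∑ n ∈ Ioc (g * x₀) (g * x₁), (if g ∣ n then (1 : ℝ) else 0) *
        ∑ m ∈ Ioc (A (n / g)) (A' (n / g)), bF T (n * m + k) =
        ∑ x ∈ Ioc x₀ x₁, ∑ m ∈ Ioc (A x) (A' x), bF T (((g * x : ℕ) : ℤ) * m + k) := by
      have h5 : ∀ n ∈ Ioc (g * x₀) (g * x₁), (if g ∣ n then (1 : ℝ) else 0) *
          ∑ m ∈ Ioc (A (n / g)) (A' (n / g)), bF T (n * m + k) =
          if g ∣ n then ∑ m ∈ Ioc (A (n / g)) (A' (n / g)), bF T (n * m + k) else 0 := by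
        intro n _
        split_ifs
        · rw [one_mul]
        · rw [zero_mul]
      rw [sum_congr rfl h5, ← sum_filter]
      symm
      apply sum_bij (fun x _ => g * x)
      · intro x hx
        rw [mem_Ioc] at hx
        rw [mem_filter, mem_Ioc]
        exact ⟨⟨Nat.mul_lt_mul_of_pos_left hx.1 (by omega), Nat.mul_le_mul_left g hx.2⟩, dvd_mul_right _ _⟩
      · intro x _ y _ h
        exact Nat.eq_of_mul_eq_mul_left (by omega) h
      · intro n hn
        rw [mem_filter, mem_Ioc] at hn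
        obtain ⟨⟨h6, h7⟩, c, rfl⟩ := hn
        exact ⟨c, mem_Ioc.mpr ⟨lt_of_mul_lt_mul_left h6 (Nat.zero_le _), le_of_mul_le_mul_left h7 (by omega)⟩, rfl⟩
      · intro x _
        rw [Nat.mul_div_cancel_left x (by omega)]
    rw [h4] at h3
    exact h3.trans (by linarith [hp (1 - 59 / 10000)])
  · push Not at hbig
    refine (abs_sum_le_sum_abs _ _).trans ?_
    by_cases hx1 : x₁ = 0
    · subst hx1
      rw [Ioc_eq_empty (by omega), sum_empty]
      exact (hp _).le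
    have hgx1 : (0 : ℝ) < ((g * x₁ : ℕ) : ℝ) := by
      exact_mod_cast Nat.mul_pos (by omega : 0 < g) (by omega : 0 < x₁)
    have hx1p : (0 : ℝ) < x₁ := by exact_mod_cast (by omega : 0 < x₁)
    have hgp : (1 : ℝ) ≤ g := by exact_mod_cast hg
    have c1 : ∀ x ∈ Ioc x₀ x₁, |∑ m ∈ Ioc (A x) (A' x), bF T (((g * x : ℕ) : ℤ) * m + k)| ≤
        T ^ (5002 / 10000 : ℝ) + T ^ (1 + 1 / 1000000 + -(8 / 1000) : ℝ) / x₁ := by
      intro x hx
      rw [mem_Ioc] at hx
      have c2 : ((g * x : ℕ) : ℝ) ≤ ((g * x₁ : ℕ) : ℝ) := by exact_mod_cast Nat.mul_le_mul_left g hx.2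
      have c3 := h1 k (g * x) (A x) (A' x) hk0 hk (Nat.mul_pos (by omega) (by omega)) (by
        have c4 : T ^ (45 / 100 : ℝ) ≤ T ^ 2 := by
          rw [← Real.rpow_natCast]
          exact hmono _ _ (by norm_num)
        linarith) (hA x)
      refine c3.trans ?_
      apply add_le_add le_rfl
      have c5 : (A' x : ℝ) ≤ T ^ (1 + 1 / 1000000 : ℝ) / x₁ := by
        rw [le_div_iff₀ hx1p]
        refine le_trans ?_ (hA' x)
        apply mul_le_mul_of_nonneg_left _ (Nat.cast_nonneg _)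
        push_cast
        nlinarith
      calc (A' x : ℝ) * T ^ (-(8 / 1000) : ℝ) ≤ (T ^ (1 + 1 / 1000000 : ℝ) / x₁) * T ^ (-(8 / 1000) : ℝ) :=
            mul_le_mul_of_nonneg_right c5 (hp _).le
        _ = T ^ (1 + 1 / 1000000 + -(8 / 1000) : ℝ) / x₁ := by
            rw [Real.rpow_add hT0 (1 + 1 / 1000000) (-(8 / 1000))]
            ring
    refine (sum_le_sum c1).trans ?_
    rw [sum_const, nsmul_eq_mul]
    have c2 : ((Ioc x₀ x₁).card : ℝ) ≤ x₁ := by
      rw [Nat.card_Ioc]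
      exact_mod_cast Nat.sub_le _ _
    have c3 : (x₁ : ℝ) ≤ T ^ (45 / 100 : ℝ) := by
      have : (x₁ : ℝ) ≤ ((g * x₁ : ℕ) : ℝ) := by
        push_cast
        nlinarith
      linarith
    calc ((Ioc x₀ x₁).card : ℝ) * (T ^ (5002 / 10000 : ℝ) + T ^ (1 + 1 / 1000000 + -(8 / 1000) : ℝ) / x₁) ≤
          x₁ * (T ^ (5002 / 10000 : ℝ) + T ^ (1 + 1 / 1000000 + -(8 / 1000) : ℝ) / x₁) := by
          apply mul_le_mul_of_nonneg_right c2
          have := hp (5002 / 10000)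
          have := hp (1 + 1 / 1000000 + -(8 / 1000))
          positivity
      _ = x₁ * T ^ (5002 / 10000 : ℝ) + T ^ (1 + 1 / 1000000 + -(8 / 1000) : ℝ) := by
          field_simp
      _ ≤ T ^ (45 / 100 : ℝ) * T ^ (5002 / 10000 : ℝ) + T ^ (1 + 1 / 1000000 + -(8 / 1000) : ℝ) := by
          apply add_le_add _ le_rfl
          exact mul_le_mul_of_nonneg_right c3 (hp _).le
      _ = T ^ (9502 / 10000 : ℝ) + T ^ (1 + 1 / 1000000 + -(8 / 1000) : ℝ) := by
          rw [← Real.rpow_add hT0]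
          norm_num
      _ ≤ T ^ (1 - 58 / 10000 : ℝ) := by linarith

/-- the fourth input for `b_2`. -/
lemma free_b2 (hBT : Stmt_BT) (hBH : Stmt_BH) : ∀ᶠ T : ℝ in atTop, ∀ k : ℤ, k ≠ 0 → |(k : ℝ)| ≤ T ^ (1 / 1000000 : ℝ) →
    ∀ N₁ N : ℕ, (N : ℝ) ≤ T ^ (1 + 1 / 2000000 : ℝ) → N₁ < N → ∀ z1 Z1 : ℕ, T ^ (17 / 50 : ℝ) ≤ z1 →
    Free4 (fun n => bF T (n + k)) N₁ N ⌊T ^ (1 / 400 : ℝ)⌋₊ z1 Z1 (T ^ (1 - 58 / 10000 : ℝ)) := by
  filter_upwards [bh_aux hBT hBH, ev_pow (a := 1 + 1 / 2000000) (b := 1 + 1 / 1000000) (by norm_num) 2,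
    ev_pow (a := 1 + 1 / 2000000 + 1 / 200 - 51 / 100) (b := 51 / 100) (by norm_num) 4,
    ev_pow (a := 0) (b := 17 / 50 - 1 / 200) (by norm_num) 2, eventually_ge_atTop 1] with T haux e1 e2 e3 hT
    k hk0 hk N₁ N hN hlt z1 Z1 hz1 d d' b₀ b₁ hd1 hd2 hd'1 hd'2 hb hb2 hz _
  have hT0 : 0 < T := by linarith
  have hp : ∀ x : ℝ, 0 < T ^ x := fun x => Real.rpow_pos_of_pos hT0 x
  have hmono : ∀ x y : ℝ, x ≤ y → T ^ x ≤ T ^ y := fun x y h => Real.rpow_le_rpow_of_exponent_le hT h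
  set g := d' * d with hg
  have hg1 : 1 ≤ g := Nat.mul_pos hd'1 hd1
  have fD := Nat.floor_le (hp (1 / 400)).le
  have hgT : (g : ℝ) ≤ T ^ (1 / 200 : ℝ) := by
    have h1 : (d : ℝ) ≤ T ^ (1 / 400 : ℝ) := le_trans (by exact_mod_cast hd2) fD
    have h2 : (d' : ℝ) ≤ T ^ (1 / 400 : ℝ) := le_trans (by exact_mod_cast hd'2) fD
    calc (g : ℝ) = d' * d := by rw [hg]; push_cast; ring
      _ ≤ T ^ (1 / 400 : ℝ) * T ^ (1 / 400 : ℝ) := mul_le_mul h2 h1 (Nat.cast_nonneg _) (hp _).le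
      _ = T ^ (1 / 200 : ℝ) := by rw [← Real.rpow_add hT0]; norm_num
  have hterm : ∀ a b : ℕ, (((d' * a * (d * b) : ℕ) : ℤ) + k) = ((g * b : ℕ) : ℤ) * (a : ℤ) + k := by
    intro a b
    rw [hg]
    push_cast
    ring
  have hterm2 : ∀ a b : ℕ, (((d' * a * (d * b) : ℕ) : ℤ) + k) = ((g * a : ℕ) : ℤ) * (b : ℤ) + k := by
    intro a b
    rw [hg]
    push_cast
    ring
  have hdb : ∀ b : ℕ, d' * (d * b) = g * b := fun b => by rw [hg]; ring
  by_cases hA : ((g * b₁ : ℕ) : ℝ) ≤ T ^ (51 / 100 : ℝ)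
  · -- `b` is the small variable
    have h1 := haux k hk0 hk g b₀ b₁ (fun x => if x ∈ Ioc b₀ b₁ then N₁ / (g * x) else 0)
      (fun x => if x ∈ Ioc b₀ b₁ then N / (g * x) else 0) hg1 hb hA (by
        intro x
        split_ifs
        · exact Nat.div_le_div_right hlt.le
        · exact le_rfl) (by
        intro x
        split_ifs with hx
        · rw [mem_Ioc] at hx
          have h2 : ((N / (g * x) : ℕ) : ℝ) ≤ N / ((g * x : ℕ) : ℝ) := Nat.cast_div_le
          have h3 : (0 : ℝ) < ((g * x : ℕ) : ℝ) := by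
            exact_mod_cast Nat.mul_pos (by omega : 0 < g) (by omega : 0 < x)
          have h4 : ((g * b₁ : ℕ) : ℝ) ≤ 2 * ((g * x : ℕ) : ℝ) := by
            have : g * b₁ ≤ 2 * (g * x) := by
              calc g * b₁ ≤ g * (2 * x) := Nat.mul_le_mul_left g (by omega)
                _ = 2 * (g * x) := by ring
            exact_mod_cast this
          calc ((N / (g * x) : ℕ) : ℝ) * ((g * b₁ : ℕ) : ℝ) ≤ (N / ((g * x : ℕ) : ℝ)) * (2 * ((g * x : ℕ) : ℝ)) :=
                mul_le_mul h2 h4 (Nat.cast_nonneg _) (by positivity)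
            _ = 2 * N := by field_simp
            _ ≤ T ^ (1 + 1 / 1000000 : ℝ) := by linarith
        · rw [Nat.cast_zero, zero_mul]
          exact (hp _).le)
    refine le_trans (le_of_eq ?_) h1
    congr 1
    refine sum_congr rfl fun b hb => ?_
    rw [if_pos hb, if_pos hb, hdb b]
    refine sum_congr rfl fun a _ => ?_
    change bF T (((d' * a * (d * b) : ℕ) : ℤ) + k) = _
    rw [hterm a b]
  · -- `a` is the small variable
    push Not at hA
    have hb0 : 1 ≤ b₀ := by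
      by_contra hcon
      have h2 : b₀ = 0 := by omega
      subst h2
      have h3 : b₁ ≤ 1 := by omega
      have h4 : ((g * b₁ : ℕ) : ℝ) ≤ g := by
        have : g * b₁ ≤ g := by nlinarith
        exact_mod_cast this
      have h5 : T ^ (1 / 200 : ℝ) ≤ T ^ (51 / 100 : ℝ) := hmono _ _ (by norm_num)
      linarith
    set a₁ := N / (g * (b₀ + 1)) with ha1
    have hgb : 0 < g * (b₀ + 1) := Nat.mul_pos (by omega) (by omega)
    have ha1' : a₁ * (g * (b₀ + 1)) ≤ N := Nat.div_mul_le_self _ _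
    have ha2 : ((g * a₁ : ℕ) : ℝ) * b₁ ≤ 2 * N := by
      have h2 : g * a₁ * b₁ ≤ 2 * N := by
        calc g * a₁ * b₁ ≤ g * a₁ * (2 * (b₀ + 1)) := Nat.mul_le_mul_left _ (by omega)
          _ = 2 * (a₁ * (g * (b₀ + 1))) := by ring
          _ ≤ 2 * N := by omega
      exact_mod_cast h2
    have ha3 : ((g * a₁ : ℕ) : ℝ) ≤ T ^ (51 / 100 : ℝ) := by
      have h2 : T ^ (51 / 100 : ℝ) < T ^ (1 / 200 : ℝ) * b₁ := by
        refine lt_of_lt_of_le hA ?_
        push_cast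
        exact mul_le_mul_of_nonneg_right hgT (Nat.cast_nonneg _)
      have h3 : T ^ (51 / 100 - 1 / 200 : ℝ) < b₁ := by
        rw [Real.rpow_sub hT0, div_lt_iff₀ (hp _), mul_comm]
        exact h2
      have h4 : ((g * a₁ : ℕ) : ℝ) * T ^ (51 / 100 - 1 / 200 : ℝ) ≤ 2 * T ^ (1 + 1 / 2000000 : ℝ) := by
        calc ((g * a₁ : ℕ) : ℝ) * T ^ (51 / 100 - 1 / 200 : ℝ) ≤ ((g * a₁ : ℕ) : ℝ) * b₁ :=
              mul_le_mul_of_nonneg_left h3.le (Nat.cast_nonneg _)
          _ ≤ 2 * N := ha2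
          _ ≤ 2 * T ^ (1 + 1 / 2000000 : ℝ) := by linarith
      have h5 : ((g * a₁ : ℕ) : ℝ) ≤ 2 * T ^ (1 + 1 / 2000000 + 1 / 200 - 51 / 100 : ℝ) := by
        have h6 : T ^ (1 + 1 / 2000000 : ℝ) =
            T ^ (1 + 1 / 2000000 + 1 / 200 - 51 / 100 : ℝ) * T ^ (51 / 100 - 1 / 200 : ℝ) := by
          rw [← Real.rpow_add hT0]
          norm_num
        rw [h6, ← mul_assoc] at h4
        exact le_of_mul_le_mul_right h4 (hp _)
      linarith [hp (1 + 1 / 2000000 + 1 / 200 - 51 / 100)]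
    set A : ℕ → ℕ := fun x => min b₁ (max b₀ (N₁ / (g * x))) with hAd
    set A' : ℕ → ℕ := fun x => max (A x) (min b₁ (N / (g * x))) with hA'd
    have hA'le : ∀ x, A' x ≤ b₁ := by
      intro x
      rw [hA'd]
      exact max_le (min_le_left _ _) (min_le_left _ _)
    have h1 := haux k hk0 hk g 0 a₁ A A' hg1 (Nat.zero_le _) ha3 (fun x => le_max_left _ _) (by
        intro x
        have h2 : (A' x : ℝ) ≤ b₁ := by exact_mod_cast hA'le x
        calc (A' x : ℝ) * ((g * a₁ : ℕ) : ℝ) ≤ b₁ * ((g * a₁ : ℕ) : ℝ) :=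
              mul_le_mul_of_nonneg_right h2 (Nat.cast_nonneg _)
          _ = ((g * a₁ : ℕ) : ℝ) * b₁ := mul_comm _ _
          _ ≤ 2 * N := ha2
          _ ≤ T ^ (1 + 1 / 1000000 : ℝ) := by linarith)
    refine le_trans (le_of_eq ?_) h1
    congr 1
    -- exchange
    have hmem : ∀ a b : ℕ, (b ∈ Ioc b₀ b₁ ∧ a ∈ Ioc (N₁ / (d' * (d * b))) (N / (d' * (d * b)))) ↔
        (b ∈ Ioc (A a) (A' a) ∧ a ∈ Ioc 0 a₁) := by
      intro a b
      rw [hdb b, mem_Ioc, mem_Ioc, mem_Ioc, mem_Ioc]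
      constructor
      · rintro ⟨⟨h2, h3⟩, h4, h5⟩
        have ha0 : 0 < a := Nat.lt_of_le_of_lt (Nat.zero_le _) h4
        have hb0' : 0 < b := by omega
        rw [Nat.div_lt_iff_lt_mul (Nat.mul_pos (by omega) hb0')] at h4
        rw [Nat.le_div_iff_mul_le (Nat.mul_pos (by omega) hb0')] at h5
        have h6 : N₁ / (g * a) < b := by
          rw [Nat.div_lt_iff_lt_mul (Nat.mul_pos (by omega) ha0)]
          calc N₁ < a * (g * b) := h4
            _ = b * (g * a) := by ring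
        have h7 : b ≤ N / (g * a) := by
          rw [Nat.le_div_iff_mul_le (Nat.mul_pos (by omega) ha0)]
          calc b * (g * a) = a * (g * b) := by ring
            _ ≤ N := h5
        refine ⟨⟨?_, ?_⟩, ha0, ?_⟩
        · rw [hAd]
          exact lt_of_le_of_lt (min_le_right _ _) (max_lt h2 h6)
        · rw [hA'd]
          exact le_trans (le_min h3 h7) (le_max_right _ _)
        · rw [ha1, Nat.le_div_iff_mul_le hgb]
          calc a * (g * (b₀ + 1)) ≤ a * (g * b) := Nat.mul_le_mul_left _ (Nat.mul_le_mul_left _ (by omega))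
            _ ≤ N := h5
      · rintro ⟨⟨h2, h3⟩, h4, h5⟩
        have h6 : b ≤ b₁ := h3.trans (hA'le a)
        have h7 : b ≤ min b₁ (N / (g * a)) := by
          rw [hA'd] at h3
          rcases le_max_iff.mp h3 with h8 | h8
          · exact absurd h8 (by omega)
          · exact h8
        have h8 : max b₀ (N₁ / (g * a)) < b := by
          rw [hAd] at h2
          rcases min_lt_iff.mp h2 with h9 | h9
          · exact absurd h9 (by omega)
          · exact h9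
        have h9 : b₀ < b := lt_of_le_of_lt (le_max_left _ _) h8
        have h10 : N₁ / (g * a) < b := lt_of_le_of_lt (le_max_right _ _) h8
        have h11 : b ≤ N / (g * a) := h7.trans (min_le_right _ _)
        have hb0' : 0 < b := by omega
        rw [Nat.div_lt_iff_lt_mul (Nat.mul_pos (by omega) h4)] at h10
        rw [Nat.le_div_iff_mul_le (Nat.mul_pos (by omega) h4)] at h11
        refine ⟨⟨h9, h6⟩, ?_, ?_⟩
        · rw [Nat.div_lt_iff_lt_mul (Nat.mul_pos (by omega) hb0')]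
          calc N₁ < b * (g * a) := h10
            _ = a * (g * b) := by ring
        · rw [Nat.le_div_iff_mul_le (Nat.mul_pos (by omega) hb0')]
          calc a * (g * b) = b * (g * a) := by ring
            _ ≤ N := h11
    rw [sum_comm' (s := Ioc b₀ b₁) (t := fun b => Ioc (N₁ / (d' * (d * b))) (N / (d' * (d * b))))
      (t' := Ioc 0 a₁) (s' := fun a => Ioc (A a) (A' a)) (fun b a => hmem a b)]
    refine sum_congr rfl fun a _ => sum_congr rfl fun b _ => ?_
    change bF T (((d' * a * (d * b) : ℕ) : ℤ) + k) = _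
    rw [hterm2 a b]

/-- **`Λ` against `b_2`.** -/
theorem FS_Lb2_of (hBP : Stmt_BP) (hBS : Stmt_BS) (hBT : Stmt_BT) (hBH : Stmt_BH) (hbd : Stmt_b2_bd) (hEX : Stmt_EXF) :
    Stmt_FS_Lb2 := by
  unfold Stmt_FS_Lb2
  apply FS_of_inputs (ρ := 1 / 2000) (ρ' := 1 / 400) (s1 := 1 / 10000000) (s2 := 59 / 100000) (s3 := 7 / 1000)
    (s4 := 5 / 10000) (κ0 := 1 / 2000000) (by norm_num) (by norm_num) (by norm_num) (by norm_num) (by norm_num)
    (by norm_num) (by norm_num) (by norm_num)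
  · intro ε hε
    exact hbd hEX hε
  · filter_upwards [hBP, hBS, hBT, free_b2 hBT hBH,
      ev_pow (a := 5002 / 10000) (b := 1 - 7 / 1000) (by norm_num) 2,
      ev_pow (a := 1 + 1 / 2000000 + -(8 / 1000)) (b := 1 - 7 / 1000) (by norm_num) 2,
      ev_log (b := 1 / 100000) (by norm_num) 5, ev_pow (a := 33 / 50) (b := 1 - 1 / 2000000) (by norm_num) 1,
      ev_pow (a := 0) (b := 1 / 100000) (by norm_num) 2,
      eventually_ge_atTop 3] with T h1 h2 h3 h4 e1 e2 e3 e4 e5 hT3 k hk0 hk N₁ N hN1 hN hlt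
    have hT : 1 ≤ T := by linarith
    have hT0 : 0 < T := by linarith
    have hp : ∀ x : ℝ, 0 < T ^ x := fun x => Real.rpow_pos_of_pos hT0 x
    have hmono : ∀ x y : ℝ, x ≤ y → T ^ x ≤ T ^ y := fun x y h => Real.rpow_le_rpow_of_exponent_le hT h
    have hk' : |(k : ℝ)| ≤ T ^ (1 / 1000000 : ℝ) := hk.trans (hmono _ _ (by norm_num))
    have hNN : (N : ℝ) ≤ T ^ (1 + 1 / 1000000 : ℝ) := hN.trans (hmono _ _ (by norm_num))
    refine ⟨?_, ?_, ?_, ?_⟩
    · intro α β M L M₀ L₀ ha hb hP hM hL _ hML _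
      have h5 := h1 k M L M₀ L₀ α β hk0 hk' hM hL (by
        have : ((M * L : ℕ) : ℝ) ≤ N := by exact_mod_cast hML
        push_cast at this
        linarith) ha hb (by
        intro l hl
        obtain ⟨q1, q2, q3⟩ := hP l hl
        exact ⟨q1, q2.le, q3.trans (hmono _ _ (by norm_num))⟩)
      refine le_trans (le_of_eq ?_) h5
      simp only [Nat.cast_mul]
    · intro α β M L M₀ L₀ ha hb hP hM hL _ hML _
      have h5 := h2 k M L M₀ L₀ α β hk0 hk' hM hL (by
        have : ((M * L : ℕ) : ℝ) ≤ N := by exact_mod_cast hML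
        push_cast at this
        linarith) ha hb (by
        intro l hl
        obtain ⟨q1, q2, q3⟩ := hP l hl
        refine ⟨q1.1, q2, q3.trans (hmono _ _ (by norm_num)), ?_⟩
        intro p hp1 hpl
        have q4 : p ≤ ⌊T ^ (1 / 2000 : ℝ)⌋₊ := q1.2 p hp1 hpl
        exact (Nat.le_floor_iff (hp _).le).mp q4)
      refine le_trans (le_of_eq ?_) h5
      simp only [Nat.cast_mul]
    · intro d M₀ M hd1 hd2 hM hdM
      have hdT : (d : ℝ) ≤ T ^ (1 / 400 : ℝ) := le_trans (by exact_mod_cast hd2) (Nat.floor_le (hp _).le)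
      have h5 := h3 k d M₀ M hk0 hk' hd1 (by
        refine hdT.trans ?_
        rw [← Real.rpow_natCast]
        exact hmono _ _ (by norm_num)) hM
      have h6 : (M : ℝ) ≤ T ^ (1 + 1 / 2000000 : ℝ) := by
        have : M ≤ N := le_trans (Nat.le_mul_of_pos_left M (by omega)) hdM
        have : (M : ℝ) ≤ N := by exact_mod_cast this
        linarith
      have h7 : (M : ℝ) * T ^ (-(8 / 1000) : ℝ) ≤ T ^ (1 + 1 / 2000000 + -(8 / 1000) : ℝ) := by
        rw [Real.rpow_add hT0]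
        exact mul_le_mul_of_nonneg_right h6 (hp _).le
      have h8 : ∑ m ∈ Ioc M₀ M, bF T (((d * m : ℕ) : ℤ) + k) = ∑ m ∈ Ioc M₀ M, bF T (d * m + k) := by
        refine sum_congr rfl fun m _ => ?_
        push_cast
        rfl
      change |∑ m ∈ Ioc M₀ M, bF T (((d * m : ℕ) : ℤ) + k)| ≤ _
      rw [h8]
      linarith
    · intro z1 Z1 hz1 hZ1
      have h5 := h4 k hk0 hk' N₁ N hN hlt z1 Z1 hz1
      have hZN : Z1 ≤ N := by
        have : (Z1 : ℝ) ≤ N₁ := by linarith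
        have : Z1 ≤ N₁ := by exact_mod_cast this
        omega
      have h6 := h4_of (w := ⌊T ^ (1 / 2000 : ℝ)⌋₊) hlt.le (hp _).le hZN h5
      refine h6.trans ?_
      have hNpos : (0 : ℝ) < N := by exact_mod_cast (by omega : 0 < N)
      have hlogN : Real.log N ≤ 2 * Real.log T := by
        have q1 : (N : ℝ) ≤ T ^ 2 := by
          refine hN.trans ?_
          rw [← Real.rpow_natCast]
          exact hmono _ _ (by norm_num)
        have q2 := Real.log_le_log hNpos q1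
        rw [Real.log_pow] at q2
        exact_mod_cast q2
      have hlogN0 : 0 ≤ Real.log N := Real.log_nonneg (by exact_mod_cast (by omega : 1 ≤ N))
      have hlog1 : 1 ≤ Real.log T := by
        rw [Real.le_log_iff_exp_le hT0]
        have := Real.exp_one_lt_d9
        linarith
      have h7 : 2 * Real.log N + 1 ≤ T ^ (1 / 100000 : ℝ) := by linarith
      have fD := Nat.floor_le (hp (1 / 400)).le
      set D := ⌊T ^ (1 / 400 : ℝ)⌋₊
      calc (D : ℝ) * (D * ((2 * Real.log N + 1) * T ^ (1 - 58 / 10000 : ℝ))) ≤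
            T ^ (1 / 400 : ℝ) * (T ^ (1 / 400 : ℝ) * (T ^ (1 / 100000 : ℝ) * T ^ (1 - 58 / 10000 : ℝ))) := by
            have := hp (1 / 400)
            have := hp (1 - 58 / 10000)
            gcongr
        _ = T ^ (1 / 400 + (1 / 400 + (1 / 100000 + (1 - 58 / 10000))) : ℝ) := by
            rw [Real.rpow_add hT0, Real.rpow_add hT0, Real.rpow_add hT0]
        _ ≤ T ^ (1 - 5 / 10000 : ℝ) := hmono _ _ (by norm_num)

end Pool.Agent.AP
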